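import Mathlib

/-!
Lengths of quotients by full-rank submodules over a principal ideal domain and determinants.
-/

set_option linter.unusedSectionVars false

namespace Pool.Agent.Lib.MP_18dec4_ag

open Module

section PID

variable {R M ι : Type*} [CommRing R] [IsDomain R] [IsPrincipalIdealRing R]
  [AddCommGroup M] [Module R M] [Fintype ι] [DecidableEq ι]

lemma ord_prod {κ : Type*} (s : Finset κ) (a : κ → R) (ha : ∀ i, a i ≠ 0) :
    Ring.ord R (∏ i ∈ s, a i) = ∑ i ∈ s, Ring.ord R (a i) := by
  classical
  induction s using Finset.induction_on with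
  | empty => simp
  | insert i s hi ih =>
    rw [Finset.prod_insert hi, Finset.sum_insert hi, Ring.ord_mul, ih]
    exact mem_nonZeroDivisors_of_ne_zero (Finset.prod_ne_zero_iff.2 fun j _ => ha j)

/-- `e.det w = det c * e.det v` if `w = c v`. -/
lemma det_of_comb {R M ι : Type*} [CommRing R] [AddCommGroup M] [Module R M] [Fintype ι]
    [DecidableEq ι] (e : Basis ι R M) (v w : ι → M) (c : Matrix ι ι R)
    (h : ∀ i, w i = ∑ j, c i j • v j) : e.det w = c.det * e.det v := by
  rw [Basis.det_apply, Basis.det_apply]
  have : e.toMatrix w = e.toMatrix v * c.transpose := by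
    ext k i
    rw [Basis.toMatrix_apply, h i, map_sum, Finsupp.finsetSum_apply, Matrix.mul_apply]
    refine Finset.sum_congr rfl fun j _ => ?_
    rw [map_smul, Finsupp.smul_apply, Basis.toMatrix_apply, Matrix.transpose_apply, smul_eq_mul,
      mul_comm]
  rw [this, Matrix.det_mul, Matrix.det_transpose, mul_comm]

lemma linearIndependent_of_det_ne_zero {R M ι : Type*} [CommRing R] [IsDomain R]
    [AddCommGroup M] [Module R M] [Fintype ι] [DecidableEq ι] (b : Basis ι R M) (v : ι → M)
    (hv : b.det v ≠ 0) : LinearIndependent R v := by
  have h := Matrix.linearIndependent_cols_of_det_ne_zero (A := b.toMatrix v) hv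
  rw [← LinearMap.linearIndependent_iff (b.equivFun : M →ₗ[R] (ι → R)) (by simp)]
  exact h

/-- The length of the quotient of a free module by the span of `v` is the order of `det v`. -/
lemma length_quotient_span (b : Basis ι R M) (v : ι → M) (hv : b.det v ≠ 0) :
    Module.length R (M ⧸ Submodule.span R (Set.range v)) = Ring.ord R (b.det v) := by
  have hli := linearIndependent_of_det_ne_zero b v hv
  set N := Submodule.span R (Set.range v) with hN
  let bv : Basis ι R N := Basis.span hli
  have hbv : ∀ i, (bv i : M) = v i := fun i => Basis.coe_span_apply hli i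
  have hrk : Module.finrank R N = Module.finrank R M := by
    rw [Module.finrank_eq_card_basis bv, Module.finrank_eq_card_basis b]
  rw [(N.quotientEquivPiSpan b hrk).length_eq, Module.length_pi_of_fintype]
  have h1 : ∀ i, Module.length R (R ⧸ Ideal.span {Submodule.smithNormalFormCoeffs b hrk i}) =
      Ring.ord R (Submodule.smithNormalFormCoeffs b hrk i) := fun i => rfl
  simp only [h1]
  rw [← ord_prod _ _ (fun i => Submodule.smithNormalFormCoeffs_ne_zero b hrk i)]
  apply Ring.ord_eq_of_associated
  set b' := Submodule.smithNormalFormTopBasis b hrk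
  set ab := Submodule.smithNormalFormBotBasis b hrk
  set a := Submodule.smithNormalFormCoeffs b hrk
  have hab : ∀ i, (ab i : M) = a i • b' i := Submodule.smithNormalFormBotBasis_def b hrk
  -- b.det v = b.det b' * b'.det v
  have h2 : b.det v = b.det b' * b'.det v := by
    conv_lhs => rw [AlternatingMap.eq_smul_basis_det b' b.det]
    rfl
  -- b'.det v = det (ab.toMatrix bv)ᵀ * b'.det ab
  have h3 : b'.det v = ab.det bv * b'.det (fun i => (ab i : M)) := by
    have := det_of_comb b' (fun i => (ab i : M)) v (ab.toMatrix bv).transpose (by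
      intro i
      rw [← hbv i]
      have := ab.sum_toMatrix_smul_self bv i
      have h4 := congrArg (Submodule.subtype N) this
      rw [map_sum] at h4
      simp only [Submodule.subtype_apply, Submodule.coe_smul] at h4
      rw [← h4]
      rfl)
    rw [Matrix.det_transpose] at this
    exact this
  have h5 : b'.det (fun i => (ab i : M)) = ∏ i, a i := by
    have := det_of_comb b' b' (fun i => (ab i : M)) (Matrix.diagonal a) (by
      intro i
      rw [hab i]
      simp [Matrix.diagonal_apply, ite_smul])
    rw [this, Matrix.det_diagonal, Basis.det_self, mul_one]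
  rw [h2, h3, h5]
  have u1 : IsUnit (b.det b') := b.isUnit_det b'
  have u2 : IsUnit (ab.det bv) := ab.isUnit_det bv
  rw [← mul_assoc]
  exact ⟨(u1.mul u2).unit, by rw [IsUnit.unit_spec, mul_comm]⟩

end PID

end Pool.Agent.Lib.MP_18dec4_ag
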