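import Pool.Agent.Lib.MP_18dec4_ag.GaloisU
import Pool.Agent.Lib.MP_18dec4_ag.Length

/-!
Galois extensions `C/R` of prime degree: the case of a stable prime with full inertia group.
-/

set_option linter.unusedSectionVars false
set_option linter.overlappingInstances false

namespace Pool.Agent.Lib.MP_18dec4_ag

open Polynomial KaehlerDifferential Algebra
open scoped Pointwise

section structure_of_C

variable {G R C : Type*} [Group G] [Fintype G] [CommRing R] [IsDomain R]
  [IsDiscreteValuationRing R] [CommRing C] [IsDomain C] [IsDedekindDomain C] [Algebra R C]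
  [Module.Finite R C] [FaithfulSMul R C] [MulSemiringAction G C] [IsGaloisGroup G R C]

omit [CommRing R] [IsDomain R] [IsDiscreteValuationRing R] [IsDomain C] [IsDedekindDomain C]
  [Algebra R C] [Module.Finite R C] [FaithfulSMul R C] [IsGaloisGroup G R C] in
/-- If no element separates `Q` then `Q` is stable. -/
lemma stable_of_nonseparating (hG : (Nat.card G).Prime) (Q : Ideal C) [hQ : Q.IsMaximal]
    (hNU : ∀ z : C, ∃ g : G, g ≠ 1 ∧ z - g • z ∈ Q) (g : G) : g • Q = Q := by
  classical
  have : Fact (Nat.card G).Prime := ⟨hG⟩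
  have hst : MulAction.stabilizer G Q = ⊤ := by
    rcases (MulAction.stabilizer G Q).eq_bot_or_eq_top_of_prime_card with h | h
    · exfalso
      by_cases hsub : (Q : Set C) ⊆ ⋃ g ∈ (↑(Finset.univ.erase (1 : G)) : Set G),
          ((g • Q : Ideal C) : Set C)
      · rw [Ideal.subset_union_prime (1 : G) (1 : G)
          (fun i _ _ _ => inferInstance)] at hsub
        obtain ⟨g, hg, hle⟩ := hsub
        have hne : g • Q ≠ ⊤ := (inferInstance : (g • Q).IsPrime).ne_top
        have heq : g • Q = Q := (hQ.eq_of_le hne hle).symm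
        have : g ∈ MulAction.stabilizer G Q := MulAction.mem_stabilizer_iff.2 heq
        rw [h, Subgroup.mem_bot] at this
        exact (Finset.ne_of_mem_erase hg) this
      · obtain ⟨z, hzQ, hz⟩ := Set.not_subset.1 hsub
        obtain ⟨g, hg, hgz⟩ := hNU z
        apply hz
        simp only [Set.mem_iUnion]
        refine ⟨g⁻¹, by simp [hg], ?_⟩
        rw [SetLike.mem_coe, Ideal.mem_inv_pointwise_smul_iff]
        have := Q.sub_mem hzQ hgz
        simpa using this
    · exact h
  have : g ∈ MulAction.stabilizer G Q := by rw [hst]; trivial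
  exact MulAction.mem_stabilizer_iff.1 this

omit [CommRing R] [IsDomain R] [IsDiscreteValuationRing R] [IsDomain C] [IsDedekindDomain C]
  [Algebra R C] [Module.Finite R C] [FaithfulSMul R C] [IsGaloisGroup G R C] in
lemma inert_of_nonseparating (hG : (Nat.card G).Prime) (Q : Ideal C) [hQ : Q.IsMaximal]
    (hNU : ∀ z : C, ∃ g : G, g ≠ 1 ∧ z - g • z ∈ Q) (g : G) (z : C) : g • z - z ∈ Q := by
  have : Fact (Nat.card G).Prime := ⟨hG⟩
  obtain ⟨g₁, hg₁, hz⟩ := hNU z
  have hstab := stable_of_nonseparating hG Q hNU g₁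
  have hmem : ∀ c ∈ Q, g₁ • c ∈ Q := by
    intro c hc
    rw [← hstab]
    exact Ideal.smul_mem_pointwise_smul g₁ c Q hc
  have hpow : ∀ n : ℕ, g₁ ^ n • z - z ∈ Q := by
    intro n
    induction n with
    | zero => simp
    | succ n ih =>
      have h1 : g₁ ^ (n + 1) • z - z = g₁ • (g₁ ^ n • z - z) - (z - g₁ • z) := by
        rw [pow_succ', mul_smul, smul_sub]; ring
      rw [h1]
      exact Q.sub_mem (hmem _ ih) hz
  obtain ⟨n, rfl⟩ := mem_powers_of_prime_card (p := Nat.card G) (g := g₁) (g' := g) rfl hg₁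
  exact hpow n

variable (R) in
include R in
/-- If no element separates `Q` then `C` is local. -/
lemma isLocalRing_of_nonseparating (hG : (Nat.card G).Prime) (Q : Ideal C) [hQ : Q.IsMaximal]
    (hNU : ∀ z : C, ∃ g : G, g ≠ 1 ∧ z - g • z ∈ Q) :
    ∃ _ : IsLocalRing C, IsLocalRing.maximalIdeal C = Q := by
  have hint : Algebra.IsIntegral R C := inferInstance
  have huniq : ∀ M : Ideal C, M.IsMaximal → M = Q := by
    intro M hM
    have h1 : (M.under R).IsMaximal := Ideal.isMaximal_comap_of_isIntegral_of_isMaximal M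
    have h2 : (Q.under R).IsMaximal := Ideal.isMaximal_comap_of_isIntegral_of_isMaximal Q
    have h3 : Q.under R = M.under R := by
      rw [IsLocalRing.eq_maximalIdeal h1, IsLocalRing.eq_maximalIdeal h2]
    obtain ⟨g, hg⟩ := Algebra.IsInvariant.exists_smul_of_under_eq R C G Q M h3
    rw [hg, stable_of_nonseparating hG Q hNU g]
  have hloc : IsLocalRing C := IsLocalRing.of_unique_max_ideal ⟨Q, hQ, huniq⟩
  exact ⟨hloc, huniq _ inferInstance⟩

omit [Fintype G] in
variable (R) in
include R in
/-- If `C` is local then `C` is a discrete valuation ring. -/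
lemma isDVR_of_nonseparating [IsLocalRing C] : IsDiscreteValuationRing C := by
  have hint : Algebra.IsIntegral R C := inferInstance
  have hnf : ¬ IsField C := by
    intro h
    have := (Algebra.IsIntegral.isField_iff_isField (R := R) (S := C)
      (FaithfulSMul.algebraMap_injective R C)).2 h
    exact IsDiscreteValuationRing.not_isField R this
  exact ((IsDiscreteValuationRing.TFAE C hnf).out 2 0 rfl rfl).1 inferInstance

end structure_of_C

section monogenic

variable {G R C : Type*} [Group G] [Fintype G] [CommRing R] [IsDomain R]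
  [IsDiscreteValuationRing R] [CommRing C] [IsDomain C] [IsDiscreteValuationRing C] [Algebra R C]
  [Module.Finite R C] [FaithfulSMul R C] [IsLocalHom (algebraMap R C)]
  [MulSemiringAction G C] [IsGaloisGroup G R C]

attribute [local instance] Ideal.Quotient.field in
variable (G R C) in
/-- `e f = |G|` -/
theorem ef_eq : ∃ e : ℕ, Module.length C (C ⧸ (IsLocalRing.maximalIdeal R).map (algebraMap R C)) = e ∧
    e * Module.finrank (IsLocalRing.ResidueField R) (IsLocalRing.ResidueField C) = Nat.card G := by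
  have : Module.IsTorsionFree R C := inferInstance
  have hflat : Module.Flat R C := inferInstance
  have hfree : Module.Free R C := inferInstance
  set I := (IsLocalRing.maximalIdeal R).map (algebraMap R C) with hI
  have h1 := IsLocalRing.length_restrictScalars R C (C ⧸ I)
  have hfin : Module.Finite (R ⧸ IsLocalRing.maximalIdeal R) (C ⧸ I) :=
    Module.Finite.of_restrictScalars_finite R _ _
  have h2 : Module.length R (C ⧸ I) = (Nat.card G : ℕ∞) := by
    rw [Module.length_eq_of_surjective (S := R) (R := R ⧸ IsLocalRing.maximalIdeal R)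
      Ideal.Quotient.mk_surjective, Module.length_eq_finrank, IsLocalRing.finrank_quotient_map,
      IsGaloisGroup.card_eq_finrank' G R C]
  have h3 : Module.length (IsLocalRing.ResidueField R) (IsLocalRing.ResidueField C) =
      (Module.finrank (IsLocalRing.ResidueField R) (IsLocalRing.ResidueField C) : ℕ∞) :=
    Module.length_eq_finrank _ _
  rw [h2, h3] at h1
  have hf : Module.finrank (IsLocalRing.ResidueField R) (IsLocalRing.ResidueField C) ≠ 0 :=
    Module.finrank_pos.ne'
  have hne : Module.length C (C ⧸ I) ≠ ⊤ := by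
    intro h
    rw [h, ENat.top_mul (by exact_mod_cast hf)] at h1
    exact ENat.natCast_ne_top _ h1
  obtain ⟨e, he⟩ := ENat.ne_top_iff_exists.1 hne
  refine ⟨e, he.symm, ?_⟩
  rw [← he] at h1
  exact_mod_cast h1.symm

/-- Nakayama: a subalgebra `R[z]` with `R[z] + mC = C` is everything. -/
lemma surj_of_mod (z : C)
    (h : ∀ c : C, ∃ f : R[X], c - aeval z f ∈ (IsLocalRing.maximalIdeal R).map (algebraMap R C)) :
    ∀ c : C, ∃ f : R[X], aeval z f = c := by
  have h1 : (⊤ : Submodule R C) ≤ (aeval (R := R) z).range.toSubmodule := by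
    apply Submodule.le_of_le_smul_of_le_jacobson_bot (I := IsLocalRing.maximalIdeal R)
      (Module.finite_def.mp inferInstance)
    · exact (IsLocalRing.jacobson_eq_maximalIdeal ⊥ bot_ne_top).ge
    · rw [Ideal.smul_top_eq_map]
      intro c _
      obtain ⟨f, hf⟩ := h c
      rw [Submodule.mem_sup]
      exact ⟨aeval z f, ⟨f, rfl⟩, c - aeval z f, hf, by ring⟩
  intro c
  obtain ⟨f, hf⟩ := h1 (Submodule.mem_top (x := c))
  exact ⟨f, hf⟩

lemma residue_aeval (z : C) (f : R[X]) : IsLocalRing.residue C (aeval z f) =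
    aeval (IsLocalRing.residue C z) (f.map (IsLocalRing.residue R)) := by
  rw [aeval_def, Polynomial.hom_eval₂, aeval_def, Polynomial.eval₂_map]
  rfl

/-- residually generated: the unramified index case. -/
lemma exists_gen_residual
    (he : Module.length C (C ⧸ (IsLocalRing.maximalIdeal R).map (algebraMap R C)) = 1)
    (hf : (Module.finrank (IsLocalRing.ResidueField R) (IsLocalRing.ResidueField C)).Prime) :
    ∃ z : C, ∀ c : C, ∃ f : R[X], aeval z f = c := by
  have hm : (IsLocalRing.maximalIdeal R).map (algebraMap R C) = IsLocalRing.maximalIdeal C := by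
    rw [Module.length_eq_one_iff, isSimpleModule_iff_isCoatom, ← Ideal.isMaximal_def,
      IsLocalRing.isMaximal_iff] at he
    exact he
  have hsimple := IntermediateField.isSimpleOrder_of_finrank_prime
    (IsLocalRing.ResidueField R) (IsLocalRing.ResidueField C) hf
  obtain ⟨zb, hzb⟩ : ∃ zb : IsLocalRing.ResidueField C,
      IntermediateField.adjoin (IsLocalRing.ResidueField R) {zb} = ⊤ := by
    by_contra hcon
    push Not at hcon
    have hbot : ∀ zb : IsLocalRing.ResidueField C,
        zb ∈ (⊥ : IntermediateField (IsLocalRing.ResidueField R) (IsLocalRing.ResidueField C)) := by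
      intro zb
      rcases hsimple.eq_bot_or_eq_top
        (IntermediateField.adjoin (IsLocalRing.ResidueField R) {zb}) with h | h
      · rw [← h]; exact IntermediateField.mem_adjoin_simple_self _ _
      · exact absurd h (hcon zb)
    have h1 : (⊥ : IntermediateField (IsLocalRing.ResidueField R) (IsLocalRing.ResidueField C)) = ⊤ :=
      _root_.eq_top_iff.2 fun x _ => hbot x
    exact bot_ne_top h1
  obtain ⟨z, rfl⟩ := IsLocalRing.residue_surjective zb
  refine ⟨z, surj_of_mod z fun c => ?_⟩
  have hint : IsIntegral (IsLocalRing.ResidueField R) (IsLocalRing.residue C z) :=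
    Algebra.IsIntegral.isIntegral _
  have h2 := IntermediateField.adjoin_simple_toSubalgebra_of_isAlgebraic hint.isAlgebraic
  rw [hzb, IntermediateField.top_toSubalgebra] at h2
  have h3 : IsLocalRing.residue C c ∈
      Algebra.adjoin (IsLocalRing.ResidueField R) {IsLocalRing.residue C z} := by
    rw [← h2]; trivial
  rw [Algebra.adjoin_singleton_eq_range_aeval] at h3
  obtain ⟨fb, hfb⟩ := h3
  obtain ⟨f, rfl⟩ := Polynomial.map_surjective (IsLocalRing.residue R)
    IsLocalRing.residue_surjective fb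
  refine ⟨f, ?_⟩
  rw [hm, ← IsLocalRing.residue_eq_zero_iff, map_sub, residue_aeval, sub_eq_zero]
  exact hfb.symm

/-- totally ramified case: a uniformizer generates. -/
lemma gen_of_finrank_one
    (hf : Module.finrank (IsLocalRing.ResidueField R) (IsLocalRing.ResidueField C) = 1)
    {ϖ : C} (hϖ : Irreducible ϖ) : ∀ c : C, ∃ f : R[X], aeval ϖ f = c := by
  have hsurj : ∀ c : C, ∃ (r : R) (c' : C), c = algebraMap R C r + ϖ * c' := by
    intro c
    have h1 : (⊥ : Subalgebra (IsLocalRing.ResidueField R) (IsLocalRing.ResidueField C)) = ⊤ :=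
      Subalgebra.bot_eq_top_of_finrank_eq_one hf
    have h2 : IsLocalRing.residue C c ∈
        (⊥ : Subalgebra (IsLocalRing.ResidueField R) (IsLocalRing.ResidueField C)) := by
      rw [h1]; trivial
    obtain ⟨rb, hrb⟩ := Algebra.mem_bot.1 h2
    obtain ⟨r, rfl⟩ := IsLocalRing.residue_surjective rb
    have h3 : c - algebraMap R C r ∈ IsLocalRing.maximalIdeal C := by
      rw [← IsLocalRing.residue_eq_zero_iff, map_sub, sub_eq_zero, ← hrb]
      rfl
    rw [hϖ.maximalIdeal_eq, Ideal.mem_span_singleton] at h3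
    obtain ⟨c', hc'⟩ := h3
    exact ⟨r, c', by rw [← hc']; ring⟩
  have hpow : ∀ (n : ℕ) (c : C), ∃ (f : R[X]) (c' : C), c = aeval ϖ f + ϖ ^ n * c' := by
    intro n
    induction n with
    | zero => intro c; exact ⟨0, c, by simp⟩
    | succ n ih =>
      intro c
      obtain ⟨r, c₁, hc₁⟩ := hsurj c
      obtain ⟨f, c₂, hc₂⟩ := ih c₁
      refine ⟨Polynomial.C r + X * f, c₂, ?_⟩
      rw [map_add, aeval_C, map_mul, aeval_X, hc₁, hc₂]
      ring
  refine surj_of_mod ϖ fun c => ?_
  obtain ⟨π, hπ⟩ := IsDiscreteValuationRing.exists_irreducible R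
  have hπ0 : algebraMap R C π ≠ 0 := by
    rw [Ne, FaithfulSMul.algebraMap_eq_zero_iff]; exact hπ.ne_zero
  obtain ⟨n, u, hu⟩ := IsDiscreteValuationRing.eq_unit_mul_pow_irreducible hπ0 hϖ
  obtain ⟨f, c', hc'⟩ := hpow n c
  refine ⟨f, ?_⟩
  have h1 : c - aeval ϖ f = algebraMap R C π * ((↑u⁻¹ : C) * c') := by
    rw [hu, hc']
    have : (u : C) * ϖ ^ n * ((↑u⁻¹ : C) * c') = ((u : C) * (↑u⁻¹ : C)) * (ϖ ^ n * c') := by ring
    rw [this, Units.mul_inv]
    ring
  rw [h1]
  refine Ideal.mul_mem_right _ _ (Ideal.mem_map_of_mem _ ?_)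
  rw [hπ.maximalIdeal_eq]
  exact Ideal.mem_span_singleton_self _

omit [IsDiscreteValuationRing C] in
lemma ord_prod' {κ : Type*} (s : Finset κ) (a : κ → C) (ha : ∀ i ∈ s, a i ≠ 0) :
    Ring.ord C (∏ i ∈ s, a i) = ∑ i ∈ s, Ring.ord C (a i) := by
  classical
  induction s using Finset.induction_on with
  | empty => simp
  | insert i s hi ih =>
    rw [Finset.prod_insert hi, Finset.sum_insert hi, Ring.ord_mul, ih]
    · exact fun j hj => ha j (Finset.mem_insert_of_mem hj)
    · exact mem_nonZeroDivisors_of_ne_zero (Finset.prod_ne_zero_iff.2 fun j hj =>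
        ha j (Finset.mem_insert_of_mem hj))

/-- `ν_g w = g w - w` -/
def nu {G C : Type*} [Group G] [CommRing C] [MulSemiringAction G C] (g : G) (w : C) : C := g • w - w

lemma le_ord_of_dvd {ϖ : C} (hϖ : Irreducible ϖ) {n : ℕ} {x : C} (h : ϖ ^ n ∣ x) :
    (n : ℕ∞) ≤ Ring.ord C x := by
  refine le_trans ?_ (Ring.ord_le_ord_of_dvd h)
  rw [Ring.ord_pow (mem_nonZeroDivisors_of_ne_zero hϖ.ne_zero), Ring.ord_of_irreducible hϖ]
  simp

lemma smul_aeval (g : G) (z : C) (f : R[X]) : g • (aeval z f) = aeval (g • z) f := by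
  have hc : SMulCommClass G R C := IsGaloisGroup.commutes
  exact (Polynomial.aeval_smul f g z).symm

lemma length_omega_le (z : C) (hz : ∀ c : C, ∃ f : R[X], aeval z f = c) :
    Module.length C Ω[C⁄R] ≤ Ring.ord C (diffProd G z) := by
  have hinv : Algebra.IsInvariant R C G := IsGaloisGroup.isInvariant
  obtain ⟨h, h0, h1⟩ := exists_charpoly R (G := G) z
  have h2 : diffProd G z • D R C z = 0 := by
    have : D R C (aeval z h) = aeval z (derivative h) • D R C z := Derivation.map_aeval _ _ _
    rw [h0, h1, map_zero] at this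
    exact this.symm
  let f : (C ⧸ Ideal.span {diffProd G z}) →ₗ[C] Ω[C⁄R] :=
    Submodule.liftQ (Ideal.span {diffProd G z}) (LinearMap.toSpanSingleton C _ (D R C z)) (by
      rw [Ideal.span, Submodule.span_le]
      rintro _ rfl
      rw [SetLike.mem_coe, LinearMap.mem_ker, LinearMap.toSpanSingleton_apply, h2])
  have hf : Function.Surjective f := by
    rw [← LinearMap.range_eq_top, _root_.eq_top_iff, ← KaehlerDifferential.span_range_derivation,
      Submodule.span_le]
    rintro _ ⟨c, rfl⟩
    obtain ⟨q, rfl⟩ := hz c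
    refine ⟨Submodule.Quotient.mk (aeval z (derivative q)), ?_⟩
    simp only [f, Submodule.liftQ_apply, LinearMap.toSpanSingleton_apply]
    exact (Derivation.map_aeval _ _ _).symm
  exact Module.length_le_of_surjective f hf

section chain

variable (z : C) (hz : ∀ c : C, ∃ f : R[X], aeval z f = c)

include hz in
lemma mem_inertia_of_gen {I : Ideal C} {g : G} (h : g • z - z ∈ I) : g ∈ I.inertia G := by
  change ∀ x : C, g • x - x ∈ I
  intro x
  obtain ⟨f, rfl⟩ := hz x
  rw [smul_aeval]
  have : g • z - z ∣ aeval (g • z) f - aeval z f := by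
    rw [aeval_def, aeval_def, ← eval_map, ← eval_map]
    exact Polynomial.sub_dvd_eval_sub _ _ _
  exact I.mem_of_dvd this h

include hz in
lemma sub_ne_zero_of_gen {g : G} (hg : g ≠ 1) : g • z - z ≠ 0 := by
  intro h
  apply hg
  have h1 : g ∈ (⊥ : Ideal C).inertia G := mem_inertia_of_gen z hz (by rw [h]; exact Ideal.zero_mem _)
  have hfaith : FaithfulSMul G C := IsGaloisGroup.faithful R
  apply hfaith.eq_of_smul_eq_smul
  intro c
  have h2 : g • c - c ∈ (⊥ : Ideal C) := h1 c
  rw [one_smul]
  exact sub_eq_zero.1 (by simpa using h2)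

include hz in
lemma ord_diffProd_le (hG : (Nat.card G).Prime) {ϖ : C} (hϖ : Irreducible ϖ) {g₀ : G}
    {i : ℕ} {u : Cˣ} (hi : g₀ • z - z = u * ϖ ^ i) :
    Ring.ord C (diffProd G z) ≤ (((Nat.card G - 1) * i : ℕ) : ℕ∞) := by
  classical
  have : Fact (Nat.card G).Prime := ⟨hG⟩
  have hne : ∀ g : G, g ≠ 1 → z - g • z ≠ 0 := by
    intro g hg h
    exact sub_ne_zero_of_gen z hz hg (by rw [← neg_sub, h, neg_zero])
  have hle : ∀ g : G, g ≠ 1 → Ring.ord C (z - g • z) ≤ i := by
    intro g hg
    obtain ⟨m, v, hv⟩ := IsDiscreteValuationRing.eq_unit_mul_pow_irreducible (hne g hg) hϖ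
    have hmem : g • z - z ∈ Ideal.span {ϖ ^ m} := by
      rw [Ideal.mem_span_singleton]
      exact ⟨-v, by rw [← neg_sub, hv]; ring⟩
    have h1 : g ∈ (Ideal.span {ϖ ^ m}).inertia G := mem_inertia_of_gen z hz hmem
    have h2 : g₀ ∈ Subgroup.zpowers g := mem_zpowers_of_prime_card (p := Nat.card G) rfl hg
    have h3 : g₀ ∈ (Ideal.span {ϖ ^ m}).inertia G := by
      rw [← Subgroup.zpowers_le] at h1
      exact h1 h2
    have h4 : g₀ • z - z ∈ Ideal.span {ϖ ^ m} := h3 z
    rw [hi, Ideal.mem_span_singleton, Units.dvd_mul_left,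
      pow_dvd_pow_iff hϖ.ne_zero hϖ.not_isUnit] at h4
    rw [hv, Ring.ord_mul_of_isUnit_left v.isUnit,
      Ring.ord_pow (mem_nonZeroDivisors_of_ne_zero hϖ.ne_zero), Ring.ord_of_irreducible hϖ]
    simpa using h4
  rw [diffProd]
  have h5 : Ring.ord C (∏ g ∈ Finset.univ.erase (1 : G), (z - g • z)) =
      ∑ g ∈ Finset.univ.erase (1 : G), Ring.ord C (z - g • z) :=
    ord_prod' _ _ fun g hg => hne g (Finset.ne_of_mem_erase hg)
  rw [h5]
  calc ∑ g ∈ Finset.univ.erase (1 : G), Ring.ord C (z - g • z)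
      ≤ ∑ g ∈ Finset.univ.erase (1 : G), (i : ℕ∞) :=
        Finset.sum_le_sum fun g hg => hle g (Finset.ne_of_mem_erase hg)
    _ = (((Nat.card G - 1) * i : ℕ) : ℕ∞) := by
        rw [Finset.sum_const, Finset.card_erase_of_mem (Finset.mem_univ _), Finset.card_univ,
          Nat.card_eq_fintype_card, nsmul_eq_mul]
        push_cast
        rfl

/-- iterating the chain property -/
lemma iterate_chain {ϖ : C} {g₀ : G} {δ : ℕ}
    (hP : ∀ (a : ℕ) (x : C), ϖ ^ a ∣ x → ϖ ^ (a + δ) ∣ g₀ • x - x) (w : C) (k : ℕ) :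
    ϖ ^ (k * δ) ∣ (nu g₀)^[k] w := by
  induction k with
  | zero => simp
  | succ k ih =>
    rw [Function.iterate_succ_apply', Nat.succ_mul]
    exact hP _ _ ih

/-- The main statement about the wildly ramified or residually inseparable case. -/
theorem nu_main (hG : (Nat.card G).Prime) {g₀ : G} (hg₀ : g₀ ≠ 1)
    (hinert : ∀ z : C, g₀ • z - z ∈ IsLocalRing.maximalIdeal C) :
    ∃ δ e : ℕ,
      Module.length C (C ⧸ (IsLocalRing.maximalIdeal R).map (algebraMap R C)) = e ∧
      Module.length C Ω[C⁄R] + 1 ≤ (((Nat.card G - 1) * δ + e : ℕ) : ℕ∞) ∧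
      ∀ (w : C) (k : ℕ), ((k * δ : ℕ) : ℕ∞) ≤ Ring.ord C ((nu g₀)^[k] w) := by
  obtain ⟨e, he, hef⟩ := ef_eq G R C
  set f := Module.finrank (IsLocalRing.ResidueField R) (IsLocalRing.ResidueField C) with hf
  have hcase : (e = 1 ∧ f = Nat.card G) ∨ (e = Nat.card G ∧ f = 1) := by
    rcases (Nat.dvd_prime hG).1 (Dvd.intro f hef) with h | h
    · left
      refine ⟨h, ?_⟩
      rw [h, one_mul] at hef
      exact hef
    · right
      refine ⟨h, ?_⟩
      rw [h] at hef
      exact Nat.eq_of_mul_eq_mul_left hG.pos (by rw [hef, mul_one])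
  rcases hcase with ⟨he1, hf1⟩ | ⟨he1, hf1⟩
  · -- residual case
    rw [he1, Nat.cast_one] at he
    obtain ⟨z, hz⟩ := exists_gen_residual (R := R) (C := C) he (by rw [← hf, hf1]; exact hG)
    have hm : (IsLocalRing.maximalIdeal R).map (algebraMap R C) = IsLocalRing.maximalIdeal C := by
      have he' := he
      rw [Module.length_eq_one_iff, isSimpleModule_iff_isCoatom, ← Ideal.isMaximal_def,
        IsLocalRing.isMaximal_iff] at he'
      exact he'
    obtain ⟨π, hπ⟩ := IsDiscreteValuationRing.exists_irreducible R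
    have hϖ : Irreducible (algebraMap R C π) := by
      rw [IsDiscreteValuationRing.irreducible_iff_uniformizer, ← hm, hπ.maximalIdeal_eq,
        Ideal.map_span, Set.image_singleton]
    obtain ⟨i, u, hi⟩ := IsDiscreteValuationRing.eq_unit_mul_pow_irreducible
      (sub_ne_zero_of_gen z hz hg₀) hϖ
    have hord := ord_diffProd_le z hz hG hϖ hi
    have hinI : ∀ x : C, (algebraMap R C π) ^ i ∣ g₀ • x - x := by
      intro x
      have h0 : g₀ • z - z ∈ Ideal.span {(algebraMap R C π) ^ i} := by
        rw [hi]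
        exact Ideal.mul_mem_left _ _ (Ideal.mem_span_singleton_self _)
      have h1 : g₀ ∈ (Ideal.span {(algebraMap R C π) ^ i}).inertia G :=
        mem_inertia_of_gen z hz h0
      have h2 : g₀ • x - x ∈ Ideal.span {(algebraMap R C π) ^ i} := h1 x
      exact Ideal.mem_span_singleton.1 h2
    have hP : ∀ (a : ℕ) (x : C), (algebraMap R C π) ^ a ∣ x →
        (algebraMap R C π) ^ (a + i) ∣ g₀ • x - x := by
      rintro a _ ⟨y, rfl⟩
      have hcomm : SMulCommClass G R C := IsGaloisGroup.commutes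
      rw [smul_mul', smul_pow', smul_algebraMap, ← mul_sub, pow_add]
      exact mul_dvd_mul_left _ (hinI y)
    refine ⟨i, e, by rw [he1, Nat.cast_one]; exact he, ?_, fun w k => ?_⟩
    · have := (length_omega_le (G := G) (R := R) z hz).trans hord
      rw [he1]
      push_cast at this ⊢
      gcongr
    · exact le_ord_of_dvd hϖ (iterate_chain hP w k)
  · -- totally ramified case
    obtain ⟨ϖ, hϖ⟩ := IsDiscreteValuationRing.exists_irreducible C
    have hz := gen_of_finrank_one (R := R) hf1 hϖ
    obtain ⟨i, u, hi⟩ := IsDiscreteValuationRing.eq_unit_mul_pow_irreducible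
      (sub_ne_zero_of_gen ϖ hz hg₀) hϖ
    have hord := ord_diffProd_le ϖ hz hG hϖ hi
    have hi1 : 1 ≤ i := by
      by_contra h
      have h0 : i = 0 := by omega
      have h1 := hinert ϖ
      rw [hi, h0, pow_zero, mul_one] at h1
      exact (IsLocalRing.mem_maximalIdeal _).1 h1 u.isUnit
    obtain ⟨δ, rfl⟩ : ∃ δ, i = δ + 1 := ⟨i - 1, by omega⟩
    have hinI : ∀ x : C, ϖ ^ (δ + 1) ∣ g₀ • x - x := by
      intro x
      have h0 : g₀ • ϖ - ϖ ∈ Ideal.span {ϖ ^ (δ + 1)} := by
        rw [hi]
        exact Ideal.mul_mem_left _ _ (Ideal.mem_span_singleton_self _)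
      have h1 : g₀ ∈ (Ideal.span {ϖ ^ (δ + 1)}).inertia G :=
        mem_inertia_of_gen ϖ hz h0
      have h2 : g₀ • x - x ∈ Ideal.span {ϖ ^ (δ + 1)} := h1 x
      exact Ideal.mem_span_singleton.1 h2
    have hgϖ : g₀ • ϖ = ϖ * (1 + u * ϖ ^ δ) := by
      have : g₀ • ϖ = ϖ + (g₀ • ϖ - ϖ) := by ring
      rw [this, hi]; ring
    have hP : ∀ (a : ℕ) (x : C), ϖ ^ a ∣ x → ϖ ^ (a + δ) ∣ g₀ • x - x := by
      rintro a _ ⟨y, rfl⟩
      have h1 : g₀ • (ϖ ^ a * y) - ϖ ^ a * y =
          ϖ ^ a * (((1 + u * ϖ ^ δ) ^ a - 1) * g₀ • y + (g₀ • y - y)) := by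
        rw [smul_mul', smul_pow', hgϖ, mul_pow]; ring
      rw [h1, pow_add]
      refine mul_dvd_mul_left _ (dvd_add (Dvd.dvd.mul_right ?_ _) ?_)
      · have h2 : (1 + (u : C) * ϖ ^ δ) - 1 ∣ (1 + (u : C) * ϖ ^ δ) ^ a - 1 ^ a :=
          sub_dvd_pow_sub_pow _ _ _
        rw [one_pow] at h2
        refine dvd_trans ?_ h2
        rw [add_sub_cancel_left]
        exact Dvd.intro_left _ rfl
      · exact dvd_trans (pow_dvd_pow _ (Nat.le_succ δ)) (hinI y)
    refine ⟨δ, e, he, ?_, fun w k => ?_⟩
    · have h1 := (length_omega_le (G := G) (R := R) ϖ hz).trans hord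
      have h2 : (Nat.card G - 1) * (δ + 1) + 1 = (Nat.card G - 1) * δ + e := by
        rw [he1]
        have := hG.pos
        have h3 : Nat.card G - 1 + 1 = Nat.card G := Nat.sub_add_cancel this
        calc (Nat.card G - 1) * (δ + 1) + 1 = (Nat.card G - 1) * δ + (Nat.card G - 1 + 1) := by ring
          _ = _ := by rw [h3]
      rw [← h2]
      push_cast at h1 ⊢
      gcongr
    · exact le_ord_of_dvd hϖ (iterate_chain hP w k)

end chain

end monogenic

end Pool.Agent.Lib.MP_18dec4_ag
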