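import Pool.Agent.Lib.MP_18dec4_ag.Rep
import Pool.Agent.Lib.MP_18dec4_ag.GaloisNU

/-!
The action of the cyclic group of order `p` on the polynomial ring.
-/

namespace Pool.Agent.Lib.MP_18dec4_ag

open MvPolynomial

variable (p : ℕ) [Fact p.Prime]

/-- the polynomial ring `ℤ_p[x_0, ..., x_{p-2}, y_0, ..., y_{p-2}]` -/
abbrev Sp := MvPolynomial (Var p) ℤ_[p]

variable {p}

/-- linear substitutions -/
noncomputable def substHom (M : Matrix (Var p) (Var p) ℤ) : Sp p →ₐ[ℤ_[p]] Sp p :=
  aeval fun v => ∑ w, ((M v w : ℤ) : Sp p) * X w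

lemma substHom_X (M : Matrix (Var p) (Var p) ℤ) (v : Var p) :
    substHom M (X v) = ∑ w, ((M v w : ℤ) : Sp p) * X w := by
  rw [substHom, aeval_X]

lemma substHom_comp (M N : Matrix (Var p) (Var p) ℤ) :
    (substHom M).comp (substHom N) = substHom (N * M) := by
  apply MvPolynomial.algHom_ext
  intro v
  rw [AlgHom.comp_apply, substHom_X, substHom_X, map_sum]
  simp only [map_mul, map_intCast, substHom_X, Finset.mul_sum]
  rw [Finset.sum_comm]
  refine Finset.sum_congr rfl fun u _ => ?_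
  rw [Matrix.mul_apply]
  push_cast
  rw [Finset.sum_mul]
  refine Finset.sum_congr rfl fun w _ => ?_
  ring

lemma substHom_one : substHom (1 : Matrix (Var p) (Var p) ℤ) = AlgHom.id ℤ_[p] (Sp p) := by
  apply MvPolynomial.algHom_ext
  intro v
  rw [substHom_X, AlgHom.id_apply, Finset.sum_eq_single v]
  · simp
  · intro w _ hw
    rw [Matrix.one_apply_ne hw.symm]
    simp
  · intro h; exact absurd (Finset.mem_univ _) h

variable (p)

lemma two_le_p : 2 ≤ p := (Fact.out : p.Prime).two_le

/-- the automorphism `σ` -/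
noncomputable def sigAut : Sp p ≃ₐ[ℤ_[p]] Sp p :=
  AlgEquiv.ofAlgHom (substHom (sigMat p)) (substHom (sigMat p ^ (p - 1)))
    (by
      rw [substHom_comp, ← pow_succ, Nat.sub_add_cancel (by have := two_le_p p; omega),
        sigMat_pow (two_le_p p), substHom_one])
    (by
      rw [substHom_comp, ← pow_succ', Nat.sub_add_cancel (by have := two_le_p p; omega),
        sigMat_pow (two_le_p p), substHom_one])

lemma sigAut_apply (f : Sp p) : sigAut p f = substHom (sigMat p) f := rfl

lemma sigAut_pow_apply (k : ℕ) (f : Sp p) : (sigAut p ^ k) f = substHom (sigMat p ^ k) f := by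
  induction k generalizing f with
  | zero => rw [pow_zero, pow_zero, substHom_one]; rfl
  | succ k ih =>
    rw [pow_succ, AlgEquiv.mul_apply, ih, sigAut_apply, ← AlgHom.comp_apply, substHom_comp,
      ← pow_succ']

lemma sigAut_pow : sigAut p ^ p = 1 := by
  ext f : 1
  rw [sigAut_pow_apply, sigMat_pow (two_le_p p), substHom_one]
  rfl

/-- `σ x_i = x_i + x_{i+1}` -/
lemma sigAut_X_lt (b : Bool) (i : Fin (p - 1)) (h : (i : ℕ) + 1 < p - 1) :
    sigAut p (X (b, i)) = X (b, i) + X (b, ⟨i + 1, h⟩) := by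
  rw [sigAut_apply, substHom_X]
  simp only [sigMat, Matrix.add_apply, Int.cast_add, add_mul, Finset.sum_add_distrib]
  congr 1
  · rw [Finset.sum_eq_single (b, i)]
    · simp
    · intro w _ hw
      rw [Matrix.one_apply_ne hw.symm]; simp
    · intro h; exact absurd (Finset.mem_univ _) h
  · rw [Finset.sum_eq_single (b, ⟨(i : ℕ) + 1, h⟩)]
    · simp [nuMat, h]
    · rintro ⟨b', j⟩ _ hne
      simp only [nuMat]
      by_cases hb : b = b'
      · subst hb
        have hj : (j : ℕ) ≠ i + 1 := by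
          intro hj
          apply hne
          rw [Prod.mk.injEq]
          exact ⟨rfl, Fin.ext hj⟩
        rw [if_pos rfl, if_pos h, if_neg hj, Int.cast_zero, zero_mul]
      · rw [if_neg hb, Int.cast_zero, zero_mul]
    · intro h'; exact absurd (Finset.mem_univ _) h'

/-- `σ x_{p-2} = x_{p-2} - ∑ C(p, k+1) x_k` -/
lemma sigAut_X_last (b : Bool) (i : Fin (p - 1)) (h : ¬ (i : ℕ) + 1 < p - 1) :
    sigAut p (X (b, i)) = X (b, i) - ∑ k : Fin (p - 1), (p.choose (k + 1) : Sp p) * X (b, k) := by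
  rw [sigAut_apply, substHom_X]
  simp only [sigMat, Matrix.add_apply, Int.cast_add, add_mul, Finset.sum_add_distrib]
  rw [sub_eq_add_neg]
  congr 1
  · rw [Finset.sum_eq_single (b, i)]
    · simp
    · intro w _ hw
      rw [Matrix.one_apply_ne hw.symm]; simp
    · intro h; exact absurd (Finset.mem_univ _) h
  · rw [Fintype.sum_prod_type, Finset.sum_eq_single b]
    · rw [← Finset.sum_neg_distrib]
      refine Finset.sum_congr rfl fun k _ => ?_
      simp only [nuMat]
      rw [if_pos trivial, if_neg h]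
      push_cast
      ring
    · intro b' _ hne
      refine Finset.sum_eq_zero fun k _ => ?_
      simp only [nuMat]
      rw [if_neg (Ne.symm hne), Int.cast_zero, zero_mul]
    · intro h'; exact absurd (Finset.mem_univ _) h'

/-- the group generated by `σ` -/
noncomputable abbrev Gp : Subgroup (Sp p ≃ₐ[ℤ_[p]] Sp p) := Subgroup.zpowers (sigAut p)

/-- the generator -/
noncomputable def g₀ : Gp p := ⟨sigAut p, Subgroup.mem_zpowers _⟩

lemma g₀_smul (f : Sp p) : g₀ p • f = sigAut p f := rfl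

lemma sigAut_ne_one (hp : 2 < p) : sigAut p ≠ 1 := by
  intro h
  have h0 : (0 : ℕ) < p - 1 := by omega
  have h1 : ((⟨0, h0⟩ : Fin (p - 1)) : ℕ) + 1 < p - 1 := by simp; omega
  have h2 := sigAut_X_lt p true ⟨0, h0⟩ h1
  rw [h, AlgEquiv.one_apply, left_eq_add] at h2
  exact X_ne_zero _ h2

lemma orderOf_sigAut (hp : 2 < p) : orderOf (sigAut p) = p :=
  orderOf_eq_prime (sigAut_pow p) (sigAut_ne_one p hp)

lemma card_Gp (hp : 2 < p) : Nat.card (Gp p) = p := by
  rw [Nat.card_zpowers, orderOf_sigAut p hp]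

lemma g₀_ne_one (hp : 2 < p) : g₀ p ≠ 1 := by
  intro h
  exact sigAut_ne_one p hp (congrArg Subtype.val h)

lemma finite_Gp (hp : 2 < p) : Finite (Gp p) := by
  have := card_Gp p hp
  exact Nat.finite_of_card_ne_zero (by omega)

/-- `ν^i x_0 = x_i` -/
lemma nu_iterate_X (b : Bool) (h0 : 0 < p - 1) (i : Fin (p - 1)) :
    (nu (g₀ p))^[(i : ℕ)] (X (b, ⟨0, h0⟩) : Sp p) = X (b, i) := by
  obtain ⟨i, hi⟩ := i
  induction i with
  | zero => rfl
  | succ i ih =>
    have hi' : i < p - 1 := by omega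
    simp only [Function.iterate_succ_apply'] at ih ⊢
    rw [ih hi', nu, g₀_smul, sigAut_X_lt p b ⟨i, hi'⟩ hi]
    ring

/-- the ring of invariants -/
noncomputable abbrev Ap : Subalgebra ℤ_[p] (Sp p) := FixedPoints.subalgebra ℤ_[p] (Sp p) (Gp p)

instance isGaloisGroup_Gp : IsGaloisGroup (Gp p) (Ap p) (Sp p) where
  faithful := inferInstance
  commutes := inferInstance
  isInvariant := ⟨fun x h => ⟨⟨x, h⟩, rfl⟩⟩

end Pool.Agent.Lib.MP_18dec4_ag
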