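import Pool.Agent.Lib.MP_18dec4_ag.Hurwitz

/-!
The lower bound for the canonical order downstairs.
-/

set_option linter.unusedSectionVars false

namespace Pool.Agent.Lib.MP_18dec4_ag

open KaehlerDifferential Algebra TensorProduct

/-- `IsCanOrd O R K β n`: the canonical form `β_1 ∧ ... ∧ β_d` has order `n` along `R`. -/
def IsCanOrd (O R K : Type*) [CommRing O] [CommRing R] [IsDomain R] [IsDiscreteValuationRing R]
    [Field K] [Algebra O R] [Algebra R K] [Algebra O K] [IsFractionRing R K] {d : ℕ}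
    (β : Module.Basis (Fin d) K (Ω[K⁄O])) (n : ℤ) : Prop :=
  (∃ r : Fin d → R, β.det (fun i => D O K (algebraMap R K (r i))) ≠ 0) ∧
  ∀ r : Fin d → R, β.det (fun i => D O K (algebraMap R K (r i))) ≠ 0 →
    ∃ l : ℕ, Module.length R (Ω[R⁄O] ⧸ Submodule.span R (Set.range fun i => D O R (r i))) = l ∧
      (l : ℤ) = n + ordZ R (β.det fun i => D O K (algebraMap R K (r i)))

section

variable {O R K : Type*} [CommRing O] [CommRing R] [IsDomain R] [IsDiscreteValuationRing R]
  [Field K] [Algebra O R] [Algebra R K] [Algebra O K] [IsScalarTower O R K] [IsFractionRing R K]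
  [EssFiniteType O R]
  {d : ℕ} (β : Module.Basis (Fin d) K (Ω[K⁄O]))

/-- independence of the choice of differentials. -/
theorem canOrd_indep (a b : Fin d → R) (ha : β.det (fun i => D O K (algebraMap R K (a i))) ≠ 0)
    (hb : β.det (fun i => D O K (algebraMap R K (b i))) ≠ 0) :
    ∃ la lb : ℕ,
      Module.length R (Ω[R⁄O] ⧸ Submodule.span R (Set.range fun i => D O R (a i))) = la ∧
      Module.length R (Ω[R⁄O] ⧸ Submodule.span R (Set.range fun i => D O R (b i))) = lb ∧
      (la : ℤ) - ordZ R (β.det (fun i => D O K (algebraMap R K (a i)))) =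
        lb - ordZ R (β.det (fun i => D O K (algebraMap R K (b i)))) := by
  have h := canonical_indep (KaehlerDifferential.map O O R K) β (fun i => D O R (a i))
    (fun i => D O R (b i)) (by simpa only [KaehlerDifferential.map_D] using ha)
    (by simpa only [KaehlerDifferential.map_D] using hb)
  simpa only [KaehlerDifferential.map_D] using h

theorem isCanOrd_of (a : Fin d → R) (ha : β.det (fun i => D O K (algebraMap R K (a i))) ≠ 0)
    {l : ℕ}
    (hl : Module.length R (Ω[R⁄O] ⧸ Submodule.span R (Set.range fun i => D O R (a i))) = l) :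
    IsCanOrd O R K β ((l : ℤ) - ordZ R (β.det (fun i => D O K (algebraMap R K (a i))))) := by
  refine ⟨⟨a, ha⟩, fun b hb => ?_⟩
  obtain ⟨la, lb, hla, hlb, h⟩ := canOrd_indep β a b ha hb
  refine ⟨lb, hlb, ?_⟩
  have : la = l := by
    rw [hla] at hl
    exact_mod_cast hl
  subst this
  linarith

end

section

variable {p : ℕ} [Fact p.Prime] {R : Type*} [CommRing R] [IsDomain R]
  [IsDiscreteValuationRing R] [Algebra ℤ_[p] R] [EssFiniteType ℤ_[p] R]
  {K : Type*} [Field K] [CharZero K] [Algebra R K]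
  [Algebra ℤ_[p] K] [IsScalarTower ℤ_[p] R K] [IsFractionRing R K]
  {d : ℕ} (β : Module.Basis (Fin d) K (Ω[K⁄ℤ_[p]]))

include K in
theorem p_ne_zero : (p : R) ≠ 0 := by
  intro h
  have h1 : algebraMap R K p = 0 := by rw [h, map_zero]
  rw [map_natCast] at h1
  exact (Fact.out : p.Prime).ne_zero (by exact_mod_cast h1)

/-- The logarithmic bound for the canonical order. -/
theorem log_len_bound (x : Fin d → R) (hx : ∀ i, x i ≠ 0)
    (hdet : β.det (fun i => D ℤ_[p] K (algebraMap R K (x i))) ≠ 0) :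
    Ring.ord R (p : R) + ∑ i, Ring.ord R (x i) ≤
      Module.length R (Ω[R⁄ℤ_[p]] ⧸ Submodule.span R (Set.range fun i => D ℤ_[p] R (x i))) + 1 := by
  have hp0 : (p : R) ≠ 0 := p_ne_zero (K := K)
  obtain ⟨ϖ, hϖ⟩ := IsDiscreteValuationRing.exists_irreducible R
  have hx' : ∀ i, ∃ (n : ℕ) (u : Rˣ), x i = u * ϖ ^ n := fun i =>
    IsDiscreteValuationRing.eq_unit_mul_pow_irreducible (hx i) hϖ
  choose n u hu using hx'
  -- the surjection
  obtain ⟨Ψ, hΨ, hw⟩ : ∃ Ψ : (Ω[R⁄ℤ_[p]] × R) →ₗ[R] (Fin (d + 1) → R ⧸ Ideal.span {(p : R)}),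
      Function.Surjective Ψ ∧ Ψ (KaehlerDifferential.D ℤ_[p] R ϖ, -ϖ) = 0 := by
    by_cases hp : (p : R) ∈ IsLocalRing.maximalIdeal R
    · exact logSurj_of_dvr K hp hp0 hϖ (by rw [Module.finrank_eq_card_basis β, Fintype.card_fin])
    · have hunit : IsUnit (p : R) := by
        by_contra h
        exact hp h
      have htop : Ideal.span {(p : R)} = ⊤ := Ideal.span_singleton_eq_top.2 hunit
      have : Subsingleton (R ⧸ Ideal.span {(p : R)}) := Ideal.Quotient.subsingleton_iff.2 htop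
      exact ⟨0, fun y => ⟨0, Subsingleton.elim _ _⟩, Subsingleton.elim _ _⟩
  refine log_bound (KaehlerDifferential.map ℤ_[p] ℤ_[p] R K) β hϖ
    (KaehlerDifferential.D ℤ_[p] R ϖ) (fun i => D ℤ_[p] R (x i)) x hx
    (fun i => ((↑(u i)⁻¹ : R) • D ℤ_[p] R (u i : R), (n i : R)))
    (fun i => - ((n i : R) * u i * ϖ ^ (n i - 1))) ?_ ?_ hp0 Ψ hΨ hw
  · intro i
    have h1 : D ℤ_[p] R (x i) = (ϖ ^ n i) • D ℤ_[p] R (u i : R) +
        ((n i : R) * u i * ϖ ^ (n i - 1)) • D ℤ_[p] R ϖ := by
      rw [hu i, Derivation.leibniz, Derivation.leibniz_pow]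
      rw [add_comm]
      congr 1
      rw [← Nat.cast_smul_eq_nsmul R, smul_smul, smul_smul]
      congr 1
      ring
    ext
    · simp only [Prod.smul_fst, Prod.fst_add]
      rw [h1, smul_smul]
      have h2 : x i * (↑(u i)⁻¹ : R) = ϖ ^ n i := by
        rw [hu i, mul_comm, ← mul_assoc, Units.inv_mul, one_mul]
      rw [h2, neg_smul]
      abel
    · simp only [Prod.smul_snd, Prod.snd_add, smul_eq_mul, zero_add]
      rw [hu i]
      rcases Nat.eq_zero_or_pos (n i) with h0 | h0
      · rw [h0]; simp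
      · obtain ⟨m, hm⟩ := Nat.exists_eq_succ_of_ne_zero h0.ne'
        rw [hm, Nat.succ_sub_one, pow_succ]
        ring
  · simpa only [KaehlerDifferential.map_D] using hdet

end

section basechange

variable {R R' : Type*} [CommRing R] [IsDomain R] [IsDiscreteValuationRing R]
  [CommRing R'] [IsDomain R'] [IsDiscreteValuationRing R'] [Algebra R R']
  [IsLocalHom (algebraMap R R')] [FaithfulSMul R R']

/-- the ramification index as a length. -/
lemma ord_baseChange (r : R) : Ring.ord R' (algebraMap R R' r) =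
    Ring.ord R r * Module.length R' (R' ⧸ (IsLocalRing.maximalIdeal R).map (algebraMap R R')) := by
  have : Module.IsTorsionFree R R' := inferInstance
  have hflat : Module.Flat R R' := inferInstance
  have h1 := IsLocalRing.length_baseChange R R' (R ⧸ Ideal.span {r})
  rw [← (Algebra.TensorProduct.quotIdealMapEquivTensorQuot R'
    (Ideal.span {r})).toLinearEquiv.length_eq, Ideal.map_span, Set.image_singleton] at h1
  exact h1

lemma ordZ_baseChange {K L : Type*} [Field K] [Field L] [Algebra R K] [IsFractionRing R K]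
    [Algebra R' L] [IsFractionRing R' L] [Algebra K L] [Algebra R L] [IsScalarTower R K L]
    [IsScalarTower R R' L] {e : ℕ}
    (he : Module.length R' (R' ⧸ (IsLocalRing.maximalIdeal R).map (algebraMap R R')) = e)
    {y : K} (hy : y ≠ 0) : ordZ R' (algebraMap K L y) = e * ordZ R y := by
  have hR : ∀ r : R, r ≠ 0 →
      ordZ R' (algebraMap K L (algebraMap R K r)) = e * ordZ R (algebraMap R K r) := by
    intro r hr
    have hr' : algebraMap R R' r ≠ 0 := by
      rwa [Ne, FaithfulSMul.algebraMap_eq_zero_iff]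
    obtain ⟨n, hn, hn'⟩ := exists_ord_eq R hr
    have h1 := ord_baseChange (R' := R') r
    rw [hn, he] at h1
    rw [hn' K, ← IsScalarTower.algebraMap_apply, IsScalarTower.algebraMap_apply R R' L,
      ordZ_algebraMap R' hr' (n := n * e) (by rw [h1]; push_cast; rfl)]
    push_cast
    ring
  obtain ⟨a, b, hb, rfl⟩ := IsFractionRing.div_surjective (A := R) y
  have hb0 : b ≠ 0 := nonZeroDivisors.ne_zero hb
  have ha0 : a ≠ 0 := by
    rintro rfl
    apply hy; simp
  have ha1 : algebraMap R K a ≠ 0 := by rwa [Ne, IsFractionRing.to_map_eq_zero_iff]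
  have hb1 : algebraMap R K b ≠ 0 := by rwa [Ne, IsFractionRing.to_map_eq_zero_iff]
  rw [map_div₀, ordZ_div R' (by rwa [Ne, FaithfulSMul.algebraMap_eq_zero_iff])
    (by rwa [Ne, FaithfulSMul.algebraMap_eq_zero_iff]), hR a ha0, hR b hb0, ordZ_div R ha1 hb1]
  ring

end basechange

section main

variable {p : ℕ} [Fact p.Prime] {R R' : Type*} [CommRing R] [IsDomain R]
  [IsDiscreteValuationRing R] [CommRing R'] [IsDomain R'] [IsDiscreteValuationRing R']
  [Algebra R R'] [IsLocalHom (algebraMap R R')] [FaithfulSMul R R']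
  [Algebra ℤ_[p] R] [EssFiniteType ℤ_[p] R] [Algebra ℤ_[p] R'] [EssFiniteType ℤ_[p] R']
  [IsScalarTower ℤ_[p] R R']
  {K L : Type*} [Field K] [CharZero K] [Algebra R K] [Field L] [CharZero L] [Algebra R' L]
  [Algebra ℤ_[p] K] [IsScalarTower ℤ_[p] R K] [IsFractionRing R K]
  [Algebra ℤ_[p] L] [IsScalarTower ℤ_[p] R' L] [IsFractionRing R' L]
  [Algebra K L] [Algebra R L] [IsScalarTower R K L] [IsScalarTower R R' L]
  [IsScalarTower ℤ_[p] K L]
  {d : ℕ} (β : Module.Basis (Fin d) K (Ω[K⁄ℤ_[p]])) (β' : Module.Basis (Fin d) L (Ω[L⁄ℤ_[p]]))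

lemma det_compat (hβ : ∀ i, KaehlerDifferential.map ℤ_[p] ℤ_[p] K L (β i) = β' i)
    (v : Fin d → Ω[K⁄ℤ_[p]]) :
    β'.det (fun i => KaehlerDifferential.map ℤ_[p] ℤ_[p] K L (v i)) =
      algebraMap K L (β.det v) := by
  rw [Module.Basis.det_apply, Module.Basis.det_apply, RingHom.map_det]
  congr 1
  ext i j
  rw [RingHom.mapMatrix_apply, Matrix.map_apply, Module.Basis.toMatrix_apply,
    Module.Basis.toMatrix_apply]
  have h : KaehlerDifferential.map ℤ_[p] ℤ_[p] K L (v j) =
      ∑ k, algebraMap K L (β.repr (v j) k) • β' k := by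
    conv_lhs => rw [← β.sum_repr (v j)]
    rw [map_sum]
    refine Finset.sum_congr rfl fun k _ => ?_
    rw [map_smul, hβ, algebraMap_smul]
  rw [h, map_sum, Finsupp.finsetSum_apply]
  rw [Finset.sum_eq_single i]
  · rw [map_smul, Module.Basis.repr_self, Finsupp.smul_apply, Finsupp.single_eq_same, smul_eq_mul,
      mul_one]
  · intro k _ hk
    rw [map_smul, Module.Basis.repr_self, Finsupp.smul_apply, Finsupp.single_apply, if_neg hk,
      smul_zero]
  · intro h; exact absurd (Finset.mem_univ i) h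

/-- The lower bound for the canonical order downstairs. -/
theorem canonical_lower_bound
    (hβ : ∀ i, KaehlerDifferential.map ℤ_[p] ℤ_[p] K L (β i) = β' i)
    (x : Fin d → R') (hx : ∀ i, x i ≠ 0)
    (hdet : β'.det (fun i => D ℤ_[p] L (algebraMap R' L (x i))) = 1)
    (δ e : ℕ) (k : Fin d → ℕ) (hk : ∀ i, ((k i * δ : ℕ) : ℕ∞) ≤ Ring.ord R' (x i))
    (he : Module.length R' (R' ⧸ (IsLocalRing.maximalIdeal R).map (algebraMap R R')) = e)
    (hΩ : Module.length R' Ω[R'⁄R] + 1 ≤ ((p - 1) * δ + e : ℕ)) (hks : p - 1 ≤ ∑ i, k i)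
    (n : ℤ) (hn : IsCanOrd ℤ_[p] R K β n) : ordZ R (p : K) ≤ n + 1 := by
  obtain ⟨⟨r, hr⟩, hn⟩ := hn
  obtain ⟨l, hl, hl2⟩ := hn r hr
  have hcompat : β'.det (fun i => D ℤ_[p] L (algebraMap R' L (algebraMap R R' (r i)))) =
      algebraMap K L (β.det (fun i => D ℤ_[p] K (algebraMap R K (r i)))) := by
    rw [← det_compat β β' hβ]
    congr 1
    ext i
    rw [KaehlerDifferential.map_D, ← IsScalarTower.algebraMap_apply R K L,
      ← IsScalarTower.algebraMap_apply R R' L]
  have hr' : β'.det (fun i => D ℤ_[p] L (algebraMap R' L (algebraMap R R' (r i)))) ≠ 0 := by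
    rw [hcompat, Ne, FaithfulSMul.algebraMap_eq_zero_iff]
    exact hr
  have hx' : β'.det (fun i => D ℤ_[p] L (algebraMap R' L (x i))) ≠ 0 := by
    rw [hdet]; exact one_ne_zero
  obtain ⟨l', lx, hl', hlx, heq⟩ := canOrd_indep β' (fun i => algebraMap R R' (r i)) x hr' hx'
  rw [hdet, ordZ_one, hcompat, ordZ_baseChange (R := R) he hr, sub_zero] at heq
  -- Hurwitz
  have h1 := length_diff_le (O := ℤ_[p]) (R := R) (R' := R') r
  rw [hl', IsLocalRing.length_baseChange R R', hl, he] at h1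
  -- log bound
  have h2 := log_len_bound β' x hx hx'
  rw [hlx] at h2
  -- `Ω` is of finite length
  obtain ⟨ω, hω⟩ : ∃ ω : ℕ, Module.length R' Ω[R'⁄R] = ω := by
    have : Module.length R' Ω[R'⁄R] ≠ ⊤ := by
      intro h
      rw [h, top_add, top_le_iff] at hΩ
      exact ENat.natCast_ne_top _ hΩ
    obtain ⟨ω, hω⟩ := ENat.ne_top_iff_exists.1 this
    exact ⟨ω, hω.symm⟩
  rw [hω] at h1 hΩ
  have h1' : l' ≤ l * e + ω := by exact_mod_cast h1
  have hΩ' : ω + 1 ≤ (p - 1) * δ + e := by exact_mod_cast hΩ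
  -- orders
  have hpR : (p : R) ≠ 0 := p_ne_zero (K := K)
  obtain ⟨vp, hvp, hvp'⟩ := exists_ord_eq R hpR
  have hvpR' : Ring.ord R' (p : R') = (vp * e : ℕ) := by
    have := ord_baseChange (R' := R') (p : R)
    rw [map_natCast, hvp, he] at this
    rw [this]; push_cast; rfl
  have hsum : ((∑ i, k i * δ : ℕ) : ℕ∞) ≤ ∑ i, Ring.ord R' (x i) := by
    push_cast
    refine Finset.sum_le_sum fun i _ => ?_
    have := hk i
    push_cast at this
    exact this
  have h3 : ((vp * e : ℕ) : ℕ∞) + ((∑ i, k i * δ : ℕ) : ℕ∞) ≤ (lx : ℕ∞) + 1 := by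
    refine le_trans ?_ h2
    rw [hvpR']
    gcongr
  have h3' : vp * e + ∑ i, k i * δ ≤ lx + 1 := by exact_mod_cast h3
  have h4 : (p - 1) * δ ≤ ∑ i, k i * δ := by
    rw [← Finset.sum_mul]
    exact Nat.mul_le_mul_right _ hks
  have h5 := hvp' K
  rw [map_natCast] at h5
  rw [h5]
  have he0 : 0 < e := by
    rcases Nat.eq_zero_or_pos e with h | h
    · exfalso
      rw [h, Nat.cast_zero, Module.length_eq_zero_iff] at he
      have h6 : (IsLocalRing.maximalIdeal R).map (algebraMap R R') < ⊤ :=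
        IsLocalRing.map_maximalIdeal_lt_top (algebraMap R R')
      exact h6.ne (Ideal.Quotient.subsingleton_iff.1 he)
    · exact h
  -- arithmetic
  have h7 : (lx : ℤ) ≤ e * n + ω := by
    have h8 : (l' : ℤ) ≤ l * e + ω := by exact_mod_cast h1'
    have : (lx : ℤ) = l' - e * ordZ R (β.det fun i => D ℤ_[p] K (algebraMap R K (r i))) := by
      linarith
    rw [this]
    have h9 : (l : ℤ) * e = (n + ordZ R (β.det fun i => D ℤ_[p] K (algebraMap R K (r i)))) * e := by
      rw [hl2]
    nlinarith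
  have h10 : (vp : ℤ) * e + ((p - 1 : ℕ) : ℤ) * δ ≤ lx + 1 := by
    have : vp * e + (p - 1) * δ ≤ lx + 1 := le_trans (by gcongr) h3'
    exact_mod_cast this
  have h11 : (ω : ℤ) + 1 ≤ ((p - 1 : ℕ) : ℤ) * δ + e := by exact_mod_cast hΩ'
  have h12 : (vp : ℤ) * e ≤ (n + 1) * e := by nlinarith
  have he0' : (0 : ℤ) < e := by exact_mod_cast he0
  exact le_of_mul_le_mul_right h12 he0'

end main

end Pool.Agent.Lib.MP_18dec4_ag
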