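import Pool.Agent.Lib.MP_18dec4_ag.EtaleCase

/-!
The canonical order is zero at height one primes, generic form.
-/

set_option linter.unusedSectionVars false
set_option linter.overlappingInstances false

namespace Pool.Agent.Lib.MP_18dec4_ag

open Polynomial KaehlerDifferential Algebra TensorProduct

/-- if `g x = f` with `g` a unit and `dg, df` in a submodule, then `dx` is in it -/
theorem D_mem_of_unit_mul {O R' : Type*} [CommRing O] [CommRing R'] [Algebra O R']
    (N : Submodule R' (Ω[R'⁄O])) (x g f : R') (hg : IsUnit g) (hgx : g * x = f)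
    (hDg : D O R' g ∈ N) (hDf : D O R' f ∈ N) : D O R' x ∈ N := by
  have h1 := congrArg (D O R') hgx
  rw [Derivation.leibniz] at h1
  have h2 : g • D O R' x ∈ N := by
    have : g • D O R' x = D O R' f - x • D O R' g := by
      rw [← h1]; abel
    rw [this]
    exact N.sub_mem hDf (N.smul_mem _ hDg)
  obtain ⟨u, rfl⟩ := hg
  have h3 := N.smul_mem (↑u⁻¹ : R') h2
  rwa [smul_smul, Units.inv_mul, one_smul] at h3

section

variable {p : ℕ} [Fact p.Prime] {G A S R K L : Type*} [Group G] [Fintype G]
  [CommRing A] [CommRing S] [IsDomain S] [IsIntegrallyClosed S] [Algebra A S]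
  [Algebra.IsIntegral A S] [Algebra ℤ_[p] S]
  [CommRing R] [IsDomain R] [IsDiscreteValuationRing R] [Algebra A R]
  [Field K] [CharZero K] [Field L] [CharZero L] [Algebra R K] [IsFractionRing R K]
  [Algebra K L] [Algebra R L] [IsScalarTower R K L]
  [Algebra S L] [IsFractionRing S L] [Algebra A L] [IsScalarTower A S L] [IsScalarTower A R L]
  [Algebra ℤ_[p] R] [EssFiniteType ℤ_[p] R]
  [Algebra ℤ_[p] K] [IsScalarTower ℤ_[p] R K] [Algebra ℤ_[p] L]
  [IsScalarTower ℤ_[p] K L] [IsScalarTower ℤ_[p] S L]
  [MulSemiringAction G S] [MulSemiringAction G L] [SMulDistribClass G S L] [IsGaloisGroup G K L]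
  {d : ℕ} (β : Module.Basis (Fin d) K (Ω[K⁄ℤ_[p]])) (β' : Module.Basis (Fin d) L (Ω[L⁄ℤ_[p]]))

theorem canOrd_zero_generic (hG : (Nat.card G).Prime) (P : Ideal A) [P.IsPrime]
    [IsLocalization.AtPrime R P]
    (hfree : ∀ q : Ideal S, q.IsPrime → q.comap (algebraMap A S) = P →
      ∃ (s : S) (g : G), g • s - s ∉ q)
    (hβ : ∀ i, KaehlerDifferential.map ℤ_[p] ℤ_[p] K L (β i) = β' i)
    (X : Fin d → S) (hX : Algebra.adjoin ℤ_[p] (Set.range X) = ⊤)
    (hdet : β'.det (fun i => D ℤ_[p] L (algebraMap S L (X i))) = 1) :
    IsCanOrd ℤ_[p] R K β 0 := by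
  classical
  have hfd : FiniteDimensional K L := IsGaloisGroup.finiteDimensional G K L
  have hcomm : SMulCommClass G K L := IsGaloisGroup.commutes
  have hcomm' : SMulCommClass G R L := by
    constructor
    intro g r x
    rw [Algebra.smul_def, IsScalarTower.algebraMap_apply R K L, smul_mul', smul_algebraMap,
      Algebra.smul_def, IsScalarTower.algebraMap_apply R K L]
  let C := integralClosure R L
  have hfrac : IsFractionRing C L := integralClosure.isFractionRing_of_finite_extension K L
  have hded : IsDedekindDomain C := integralClosure.isDedekindDomain R K L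
  have hfin : Module.Finite R C := IsIntegralClosure.finite R K L C
  have htower0 : IsScalarTower ℤ_[p] R L := by
    refine IsScalarTower.of_algebraMap_eq fun a => ?_
    rw [IsScalarTower.algebraMap_apply ℤ_[p] K L, IsScalarTower.algebraMap_apply ℤ_[p] R K,
      ← IsScalarTower.algebraMap_apply R K L]
  have hfaith : FaithfulSMul R C := by
    rw [faithfulSMul_iff_algebraMap_injective]
    intro a b hab
    have h1 : algebraMap R L a = algebraMap R L b := congrArg (algebraMap C L) hab
    rw [IsScalarTower.algebraMap_apply R K L, IsScalarTower.algebraMap_apply R K L] at h1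
    exact IsFractionRing.injective R K ((algebraMap K L).injective h1)
  have hgal : IsGaloisGroup G R C := IsGaloisGroup.of_isFractionRing G R C K L
  have hinvar : Algebra.IsInvariant R C G := IsGaloisGroup.isInvariant
  -- the map from `S`
  have hint : ∀ s : S, IsIntegral R (algebraMap S L s) := fun s =>
    IsIntegral.tower_top (R := A) (A := R)
      ((Algebra.IsIntegral.isIntegral (R := A) s).algebraMap (B := L))
  let φ : S →+* C :=
    { toFun := fun s => ⟨algebraMap S L s, hint s⟩
      map_one' := by ext; simp
      map_mul' := by intro a b; ext; simp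
      map_zero' := by ext; simp
      map_add' := by intro a b; ext; simp }
  have hφL : ∀ s, algebraMap C L (φ s) = algebraMap S L s := fun s => rfl
  have hφA : ∀ a : A, φ (algebraMap A S a) = algebraMap R C (algebraMap A R a) := by
    intro a
    apply Subtype.ext
    change algebraMap S L (algebraMap A S a) = algebraMap R L (algebraMap A R a)
    rw [← IsScalarTower.algebraMap_apply, ← IsScalarTower.algebraMap_apply]
  have hφG : ∀ (g : G) (s : S), φ (g • s) = g • φ s := by
    intro g s
    apply Subtype.ext
    exact algebraMap.coe_smul' _ _ L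
  -- fractions
  have hC : ∀ c : C, ∃ (a : A) (s : S), a ∉ P ∧ φ (algebraMap A S a) * c = φ s := by
    intro c
    obtain ⟨m, hm⟩ := IsIntegral.exists_multiple_integral_of_isLocalization P.primeCompl
      (c : L) c.2
    have h1 : IsIntegral S (m • (c : L)) := IsIntegral.tower_top (R := A) (A := S) hm
    obtain ⟨s, hs⟩ := IsIntegrallyClosed.algebraMap_eq_of_integral h1
    refine ⟨m, s, m.2, ?_⟩
    apply Subtype.ext
    change algebraMap S L (algebraMap A S m) * (c : L) = algebraMap S L s
    rw [hs, ← IsScalarTower.algebraMap_apply, ← Algebra.smul_def]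
    rfl
  -- separation
  have hmaxR : ∀ Q : Ideal C, Q.IsMaximal → Q.under R = IsLocalRing.maximalIdeal R := by
    intro Q hQ
    exact IsLocalRing.eq_maximalIdeal (Ideal.isMaximal_comap_of_isIntegral_of_isMaximal Q)
  have hsep : ∀ Q : Ideal C, Q.IsMaximal → ∃ z : C, ∀ g : G, g ≠ 1 → z - g • z ∉ Q := by
    intro Q hQ
    by_contra hcon
    push Not at hcon
    have hin := inert_of_nonseparating hG Q hcon
    have hq : (Q.comap φ).comap (algebraMap A S) = P := by
      ext a
      rw [Ideal.mem_comap, Ideal.mem_comap, hφA]
      have h1 : algebraMap R C (algebraMap A R a) ∈ Q ↔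
          algebraMap A R a ∈ IsLocalRing.maximalIdeal R := by
        rw [← hmaxR Q hQ]; rfl
      rw [h1]
      have h2 : Ideal.comap (algebraMap A R) (IsLocalRing.maximalIdeal R) = P :=
        IsLocalization.AtPrime.under_maximalIdeal R P
      rw [← Ideal.mem_comap, h2]
    obtain ⟨s, g, hsg⟩ := hfree (Q.comap φ) inferInstance hq
    apply hsg
    rw [Ideal.mem_comap, map_sub, hφG]
    exact hin g (φ s)
  have hunr : FormallyUnramified R C := formallyUnramified_of_separating_all (G := G) hsep
  have hft : FiniteType R C := inferInstance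
  have hfp : FinitePresentation R C := FinitePresentation.of_finiteType.1 hft
  have htf : Module.IsTorsionFree R C := inferInstance
  have hflat : Module.Flat R C := inferInstance
  have het : Etale R C := Etale.of_formallyUnramified_of_flat
  have hfet : FormallyEtale R C := inferInstance
  -- the localization
  obtain ⟨Q, hQ⟩ := Ideal.exists_maximal C
  have hQm' := hmaxR Q hQ
  have hle : Q.primeCompl ≤ nonZeroDivisors C := Q.primeCompl_le_nonZeroDivisors
  let R' : Subalgebra C L := Localization.subalgebra.ofField L Q.primeCompl hle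
  have hloc : IsLocalization.AtPrime R' Q :=
    Localization.subalgebra.isLocalization_ofField L Q.primeCompl hle
  have hQ0 : Q ≠ ⊥ := by
    intro h
    have h1 : Q.under R = ⊥ := by
      rw [h, _root_.eq_bot_iff]
      intro r hr
      have h2 : algebraMap R C r ∈ (⊥ : Ideal C) := hr
      rw [Ideal.mem_bot, FaithfulSMul.algebraMap_eq_zero_iff] at h2
      exact h2
    rw [hQm'] at h1
    exact IsDiscreteValuationRing.not_a_field R h1
  have hDVR : IsDiscreteValuationRing R' :=
    IsLocalization.AtPrime.isDiscreteValuationRing_of_dedekind_domain C hQ0 R'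
  have htower1 : IsScalarTower R C R' := inferInstance
  have htower2 : IsScalarTower R R' L := inferInstance
  have htower3 : IsScalarTower ℤ_[p] R' L := inferInstance
  have htower4 : IsScalarTower ℤ_[p] R R' := by
    refine IsScalarTower.of_algebraMap_eq fun a => ?_
    apply Subtype.ext
    change algebraMap ℤ_[p] L a = algebraMap R L (algebraMap ℤ_[p] R a)
    rw [IsScalarTower.algebraMap_apply R C L, ← IsScalarTower.algebraMap_apply ℤ_[p] R C,
      ← IsScalarTower.algebraMap_apply ℤ_[p] C L]
  have hfaith' : FaithfulSMul R R' := by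
    rw [faithfulSMul_iff_algebraMap_injective]
    intro a b hab
    have h1 : algebraMap R L a = algebraMap R L b := by
      rw [IsScalarTower.algebraMap_apply R R' L, hab, ← IsScalarTower.algebraMap_apply R R' L]
    rw [IsScalarTower.algebraMap_apply R K L, IsScalarTower.algebraMap_apply R K L] at h1
    exact IsFractionRing.injective R K ((algebraMap K L).injective h1)
  have hlh : IsLocalHom (algebraMap R R') := by
    constructor
    intro r hr
    by_contra hcon
    have h1 : r ∈ Q.under R := by
      rw [hQm']; exact hcon
    have h2 : algebraMap R C r ∈ Q := h1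
    have h3 : algebraMap R R' r ∈ IsLocalRing.maximalIdeal R' := by
      rw [IsScalarTower.algebraMap_apply R C R']
      rw [← IsLocalization.AtPrime.map_eq_maximalIdeal Q R']
      exact Ideal.mem_map_of_mem _ h2
    exact h3 hr
  have hfet' : FormallyEtale R R' := by
    have : FormallyEtale C R' := FormallyEtale.of_isLocalization Q.primeCompl
    exact FormallyEtale.comp R C R'
  have hess : EssFiniteType R R' := by
    have : EssFiniteType C R' := EssFiniteType.of_isLocalization R' Q.primeCompl
    exact EssFiniteType.comp R C R'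
  refine canOrd_zero (R' := R') β β' hβ (fun i => algebraMap C R' (φ (X i))) ?_ ?_
  · rw [← hdet]
    rfl
  · -- spanning
    set N := Submodule.span R' (Set.range fun i => D ℤ_[p] R' (algebraMap C R' (φ (X i)))) with hN
    have hS : ∀ s : S, D ℤ_[p] R' (algebraMap C R' (φ s)) ∈ N := by
      intro s
      have hs : s ∈ Algebra.adjoin ℤ_[p] (Set.range X) := by rw [hX]; trivial
      induction hs using Algebra.adjoin_induction with
      | mem x hx =>
        obtain ⟨i, rfl⟩ := hx
        exact Submodule.subset_span ⟨i, rfl⟩
      | algebraMap a =>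
        have h1 : algebraMap C R' (φ (algebraMap ℤ_[p] S a)) = algebraMap ℤ_[p] R' a := by
          apply Subtype.ext
          change algebraMap S L (algebraMap ℤ_[p] S a) = algebraMap ℤ_[p] L a
          rw [← IsScalarTower.algebraMap_apply]
        rw [h1, Derivation.map_algebraMap]
        exact N.zero_mem
      | add x y _ _ hx hy =>
        rw [map_add, map_add, map_add]; exact N.add_mem hx hy
      | mul x y _ _ hx hy =>
        rw [map_mul, map_mul, Derivation.leibniz]
        exact N.add_mem (N.smul_mem _ hy) (N.smul_mem _ hx)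
    -- units
    have hunitA : ∀ a : A, a ∉ P → IsUnit (algebraMap C R' (φ (algebraMap A S a))) := by
      intro a ha
      rw [hφA]
      exact ((IsLocalization.map_units R (⟨a, ha⟩ : P.primeCompl)).map (algebraMap R C)).map
        (algebraMap C R')
    have key : ∀ (x g f : R'), IsUnit g → g * x = f → D ℤ_[p] R' g ∈ N → D ℤ_[p] R' f ∈ N →
        D ℤ_[p] R' x ∈ N := by
      intro x g f hg hgx hDg hDf
      exact D_mem_of_unit_mul N x g f hg hgx hDg hDf
    have hDC : ∀ c : C, D ℤ_[p] R' (algebraMap C R' c) ∈ N := by
      intro c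
      obtain ⟨a, s, ha, has⟩ := hC c
      refine key _ (algebraMap C R' (φ (algebraMap A S a))) (algebraMap C R' (φ s)) (hunitA a ha)
        ?_ (hS _) (hS _)
      rw [← map_mul, has]
    rw [_root_.eq_top_iff, ← KaehlerDifferential.span_range_derivation, Submodule.span_le]
    rintro _ ⟨x, rfl⟩
    obtain ⟨c, s, rfl⟩ := IsLocalization.exists_mk'_eq Q.primeCompl x
    exact key _ (algebraMap C R' s) (algebraMap C R' c) (IsLocalization.map_units R' s)
      (IsLocalization.mk'_spec' R' c s) (hDC _) (hDC _)

end

end Pool.Agent.Lib.MP_18dec4_ag
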