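import Mathlib

/-!
Canonical divisors, discrepancies and log canonical pairs for affine schemes of finite type
over a base ring `O` (later `O = ℤ_p`), and Serre's condition `S_2`.
-/

namespace Pool.Agent.Lib.MP_18dec4_ag

open KaehlerDifferential

/-- A divisor over `Spec A`, where `K` is the fraction field of `A`: a discrete valuation ring
`A ⊆ R ⊆ K` which is essentially of finite type over `A`.  These are exactly the local rings
`𝒪_{Y,E}` of prime divisors `E` on normal schemes `Y`, birational (and proper) over `Spec A`. -/
structure DivisorOver (A K : Type) [CommRing A] [Field K] [Algebra A K] where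
  /-- the discrete valuation ring -/
  ring : Subalgebra A K
  isDVR : IsDiscreteValuationRing ring
  isFrac : IsFractionRing ring K
  essFT : Algebra.EssFiniteType A ring

attribute [instance] DivisorOver.isDVR DivisorOver.isFrac DivisorOver.essFT

namespace DivisorOver

variable {A K : Type} [CommRing A] [Field K] [Algebra A K]

/-- The centre of the divisor on `Spec A`, a prime ideal of `A`. -/
def center (E : DivisorOver A K) : Ideal A :=
  (IsLocalRing.maximalIdeal E.ring).comap (algebraMap A E.ring)

/-- The order of vanishing along `E` of a nonzero rational function. -/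
noncomputable def ord (E : DivisorOver A K) (x : K) : ℤ :=
  WithZero.log (Ring.ordFrac E.ring x)

end DivisorOver

/-- The submodule of `Ω_{R/O}` spanned by `dr_1, ..., dr_d`. -/
noncomputable def diffSpan (O R : Type) [CommRing O] [CommRing R] [Algebra O R] {d : ℕ} (r : Fin d → R) :
    Submodule R (Ω[R⁄O]) :=
  Submodule.span R (Set.range fun i => D O R (r i))

/-- Let `R` be the local ring of a divisor `E` over `Spec A` and let `β` be a basis of
`Ω_{K/O}`, representing the rational top form `η = β_1 ∧ ... ∧ β_d`.
`IsCanonicalOrder O E β n` says that `η` has order `n` along `E` as a rational section of the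
relative dualizing sheaf `ω_{R/O} = det L_{R/O}`.  Explicitly, the form
`dr_1 ∧ ... ∧ dr_d` (`r_i ∈ R`) has order equal to the length of `Ω_{R/O} / (dr_1, ..., dr_d)`. -/
def IsCanonicalOrder (O : Type) {A K : Type} [CommRing O] [CommRing A] [Field K] [Algebra O A]
    [Algebra A K] [Algebra O K] [IsScalarTower O A K] (E : DivisorOver A K) {d : ℕ}
    (β : Module.Basis (Fin d) K (Ω[K⁄O])) (n : ℤ) : Prop :=
  (∃ r : Fin d → E.ring, β.det (fun i => D O K (r i)) ≠ 0) ∧
  ∀ r : Fin d → E.ring, β.det (fun i => D O K (r i)) ≠ 0 →
    ∃ l : ℕ, Module.length E.ring (Ω[E.ring⁄O] ⧸ diffSpan O E.ring r) = l ∧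
      (l : ℤ) = n + E.ord (β.det fun i => D O K (r i))

/-- `(X, X_p)` is log canonical, for `X = Spec A` integral and normal, flat and of finite type over
`O`, and `X_p = div(t)`, `t ∈ A` (later `O = ℤ_p`, `t = p`).  Here `K = Frac A`.

* `β` is a basis of `Ω_{K/O}`; `K_X` is the divisor of the rational top form
  `β_1 ∧ ... ∧ β_d` (see `IsCanonicalOrder`);
* all coefficients of the Weil divisor `div(t)` are at most one;
* near every point `x` some positive multiple `m (K_X + div(t))` is the divisor of a rational
  function `g`, and for every exceptional divisor `E` over `X` with centre `x` the discrepancy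
  `a(E) = ord_E(K_Y) - ord_E(g) / m` is at least `-1`. -/
def IsLogCanonicalPair (O A K : Type) [CommRing O] [CommRing A] [Field K] [Algebra O A]
    [Algebra A K] [Algebra O K] [IsScalarTower O A K] (t : A) : Prop :=
  ∃ (d : ℕ) (β : Module.Basis (Fin d) K (Ω[K⁄O])),
    (∀ E : DivisorOver A K, E.center.height = 1 → E.ord (algebraMap A K t) ≤ 1) ∧
    ∀ x : PrimeSpectrum A, ∃ (m : ℕ) (g : K), 0 < m ∧ g ≠ 0 ∧
      (∀ E : DivisorOver A K, E.center.height = 1 → E.center ≤ x.asIdeal →
        ∃ n : ℤ, IsCanonicalOrder O E β n ∧
          (m : ℤ) * (n + E.ord (algebraMap A K t)) = E.ord g) ∧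
      (∀ E : DivisorOver A K, E.center = x.asIdeal → 1 < E.center.height →
        ∃ n : ℤ, IsCanonicalOrder O E β n ∧ -(m : ℤ) ≤ (m : ℤ) * n - E.ord g)

/-- Serre's condition `S_2` for `Spec C`: every local ring has a regular sequence of length
at least `min(2, dim)` in its maximal ideal. -/
def IsSerreS2 (C : Type) [CommRing C] : Prop :=
  ∀ (q : Ideal C) [q.IsPrime], ∃ rs : List (Localization.AtPrime q),
    (∀ r ∈ rs, r ∈ IsLocalRing.maximalIdeal (Localization.AtPrime q)) ∧
    RingTheory.Sequence.IsRegular (Localization.AtPrime q) rs ∧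
    min 2 (ringKrullDim (Localization.AtPrime q)) ≤ (rs.length : WithBot ℕ∞)

end Pool.Agent.Lib.MP_18dec4_ag
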