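import Pool.Agent.Lib.MP_18dec4_ag.Lower

/-!
The canonical order is zero in the étale case.
-/

set_option linter.unusedSectionVars false
set_option linter.overlappingInstances false

namespace Pool.Agent.Lib.MP_18dec4_ag

open Polynomial KaehlerDifferential Algebra TensorProduct

section unramified

variable {G R C : Type*} [Group G] [Fintype G] [CommRing R] [CommRing C] [Algebra R C]
  [MulSemiringAction G C] [Algebra.IsInvariant R C G]

/-- `∏_{g ≠ 1} (z - g z)^2` kills the differentials. -/
lemma diffProd_sq_smul (z : C) (w : Ω[C⁄R]) : (diffProd G z * diffProd G z) • w = 0 := by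
  have hDz : diffProd G z • D R C z = 0 := by
    obtain ⟨h, h0, h1⟩ := exists_charpoly R (G := G) z
    have h2 : D R C (aeval z h) = aeval z (derivative h) • D R C z := Derivation.map_aeval _ _ _
    rw [h0, h1, map_zero] at h2
    exact h2.symm
  have hDpoly : ∀ f : R[X], diffProd G z • D R C (aeval z f) = 0 := by
    intro f
    rw [Derivation.map_aeval, smul_comm, hDz, smul_zero]
  have hDc : ∀ c : C, (diffProd G z * diffProd G z) • D R C c = 0 := by
    intro c
    obtain ⟨f, hf⟩ := exists_lagrange R (G := G) z c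
    obtain ⟨f₁, hf₁⟩ := exists_lagrange R (G := G) z (1 : C)
    have h1 := hDpoly f
    have h2 := hDpoly f₁
    rw [hf₁, one_mul] at h2
    rw [hf, Derivation.leibniz, smul_add, smul_comm (diffProd G z) c, h2, smul_zero, zero_add,
      ← mul_smul] at h1
    exact h1
  have hw : w ∈ (⊤ : Submodule C Ω[C⁄R]) := trivial
  rw [← KaehlerDifferential.span_range_derivation] at hw
  induction hw using Submodule.span_induction with
  | mem x h => obtain ⟨c, rfl⟩ := h; exact hDc c
  | zero => rw [smul_zero]
  | add x y _ _ hx hy => rw [smul_add, hx, hy, add_zero]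
  | smul a x _ hx => rw [smul_comm, hx, smul_zero]

theorem formallyUnramified_of_separating_all
    (hsep : ∀ Q : Ideal C, Q.IsMaximal → ∃ z : C, ∀ g : G, g ≠ 1 → z - g • z ∉ Q) :
    FormallyUnramified R C := by
  classical
  constructor
  by_contra hcon
  have hann : Module.annihilator C Ω[C⁄R] ≠ ⊤ := by
    intro h
    apply hcon
    exact Module.annihilator_eq_top_iff.1 h
  obtain ⟨Q, hQ, hle⟩ := Ideal.exists_le_maximal _ hann
  obtain ⟨z, hz⟩ := hsep Q hQ
  have hmem : diffProd G z * diffProd G z ∈ Module.annihilator C Ω[C⁄R] := by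
    rw [Module.mem_annihilator]
    exact fun w => diffProd_sq_smul z w
  have h1 : diffProd G z ∈ Q := by
    rcases hQ.isPrime.mem_or_mem (hle hmem) with h | h <;> exact h
  rw [diffProd] at h1
  obtain ⟨g, hg, hg'⟩ := (Ideal.IsPrime.prod_mem_iff).1 h1
  exact hz g (Finset.ne_of_mem_erase hg) hg'

end unramified

section basechange_eq

variable {O R R' : Type*} [CommRing O] [CommRing R] [CommRing R'] [Algebra O R] [Algebra O R']
  [Algebra R R'] [IsScalarTower O R R'] [FormallyEtale R R']

/-- lengths of quotients of differentials in the formally étale case -/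
theorem length_diff_ge {d : ℕ} (r : Fin d → R) :
    Module.length R' (R' ⊗[R] (Ω[R⁄O] ⧸ Submodule.span R (Set.range fun i => D O R (r i)))) ≤
    Module.length R'
      (Ω[R'⁄O] ⧸ Submodule.span R' (Set.range fun i => D O R' (algebraMap R R' (r i)))) := by
  set N := Submodule.span R (Set.range fun i => D O R (r i)) with hN
  set N' := Submodule.span R' (Set.range fun i => D O R' (algebraMap R R' (r i))) with hN'
  have hbc : IsBaseChange R' (KaehlerDifferential.map O O R R') :=
    KaehlerDifferential.isBaseChange_of_formallyEtale O R R'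
  let f : Ω[R'⁄O] →ₗ[R'] R' ⊗[R] (Ω[R⁄O] ⧸ N) :=
    (LinearMap.baseChange R' N.mkQ) ∘ₗ hbc.equiv.symm.toLinearMap
  have hf : Function.Surjective f := by
    have h1 : Function.Surjective (LinearMap.baseChange R' N.mkQ) :=
      LinearMap.lTensor_surjective R' (Submodule.mkQ_surjective N)
    exact h1.comp hbc.equiv.symm.surjective
  have hker : N' ≤ LinearMap.ker f := by
    rw [hN', Submodule.span_le]
    rintro _ ⟨i, rfl⟩
    rw [SetLike.mem_coe, LinearMap.mem_ker]
    have h1 : D O R' (algebraMap R R' (r i)) = hbc.equiv (1 ⊗ₜ D O R (r i)) := by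
      rw [hbc.equiv_tmul, one_smul, KaehlerDifferential.map_D]
    simp only [f, LinearMap.comp_apply, LinearEquiv.coe_coe]
    rw [h1, LinearEquiv.symm_apply_apply, LinearMap.baseChange_tmul]
    have h2 : N.mkQ (D O R (r i)) = 0 := by
      rw [Submodule.mkQ_apply, Submodule.Quotient.mk_eq_zero]
      exact Submodule.subset_span ⟨i, rfl⟩
    rw [h2, tmul_zero]
  refine Module.length_le_of_surjective (N'.liftQ f hker) ?_
  intro y
  obtain ⟨x, rfl⟩ := hf y
  exact ⟨N'.mkQ x, rfl⟩

end basechange_eq

section exists_det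

/-- there are elements of `R` whose differentials form a basis of `Ω_K`. -/
lemma exists_det_ne_zero {O R K : Type*} [CommRing O] [CommRing R] [IsDomain R] [Field K]
    [Algebra O R] [Algebra R K] [Algebra O K] [IsScalarTower O R K] [IsFractionRing R K]
    {d : ℕ} (β : Module.Basis (Fin d) K Ω[K⁄O]) :
    ∃ r : Fin d → R, β.det (fun i => D O K (algebraMap R K (r i))) ≠ 0 := by
  have hspan := KaehlerDifferential.span_range_map_derivation_of_isLocalization (R := O) (S := R)
    (T := K) (nonZeroDivisors R)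
  let b₀ := Module.Basis.ofSpan hspan.ge
  have h1 := Module.Basis.ofSpan_subset hspan.ge
  have hfin : Module.Finite K Ω[K⁄O] := Module.Finite.of_basis β
  have : Fintype _ := FiniteDimensional.fintypeBasisIndex b₀
  have hc := Module.finrank_eq_card_basis b₀
  have hc' := Module.finrank_eq_card_basis β
  rw [Fintype.card_fin] at hc'
  let e : _ ≃ Fin d := Fintype.equivFinOfCardEq (by rw [← hc, hc'])
  have h2 : ∀ i, ∃ r : R, D O K (algebraMap R K r) = (b₀.reindex e) i := by
    intro i
    have : (b₀.reindex e) i ∈ Set.range b₀ := by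
      rw [Module.Basis.reindex_apply]; exact ⟨_, rfl⟩
    obtain ⟨r, hr⟩ := h1 this
    refine ⟨r, ?_⟩
    rw [← hr, Function.comp_apply, KaehlerDifferential.map_D]
  choose r hr using h2
  refine ⟨r, ?_⟩
  have h3 : (fun i => D O K (algebraMap R K (r i))) = (b₀.reindex e) := by
    ext i; rw [hr]
  rw [h3]
  exact ((β.is_basis_iff_det).1 ⟨(b₀.reindex e).linearIndependent,
    (b₀.reindex e).span_eq⟩).ne_zero

end exists_det

section canzero

variable {p : ℕ} [Fact p.Prime] {R R' K L : Type*}
  [CommRing R] [IsDomain R] [IsDiscreteValuationRing R]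
  [CommRing R'] [IsDomain R'] [IsDiscreteValuationRing R']
  [Field K] [CharZero K] [Field L] [CharZero L] [Algebra R K] [IsFractionRing R K]
  [Algebra K L] [Algebra R L] [IsScalarTower R K L]
  [Algebra ℤ_[p] R] [EssFiniteType ℤ_[p] R]
  [Algebra ℤ_[p] K] [IsScalarTower ℤ_[p] R K] [Algebra ℤ_[p] L]
  [IsScalarTower ℤ_[p] K L]
  [Algebra R R'] [Algebra R' L]
  [IsFractionRing R' L] [IsScalarTower R R' L]
  [Algebra ℤ_[p] R'] [IsScalarTower ℤ_[p] R R'] [IsScalarTower ℤ_[p] R' L]
  [IsLocalHom (algebraMap R R')] [FaithfulSMul R R']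
  {d : ℕ} (β : Module.Basis (Fin d) K (Ω[K⁄ℤ_[p]])) (β' : Module.Basis (Fin d) L (Ω[L⁄ℤ_[p]]))

/-- the canonical order is zero if `R'/R` is essentially étale, and `dX_1, ..., dX_d` generate the
differentials of `R'`. -/
theorem canOrd_zero [FormallyEtale R R'] [EssFiniteType R R']
    (hβ : ∀ i, KaehlerDifferential.map ℤ_[p] ℤ_[p] K L (β i) = β' i)
    (X : Fin d → R') (hdet : β'.det (fun i => D ℤ_[p] L (algebraMap R' L (X i))) = 1)
    (hspan : Submodule.span R' (Set.range fun i => D ℤ_[p] R' (X i)) = ⊤) :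
    IsCanOrd ℤ_[p] R K β 0 := by
  have hess' : EssFiniteType ℤ_[p] R' := EssFiniteType.comp ℤ_[p] R R'
  have hm : (IsLocalRing.maximalIdeal R).map (algebraMap R R') = IsLocalRing.maximalIdeal R' :=
    FormallyUnramified.map_maximalIdeal
  have he : Module.length R' (R' ⧸ (IsLocalRing.maximalIdeal R).map (algebraMap R R')) =
      ((1 : ℕ) : ℕ∞) := by
    rw [hm, Nat.cast_one, Module.length_eq_one_iff, isSimpleModule_iff_isCoatom,
      ← Ideal.isMaximal_def]
    infer_instance
  obtain ⟨r, hr⟩ := exists_det_ne_zero (O := ℤ_[p]) (R := R) β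
  have hcompat : β'.det (fun i => D ℤ_[p] L (algebraMap R' L (algebraMap R R' (r i)))) =
      algebraMap K L (β.det (fun i => D ℤ_[p] K (algebraMap R K (r i)))) := by
    rw [← det_compat β β' hβ]
    congr 1
    ext i
    rw [KaehlerDifferential.map_D, ← IsScalarTower.algebraMap_apply R K L,
      ← IsScalarTower.algebraMap_apply R R' L]
  have hr' : β'.det (fun i => D ℤ_[p] L (algebraMap R' L (algebraMap R R' (r i)))) ≠ 0 := by
    rw [hcompat, Ne, FaithfulSMul.algebraMap_eq_zero_iff]
    exact hr
  have hx' : β'.det (fun i => D ℤ_[p] L (algebraMap R' L (X i))) ≠ 0 := by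
    rw [hdet]; exact one_ne_zero
  obtain ⟨l', lx, hl', hlx, heq⟩ := canOrd_indep β' (fun i => algebraMap R R' (r i)) X hr' hx'
  have hlx0 : lx = 0 := by
    rw [hspan] at hlx
    have : Subsingleton (Ω[R'⁄ℤ_[p]] ⧸ (⊤ : Submodule R' Ω[R'⁄ℤ_[p]])) := by
      rw [Submodule.Quotient.subsingleton_iff]
    rw [Module.length_eq_zero] at hlx
    exact_mod_cast hlx.symm
  rw [hdet, ordZ_one, hcompat, ordZ_baseChange (R := R) he hr, sub_zero, hlx0] at heq
  -- equality of lengths
  obtain ⟨l, _, hl, _, _⟩ := canOrd_indep β r r hr hr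
  have h1 := length_diff_le (O := ℤ_[p]) (R := R) (R' := R') r
  have h2 := length_diff_ge (O := ℤ_[p]) (R := R) (R' := R') r
  have hsub : Subsingleton Ω[R'⁄R] := FormallyUnramified.subsingleton_kaehlerDifferential
  rw [Module.length_eq_zero (M := Ω[R'⁄R]), add_zero, hl',
    IsLocalRing.length_baseChange R R', hl, he] at h1
  rw [hl', IsLocalRing.length_baseChange R R', hl, he] at h2
  have hll : l' = l := by
    have h3 : l' ≤ l * 1 := by exact_mod_cast h1
    have h4 : l * 1 ≤ l' := by exact_mod_cast h2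
    omega
  have h5 := isCanOrd_of β r hr hl
  have h6 : (l : ℤ) - ordZ R (β.det fun i => D ℤ_[p] K (algebraMap R K (r i))) = 0 := by
    rw [hll] at heq
    push_cast at heq
    linarith
  rw [h6] at h5
  exact h5

end canzero

section general_order

variable {O R K : Type*} [CommRing O] [CommRing R] [IsDomain R] [IsDiscreteValuationRing R]
  [Field K] [Algebra O R] [Algebra R K] [Algebra O K] [IsScalarTower O R K] [IsFractionRing R K]
  [EssFiniteType O R]
  {d : ℕ} (β : Module.Basis (Fin d) K (Ω[K⁄O]))

/-- the canonical order always exists -/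
theorem exists_isCanOrd : ∃ n : ℤ, IsCanOrd O R K β n := by
  obtain ⟨r, hr⟩ := exists_det_ne_zero (O := O) (R := R) β
  obtain ⟨l, _, hl, _, _⟩ := canOrd_indep β r r hr hr
  exact ⟨_, isCanOrd_of β r hr hl⟩

end general_order

end Pool.Agent.Lib.MP_18dec4_ag
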