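import Pool.Agent.Lib.MP_18dec4_ag.Defs

/-!
A criterion for the failure of Serre's condition `S_2`.
-/

namespace Pool.Agent.Lib.MP_18dec4_ag

open RingTheory.Sequence

/-- In a ring with a regular sequence `a, c, ...`: if `c x = a y` then `a ∣ x`. -/
lemma dvd_of_isWeaklyRegular {C : Type} [CommRing C] {a c : C} {rs : List C}
    (h : IsWeaklyRegular C (a :: c :: rs)) {x y : C} (hxy : c * x = a * y) : a ∣ x := by
  rw [isWeaklyRegular_cons_iff] at h
  obtain ⟨_, h2⟩ := h
  rw [isWeaklyRegular_cons_iff] at h2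
  obtain ⟨h3, _⟩ := h2
  have h4 : c • (Submodule.Quotient.mk x : QuotSMulTop a C) = c • 0 := by
    rw [smul_zero, ← Submodule.Quotient.mk_smul, Submodule.Quotient.mk_eq_zero]
    rw [Submodule.mem_smul_pointwise_iff_exists]
    exact ⟨y, trivial, by rw [smul_eq_mul, smul_eq_mul, hxy]⟩
  have h5 := h3 h4
  rw [Submodule.Quotient.mk_eq_zero, Submodule.mem_smul_pointwise_iff_exists] at h5
  obtain ⟨z, _, hz⟩ := h5
  exact ⟨z, by rw [← hz, smul_eq_mul]⟩

/-- The core of the criterion. -/
theorem no_regular_sequence {B T : Type} [CommRing B] [IsDomain B] [CommRing T] [IsDomain T]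
    (f : B →+* T) (hf : Function.Injective f) (q : Ideal B) [hq : q.IsPrime] (b : T)
    (h1 : ∀ q' : Ideal B, q'.IsPrime → (∀ c, f c * b ∈ f.range → c ∈ q') → q ≤ q')
    (h2 : ∀ s, s ∉ q → f s * b ∉ f.range)
    (C : Type) [CommRing C] [Algebra B C] [IsLocalization.AtPrime C q] [IsLocalRing C]
    (a1 a2 : C) (rs : List C) (ha1 : a1 ∈ IsLocalRing.maximalIdeal C)
    (ha2 : a2 ∈ IsLocalRing.maximalIdeal C) (hw : IsWeaklyRegular C (a1 :: a2 :: rs)) : False := by
  let F := FractionRing T
  let g : B →+* F := (algebraMap T F).comp f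
  have hg : Function.Injective g := (IsFractionRing.injective T F).comp hf
  have hgu : ∀ s : q.primeCompl, IsUnit (g s) := by
    intro s
    rw [isUnit_iff_ne_zero]
    intro h
    have h0 : (s : B) = 0 := hg (by rw [h, map_zero])
    exact s.2 (h0 ▸ q.zero_mem)
  let φ : C →+* F := IsLocalization.lift hgu
  have hφ : ∀ x : B, φ (algebraMap B C x) = g x := fun x => IsLocalization.lift_eq hgu x
  have hle : q.primeCompl ≤ nonZeroDivisors B := q.primeCompl_le_nonZeroDivisors
  have hdom : IsDomain C := IsLocalization.isDomain_of_le_nonZeroDivisors (R := B) C hle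
  have hφinj : Function.Injective φ := by
    rw [injective_iff_map_eq_zero]
    intro x hx
    obtain ⟨y, s, rfl⟩ := IsLocalization.exists_mk'_eq q.primeCompl x
    have h3 : φ (algebraMap B C y) = 0 := by
      rw [← IsLocalization.mk'_spec C y s, map_mul, hx, zero_mul]
    rw [hφ] at h3
    have h4 : y = 0 := hg (by rw [h3, map_zero])
    rw [h4, IsLocalization.mk'_zero]
  set β : F := algebraMap T F b with hβ
  -- nilpotence
  have hnil : ∀ c ∈ IsLocalRing.maximalIdeal C, ∃ n : ℕ, φ c ^ n * β ∈ φ.range := by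
    intro c hc
    obtain ⟨a, s, rfl⟩ := IsLocalization.exists_mk'_eq q.primeCompl c
    have ha : a ∈ q := by
      rw [← IsLocalization.AtPrime.to_map_mem_maximal_iff C q a]
      rw [← IsLocalization.mk'_spec' C a s]
      exact Ideal.mul_mem_left _ _ hc
    -- find `n` and `s'`
    have h3 : ∃ (n : ℕ) (s' : B), s' ∉ q ∧ f (s' * a ^ n) * b ∈ f.range := by
      by_contra hcon
      push Not at hcon
      let I : Ideal B :=
        { carrier := {c | f c * b ∈ f.range}
          add_mem' := by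
            intro x y hx hy
            change f (x + y) * b ∈ f.range
            rw [map_add, add_mul]
            exact f.range.add_mem hx hy
          zero_mem' := by
            change f 0 * b ∈ f.range
            rw [map_zero, zero_mul]
            exact f.range.zero_mem
          smul_mem' := by
            intro x y hy
            change f (x * y) * b ∈ f.range
            rw [map_mul, mul_assoc]
            exact f.range.mul_mem ⟨x, rfl⟩ hy }
      let M : Submonoid B :=
        { carrier := {m | ∃ (n : ℕ) (s' : B), s' ∉ q ∧ m = s' * a ^ n}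
          one_mem' := ⟨0, 1, fun h => hq.ne_top ((Ideal.eq_top_iff_one _).2 h), by simp⟩
          mul_mem' := by
            rintro _ _ ⟨n, s, hs, rfl⟩ ⟨m, t, ht, rfl⟩
            refine ⟨n + m, s * t, fun h => (hq.mem_or_mem h).elim hs ht, by ring⟩ }
      have hdisj : Disjoint (I : Set B) (M : Set B) := by
        rw [Set.disjoint_left]
        rintro m hm ⟨n, s', hs', rfl⟩
        exact hcon n s' hs' hm
      obtain ⟨q', hq', hIq', hq'M⟩ := Ideal.exists_le_prime_disjoint I M hdisj
      have h4 := h1 q' hq' (fun c hc => hIq' hc)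
      have h5 : a ∈ M := ⟨1, 1, fun h => hq.ne_top ((Ideal.eq_top_iff_one _).2 h), by simp⟩
      exact Set.disjoint_left.1 hq'M (h4 ha) h5
    obtain ⟨n, s', hs', d, hd⟩ := h3
    refine ⟨n, IsLocalization.mk' C d (⟨s', hs'⟩ * s ^ n), ?_⟩
    have hs0 : g s' ≠ 0 := (hgu ⟨s', hs'⟩).ne_zero
    have hs1 : g (s : B) ≠ 0 := (hgu s).ne_zero
    have h5 : g s * φ (IsLocalization.mk' C a s) = g a := by
      rw [← hφ, ← hφ, ← map_mul, IsLocalization.mk'_spec']
    have h6 : (g s' * g s ^ n) * φ (IsLocalization.mk' C d (⟨s', hs'⟩ * s ^ n)) = g d := by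
      have h7 : g s' * g s ^ n = φ (algebraMap B C ((⟨s', hs'⟩ * s ^ n : q.primeCompl) : B)) := by
        rw [hφ]; simp
      rw [h7, ← hφ d, ← map_mul, IsLocalization.mk'_spec']
    have h8 : g d = g s' * g a ^ n * β := by
      change algebraMap T F (f d) = _
      rw [hd, map_mul, map_mul, map_mul, map_pow, map_pow]
      rfl
    have h9 : g s' * g s ^ n ≠ 0 := mul_ne_zero hs0 (pow_ne_zero _ hs1)
    apply mul_left_cancel₀ h9
    rw [h6, h8, ← h5]
    ring
  have hβ0 : β ∉ φ.range := by
    rintro ⟨c, hc⟩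
    obtain ⟨a, s, rfl⟩ := IsLocalization.exists_mk'_eq q.primeCompl c
    apply h2 s s.2
    refine ⟨a, ?_⟩
    apply IsFractionRing.injective T F
    change g a = _
    rw [map_mul, ← hβ, ← hc, ← hφ]
    change _ = g s * _
    rw [← hφ, ← map_mul, IsLocalization.mk'_spec']
  -- minimal exponents
  have step : ∀ (a : C) (x : F), x ∉ φ.range → (∃ n : ℕ, φ a ^ n * x ∈ φ.range) →
      ∃ k : ℕ, φ a ^ k * x ∉ φ.range ∧ φ a * (φ a ^ k * x) ∈ φ.range := by
    classical
    intro a x hx hn
    obtain ⟨k, hk⟩ : ∃ k, Nat.find hn = k + 1 := by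
      refine ⟨Nat.find hn - 1, ?_⟩
      have : Nat.find hn ≠ 0 := by
        intro h
        have h3 := Nat.find_spec hn
        rw [h, pow_zero, one_mul] at h3
        exact hx h3
      omega
    refine ⟨k, Nat.find_min hn (by omega), ?_⟩
    have h3 := Nat.find_spec hn
    rw [hk, pow_succ'] at h3
    rwa [← mul_assoc]
  obtain ⟨k, hk1, hk2⟩ := step a1 β hβ0 (hnil a1 ha1)
  set x1 := φ a1 ^ k * β with hx1
  obtain ⟨l, hl1, hl2⟩ := step a2 x1 hk1 (by
    obtain ⟨n, hn⟩ := hnil a2 ha2
    refine ⟨n, ?_⟩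
    have : φ a2 ^ n * x1 = φ a1 ^ k * (φ a2 ^ n * β) := by rw [hx1]; ring
    rw [this]
    exact φ.range.mul_mem (φ.range.pow_mem ⟨a1, rfl⟩ k) hn)
  set x2 := φ a2 ^ l * x1 with hx2
  have h3 : φ a1 * x2 ∈ φ.range := by
    have : φ a1 * x2 = φ a2 ^ l * (φ a1 * x1) := by rw [hx2]; ring
    rw [this]
    exact φ.range.mul_mem (φ.range.pow_mem ⟨a2, rfl⟩ l) hk2
  obtain ⟨c1, hc1⟩ := h3
  obtain ⟨c2, hc2⟩ := hl2
  have h4 : a2 * c1 = a1 * c2 := by
    apply hφinj
    rw [map_mul, map_mul, hc1, hc2]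
    ring
  obtain ⟨d, hd⟩ := dvd_of_isWeaklyRegular hw h4
  have ha10 : φ a1 ≠ 0 := by
    intro h
    have h5 : a1 = 0 := hφinj (by rw [h, map_zero])
    rw [isWeaklyRegular_cons_iff] at hw
    have h6 := hw.1
    rw [h5] at h6
    have h7 := h6 (show (0 : C) • (1 : C) = (0 : C) • (0 : C) by simp)
    exact one_ne_zero h7
  apply hl1
  refine ⟨d, ?_⟩
  apply mul_left_cancel₀ ha10
  rw [← hc1, hd, map_mul]


/-- A criterion for the failure of `S_2`: `b` is an element of an overring `T` of `B` not in `B_q`,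
but every prime containing the conductor `{c | c b ∈ B}` contains `q`, and `dim B_q ≥ 2`. -/
theorem not_isSerreS2_of {B T : Type} [CommRing B] [IsDomain B] [CommRing T] [IsDomain T]
    (f : B →+* T) (hf : Function.Injective f) (q : Ideal B) [hq : q.IsPrime] (b : T)
    (h1 : ∀ q' : Ideal B, q'.IsPrime → (∀ c, f c * b ∈ f.range → c ∈ q') → q ≤ q')
    (h2 : ∀ s, s ∉ q → f s * b ∉ f.range)
    (hdim : 2 ≤ ringKrullDim (Localization.AtPrime q)) : ¬ IsSerreS2 B := by
  intro hS2
  obtain ⟨rs, hmem, hreg, hlen⟩ := hS2 q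
  rw [min_eq_left hdim] at hlen
  have hlen' : 2 ≤ rs.length := by exact_mod_cast hlen
  match rs, hlen' with
  | a1 :: a2 :: rs, _ =>
    exact no_regular_sequence f hf q b h1 h2 (Localization.AtPrime q) a1 a2 rs
      (hmem a1 (by simp)) (hmem a2 (by simp)) hreg.toIsWeaklyRegular

end Pool.Agent.Lib.MP_18dec4_ag
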