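import Pool.Agent.Lib.MP_18dec4_ag.HeightOneEx
import Pool.Agent.Lib.MP_18dec4_ag.NotS2

/-!
The closed fibre of the example is integral and not `S_2`.
-/

set_option linter.unusedSectionVars false

namespace Pool.Agent.Lib.MP_18dec4_ag

open MvPolynomial

variable (p : ℕ) [Fact p.Prime]

/-- the polynomial ring modulo `p` -/
abbrev Tp := MvPolynomial (Var p) (ZMod p)

/-- reduction modulo `p` -/
noncomputable def red : Sp p →+* Tp p := MvPolynomial.map PadicInt.toZMod

lemma red_X (v : Var p) : red p (X v) = X v := MvPolynomial.map_X _ _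

lemma red_p : red p (p : Sp p) = 0 := by
  rw [map_natCast]
  exact CharP.cast_eq_zero _ p

lemma red_eq_zero_iff (f : Sp p) : red p f = 0 ↔ (p : Sp p) ∣ f := by
  have h : ∀ r : ℤ_[p], PadicInt.toZMod r = 0 ↔ (p : ℤ_[p]) ∣ r := by
    intro r
    rw [← RingHom.mem_ker, PadicInt.ker_toZMod, PadicInt.maximalIdeal_eq_span_p,
      Ideal.mem_span_singleton]
  have h2 := MvPolynomial.C_dvd_iff_map_hom_eq_zero PadicInt.toZMod (p : ℤ_[p]) h f
  rw [map_natCast] at h2
  exact h2.symm

lemma red_surjective : Function.Surjective (red p) :=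
  MvPolynomial.map_surjective _ (ZMod.ringHom_surjective _)

/-- the substitution `x_i ↦ 0`, `y_i ↦ 0` for `i ≥ 1`, over `ℤ_p` -/
noncomputable def eps' : Sp p →+* Sp p :=
  (aeval fun v : Var p => if (v.2 : ℕ) = 0 then (X v : Sp p) else 0 : Sp p →ₐ[ℤ_[p]] Sp p).toRingHom

lemma eps'_X (v : Var p) : eps' p (X v) = if (v.2 : ℕ) = 0 then (X v : Sp p) else 0 := by
  change (aeval fun v : Var p => if (v.2 : ℕ) = 0 then (X v : Sp p) else 0) (X v) = _
  rw [aeval_X]

lemma eps'_C (a : ℤ_[p]) : eps' p (C a) = C a := by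
  change (aeval fun v : Var p => if (v.2 : ℕ) = 0 then (X v : Sp p) else 0) (C a) = _
  rw [aeval_C]; rfl

/-- the substitution modulo `p` -/
noncomputable def eps : Tp p →+* Tp p :=
  (aeval fun v : Var p => if (v.2 : ℕ) = 0 then (X v : Tp p) else 0 : Tp p →ₐ[ZMod p] Tp p).toRingHom

lemma eps_X (v : Var p) : eps p (X v) = if (v.2 : ℕ) = 0 then (X v : Tp p) else 0 := by
  change (aeval fun v : Var p => if (v.2 : ℕ) = 0 then (X v : Tp p) else 0) (X v) = _
  rw [aeval_X]

lemma eps_C (a : ZMod p) : eps p (C a) = C a := by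
  change (aeval fun v : Var p => if (v.2 : ℕ) = 0 then (X v : Tp p) else 0) (C a) = _
  rw [aeval_C]; rfl

lemma eps_red (f : Sp p) : eps p (red p f) = red p (eps' p f) := by
  have h : (eps p).comp (red p) = (red p).comp (eps' p) := by
    apply MvPolynomial.ringHom_ext
    · intro a
      rw [RingHom.comp_apply, RingHom.comp_apply, eps'_C, red, MvPolynomial.map_C, eps_C]
    · intro v
      rw [RingHom.comp_apply, RingHom.comp_apply, eps'_X, red_X, eps_X]
      split_ifs with h
      · rw [red_X]
      · rw [map_zero]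
  exact congrArg (fun g => g f) h

/-- the substitution `x_1 ↦ 0` modulo `p` -/
noncomputable def del (w : Var p) : Tp p →+* Tp p :=
  (aeval fun v : Var p => if v = w then 0 else (X v : Tp p) : Tp p →ₐ[ZMod p] Tp p).toRingHom

lemma del_X (w v : Var p) : del p w (X v) = if v = w then 0 else (X v : Tp p) := by
  change (aeval fun v : Var p => if v = w then 0 else (X v : Tp p)) (X v) = _
  rw [aeval_X]

lemma del_C (w : Var p) (a : ZMod p) : del p w (C a) = C a := by
  change (aeval fun v : Var p => if v = w then 0 else (X v : Tp p)) (C a) = _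
  rw [aeval_C]; rfl

lemma eps_del (w : Var p) (hw : (w.2 : ℕ) ≠ 0) (f : Tp p) : eps p (del p w f) = eps p f := by
  have h : (eps p).comp (del p w) = eps p := by
    apply MvPolynomial.ringHom_ext
    · intro a
      rw [RingHom.comp_apply, del_C]
    · intro v
      rw [RingHom.comp_apply, del_X]
      split_ifs with h
      · rw [h, eps_X, if_neg hw, map_zero]
      · rfl
  exact congrArg (fun g => g f) h

/-- a prime containing `p` and the `x_i, y_i` with `i ≥ 1` contains the kernel of `eps` -/
lemma mem_of_eps_red (Q : Ideal (Sp p)) (hp : (p : Sp p) ∈ Q)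
    (hX : ∀ (b : Bool) (i : Fin (p - 1)), 1 ≤ (i : ℕ) → (X (b, i) : Sp p) ∈ Q) (f : Sp p)
    (hf : eps p (red p f) = 0) : f ∈ Q := by
  rw [eps_red, red_eq_zero_iff] at hf
  obtain ⟨t, ht⟩ := hf
  have h : (Ideal.Quotient.mk Q).comp (eps' p) = Ideal.Quotient.mk Q := by
    apply MvPolynomial.ringHom_ext
    · intro a
      rw [RingHom.comp_apply, eps'_C]
    · rintro ⟨b, i⟩
      rw [RingHom.comp_apply, eps'_X]
      split_ifs with h
      · rfl
      · rw [map_zero]
        exact (Ideal.Quotient.eq_zero_iff_mem.2 (hX b i (Nat.one_le_iff_ne_zero.2 h))).symm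
  rw [← Ideal.Quotient.eq_zero_iff_mem, ← h, RingHom.comp_apply, ht, map_mul,
    Ideal.Quotient.eq_zero_iff_mem.2 hp, zero_mul]

/-- the binomial coefficients divided by `p` -/
lemma dvd_choose (k : Fin (p - 1)) : p ∣ p.choose (k + 1) := by
  have h := k.2
  exact (Fact.out : p.Prime).dvd_choose_self (by omega) (by omega)

/-- `σ` acts trivially on the top variables modulo `p` -/
lemma exists_sigAut_X_last (b : Bool) (i : Fin (p - 1)) (h : ¬ (i : ℕ) + 1 < p - 1) :
    sigAut p (X (b, i)) = X (b, i) -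
      (p : Sp p) * ∑ k : Fin (p - 1), ((p.choose (k + 1) / p : ℕ) : Sp p) * X (b, k) := by
  rw [sigAut_X_last p b i h, Finset.mul_sum]
  congr 1
  refine Finset.sum_congr rfl fun k _ => ?_
  rw [← mul_assoc]
  congr 1
  rw [← Nat.cast_mul, Nat.mul_div_cancel' (dvd_choose p k)]

lemma eps_red_sigAut (f : Sp p) : eps p (red p (sigAut p f)) = eps p (red p f) := by
  have h : ((eps p).comp (red p)).comp (sigAut p : Sp p →+* Sp p) = (eps p).comp (red p) := by
    apply MvPolynomial.ringHom_ext
    · intro a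
      rw [RingHom.comp_apply]
      congr 1
      exact (sigAut p).commutes a
    · rintro ⟨b, i⟩
      rw [RingHom.comp_apply, RingHom.comp_apply, RingHom.comp_apply]
      change eps p (red p (sigAut p (X (b, i)))) = _
      by_cases h : (i : ℕ) + 1 < p - 1
      · rw [sigAut_X_lt p b i h, map_add, map_add, red_X, red_X, eps_X p (b, ⟨i + 1, h⟩),
          if_neg (by simp), add_zero]
      · rw [exists_sigAut_X_last p b i h, map_sub, map_mul, red_p, zero_mul, sub_zero]
  exact congrArg (fun g => g f) h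

end Pool.Agent.Lib.MP_18dec4_ag
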