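import Mathlib

/-!
Primes containing all traces have nontrivial inertia.
-/

namespace Pool.Agent.Lib.MP_18dec4_ag

section

variable {G S : Type*} [Group G] [Fintype G] [CommRing S] [MulSemiringAction G S]

/-- the map `s ↦ g s mod Q` as a monoid homomorphism -/
def chi (Q : Ideal S) (g : G) : S →* S ⧸ Q where
  toFun s := Ideal.Quotient.mk Q (g • s)
  map_one' := by rw [smul_one, map_one]
  map_mul' a b := by rw [smul_mul', map_mul]

/-- If the trace of every element lies in the prime `Q`, then some non-trivial element of the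
group acts trivially modulo `Q`. -/
lemma exists_inert_of_trace (Q : Ideal S) [hQ : Q.IsPrime] (h : ∀ s : S, ∑ g : G, g • s ∈ Q) :
    ∃ k : G, k ≠ 1 ∧ ∀ s : S, k • s - s ∈ Q := by
  classical
  have hni : ¬ Function.Injective (chi Q : G → (S →* S ⧸ Q)) := by
    intro hinj
    have h1 := (linearIndependent_monoidHom S (S ⧸ Q)).comp (chi Q : G → (S →* S ⧸ Q)) hinj
    rw [Fintype.linearIndependent_iff] at h1
    have h2 := h1 (fun _ => 1) (by
      ext s
      rw [Finset.sum_apply, Pi.zero_apply]
      simp only [Function.comp_apply, one_smul]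
      have h3 := h s
      rw [← Ideal.Quotient.eq_zero_iff_mem, map_sum] at h3
      exact h3) 1
    exact one_ne_zero h2
  rw [Function.Injective] at hni
  push Not at hni
  obtain ⟨g, h', hgh, hne⟩ := hni
  refine ⟨g * h'⁻¹, ?_, ?_⟩
  · intro h1
    exact hne (mul_inv_eq_one.1 h1)
  · intro s
    rw [← Ideal.Quotient.eq_zero_iff_mem, map_sub, sub_eq_zero, mul_smul]
    have h2 : chi Q g (h'⁻¹ • s) = chi Q h' (h'⁻¹ • s) := by rw [hgh]
    change Ideal.Quotient.mk Q (g • h'⁻¹ • s) = _
    have h3 : chi Q h' (h'⁻¹ • s) = Ideal.Quotient.mk Q s := by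
      change Ideal.Quotient.mk Q (h' • h'⁻¹ • s) = _
      rw [smul_inv_smul]
    rw [← h3, ← h2]
    rfl

lemma inert_of_trace (hG : (Nat.card G).Prime) (Q : Ideal S) [hQ : Q.IsPrime]
    (h : ∀ s : S, ∑ g : G, g • s ∈ Q) (g : G) (s : S) : g • s - s ∈ Q := by
  have : Fact (Nat.card G).Prime := ⟨hG⟩
  obtain ⟨k, hk, hks⟩ := exists_inert_of_trace Q h
  obtain ⟨n, rfl⟩ := mem_powers_of_prime_card (p := Nat.card G) (g := k) (g' := g) rfl hk
  simp only
  induction n with
  | zero => simp
  | succ n ih =>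
    have h1 : k ^ (n + 1) • s - s = (k • (k ^ n • s) - k ^ n • s) + (k ^ n • s - s) := by
      rw [pow_succ', mul_smul]; ring
    rw [h1]
    exact Q.add_mem (hks _) ih

end

end Pool.Agent.Lib.MP_18dec4_ag
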