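import Pool.Agent.Lib.MP_18dec4_ag.Fiber
import Pool.Agent.Lib.MP_18dec4_ag.Inertia

/-!
The closed fibre of the example is not `S_2`.
-/

set_option linter.unusedSectionVars false

namespace Pool.Agent.Lib.MP_18dec4_ag

open MvPolynomial

variable (p : ℕ) [Fact p.Prime]

/-- the last index -/
def lastI (hp : 2 < p) : Fin (p - 1) := ⟨p - 2, by omega⟩

lemma lastI_not (hp : 2 < p) : ¬ (lastI p hp : ℕ) + 1 < p - 1 := by
  rw [lastI]; simp only; omega

lemma red_sig_last (hp : 2 < p) :
    red p (sigAut p (X (true, lastI p hp))) = red p (X (true, lastI p hp)) := by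
  rw [exists_sigAut_X_last p true _ (lastI_not p hp), map_sub, map_mul, red_p, zero_mul, sub_zero]

/-- every element of the group fixes the last variable modulo `p` -/
lemma red_smul_last (hp : 2 < p) (g : Gp p) (s : Sp p) :
    red p (g • (s * X (true, lastI p hp))) = red p (g • s) * red p (X (true, lastI p hp)) := by
  have h1 : ∀ g : Gp p, (p : Sp p) ∣ g • (X (true, lastI p hp) : Sp p) - X (true, lastI p hp) := by
    intro g
    obtain ⟨n, hn⟩ : ∃ n : ℕ, g₀ p ^ n = g := by
      have : Fact p.Prime := inferInstance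
      have h2 := mem_powers_of_prime_card (p := p) (g := g₀ p) (g' := g) (card_Gp p hp)
        (g₀_ne_one p hp)
      obtain ⟨n, hn⟩ := h2
      exact ⟨n, hn⟩
    subst hn
    induction n with
    | zero => simp
    | succ n ih =>
      have h3 : g₀ p ^ (n + 1) • (X (true, lastI p hp) : Sp p) - X (true, lastI p hp) =
          g₀ p • (g₀ p ^ n • (X (true, lastI p hp) : Sp p) - X (true, lastI p hp)) +
          (g₀ p • (X (true, lastI p hp) : Sp p) - X (true, lastI p hp)) := by
        rw [pow_succ', mul_smul, smul_sub]; ring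
      rw [h3]
      refine dvd_add ?_ ?_
      · obtain ⟨c, hc⟩ := ih
        rw [hc, smul_mul']
        refine ⟨g₀ p • c, ?_⟩
        congr 1
        exact map_natCast (MulSemiringAction.toRingHom (Gp p) (Sp p) (g₀ p)) p
      · rw [← red_eq_zero_iff, map_sub, g₀_smul, red_sig_last, sub_self]
  rw [smul_mul', map_mul]
  congr 1
  have h4 := (red_eq_zero_iff p _).2 (h1 g)
  rwa [map_sub, sub_eq_zero] at h4

section

variable {B : Type} [CommRing B] (π : Ap p →+* B) (hπ : Function.Surjective π)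
  (e : B →+* Tp p) (he : ∀ a, e (π a) = red p (a : Sp p))

include he hπ in
/-- the point `q = ker(eps) ∩ B` is the smallest prime containing the conductor of `x_{p-2}` -/
lemma qB_le (hp : 2 < p) (hp0 : π (p : Ap p) = 0) (q' : Ideal B) (hq' : q'.IsPrime)
    (h : ∀ c, e c * red p (X (true, lastI p hp)) ∈ e.range → c ∈ q') :
    (RingHom.ker (eps p)).comap e ≤ q' := by
  classical
  have hfin := finite_Gp p hp
  have hft := Fintype.ofFinite (Gp p)
  have hint := isIntegral_Ap p hp
  let qA : Ideal (Ap p) := q'.comap π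
  have hqA : qA.IsPrime := Ideal.comap_isPrime _ _
  obtain ⟨Q, -, hQ, hQA⟩ := Ideal.exists_ideal_over_prime_of_isIntegral qA (⊥ : Ideal (Sp p)) (by
    rw [← RingHom.ker_eq_comap_bot, (RingHom.injective_iff_ker_eq_bot _).1
      (algebraMap_Ap_injective p)]
    exact bot_le)
  have hTr : ∀ s : Sp p, ∑ g : Gp p, g • s ∈ Q := by
    intro s
    have h1 : ∀ s : Sp p, (∑ g : Gp p, g • s) ∈ Ap p := by
      intro s g
      rw [Finset.smul_sum]
      exact Fintype.sum_equiv (Equiv.mulLeft g) _ _ fun g' => by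
        rw [Equiv.coe_mulLeft, mul_smul]
    have h2 : (⟨_, h1 s⟩ : Ap p) ∈ qA := by
      apply h
      refine ⟨π ⟨_, h1 (s * X (true, lastI p hp))⟩, ?_⟩
      rw [he, he]
      simp only
      rw [map_sum, map_sum, Finset.sum_mul]
      exact Finset.sum_congr rfl fun g _ => red_smul_last p hp g s
    rw [← hQA] at h2
    exact h2
  have hin := inert_of_trace (by rw [card_Gp p hp]; exact Fact.out) Q hTr
  have hpQ : (p : Sp p) ∈ Q := by
    have h3 : (p : Ap p) ∈ qA := by
      change π _ ∈ q'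
      rw [hp0]
      exact q'.zero_mem
    rw [← hQA] at h3
    exact h3
  intro c hc
  obtain ⟨a, rfl⟩ := hπ c
  rw [Ideal.mem_comap, RingHom.mem_ker, he] at hc
  have h4 := mem_of_eps_red p Q hpQ
    (fun b i hi => nu_X_mem p Q (fun s g => hin g s) b i hi) _ hc
  have h5 : a ∈ Q.comap (algebraMap (Ap p) (Sp p)) := h4
  rw [hQA] at h5
  exact h5

include he hπ in
lemma not_range_of_notMem (hp : 2 < p) (s : B) (hs : s ∉ (RingHom.ker (eps p)).comap e) :
    e s * red p (X (true, lastI p hp)) ∉ e.range := by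
  rintro ⟨c, hc⟩
  obtain ⟨s, rfl⟩ := hπ s
  obtain ⟨a, rfl⟩ := hπ c
  apply hs
  rw [Ideal.mem_comap, RingHom.mem_ker, he]
  rw [he, he, ← map_mul] at hc
  have h1 : (p : Sp p) ∣ (s : Sp p) * X (true, lastI p hp) - (a : Sp p) := by
    rw [← red_eq_zero_iff, map_sub, ← hc, sub_self]
  obtain ⟨t, ht⟩ := h1
  have h2 := congrArg (sigAut p) ht
  rw [map_sub, map_mul, map_mul, map_natCast] at h2
  have hs' : sigAut p (s : Sp p) = s := s.2 (g₀ p)
  have ha' : sigAut p (a : Sp p) = a := a.2 (g₀ p)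
  rw [hs', ha', exists_sigAut_X_last p true _ (lastI_not p hp)] at h2
  have h3 : (p : Sp p) * ((s : Sp p) * (-
      ∑ k : Fin (p - 1), ((p.choose (k + 1) / p : ℕ) : Sp p) * X (true, k))) =
      (p : Sp p) * (sigAut p t - t) := by
    rw [mul_sub, ← h2, ← ht]; ring
  have h4 := mul_left_cancel₀ (prime_p_Sp p).ne_zero h3
  have h5 := congrArg (fun f => eps p (red p f)) h4
  rw [map_sub, map_sub, eps_red_sigAut, sub_self, map_mul, map_mul] at h5
  rcases mul_eq_zero.1 h5 with h6 | h6
  · exact h6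
  · exfalso
    have h0 : 0 < p - 1 := by omega
    rw [map_neg, map_neg, neg_eq_zero, map_sum, map_sum, Finset.sum_eq_single ⟨0, h0⟩] at h6
    · rw [map_mul, map_mul, red_X, eps_X, if_pos rfl, map_natCast, map_natCast] at h6
      simp only [zero_add, Nat.choose_one_right, Nat.div_self (by omega : 0 < p), Nat.cast_one,
        one_mul] at h6
      exact MvPolynomial.X_ne_zero _ h6
    · intro k _ hk
      rw [map_mul, map_mul, red_X, eps_X, if_neg, mul_zero]
      intro h
      exact hk (Fin.ext h)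
    · intro h; exact absurd (Finset.mem_univ _) h

end

lemma two_le_height_of {B T : Type} [CommRing B] [IsDomain B] [CommRing T] [IsDomain T]
    (f : B →+* T) (hf : f.IsIntegral) (q : Ideal B) (P1 P2 : Ideal T)
    [hP1 : P1.IsPrime] [hP2 : P2.IsPrime] (h12 : P1 < P2) (hq : P2.comap f = q) (x : T)
    (hx : x ∈ P1) (hx0 : x ≠ 0) : 2 ≤ q.height := by
  let _ : Algebra B T := f.toAlgebra
  have hint : Algebra.IsIntegral B T := ⟨hf⟩
  let q1 : Ideal B := P1.comap (algebraMap B T)
  have hq1 : q1.IsPrime := Ideal.comap_isPrime _ _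
  have hqp : q.IsPrime := by rw [← hq]; exact Ideal.comap_isPrime _ _
  have h2 : q1 < q := by
    rw [← hq]
    exact Ideal.IsIntegral.comap_lt_comap (R := B) (A := T) h12
  have h3 : q1 ≠ ⊥ := Ideal.comap_ne_bot_of_integral_mem hx0 hx (Algebra.IsIntegral.isIntegral _)
  have h5 : (⊥ : Ideal B) < q1 := bot_lt_iff_ne_bot.2 h3
  have h6 := Ideal.height_add_one_le_of_lt_of_isPrime h5
  have h7 := Ideal.height_add_one_le_of_lt_of_isPrime h2
  calc (2 : ℕ∞) = 0 + 1 + 1 := by norm_num
    _ ≤ (⊥ : Ideal B).height + 1 + 1 := by gcongr; exact zero_le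
    _ ≤ q1.height + 1 := by gcongr
    _ ≤ _ := h7

lemma two_le_dim_of {B T : Type} [CommRing B] [IsDomain B] [CommRing T] [IsDomain T]
    (f : B →+* T) (hf : f.IsIntegral) (q : Ideal B) [hqp : q.IsPrime] (P1 P2 : Ideal T)
    [hP1 : P1.IsPrime] [hP2 : P2.IsPrime] (h12 : P1 < P2) (hq : P2.comap f = q) (x : T)
    (hx : x ∈ P1) (hx0 : x ≠ 0) : 2 ≤ ringKrullDim (Localization.AtPrime q) := by
  rw [IsLocalization.AtPrime.ringKrullDim_eq_height q (Localization.AtPrime q)]
  have h := two_le_height_of f hf q P1 P2 h12 hq x hx hx0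
  have h2 : ((2 : ℕ∞) : WithBot ℕ∞) ≤ (q.height : WithBot ℕ∞) := WithBot.coe_le_coe.2 h
  exact h2

lemma e_isIntegral (hp : 2 < p) {B : Type} [CommRing B] (π : Ap p →+* B)
    (e : B →+* Tp p) (he : ∀ a, e (π a) = red p (a : Sp p)) : e.IsIntegral := by
  have hint := isIntegral_Ap p hp
  have h1 : ((red p).comp (algebraMap (Ap p) (Sp p))).IsIntegral :=
    RingHom.IsIntegral.trans _ _ (algebraMap_isIntegral_iff.2 hint)
      (RingHom.isIntegral_of_surjective _ (red_surjective p))
  have h2 : (red p).comp (algebraMap (Ap p) (Sp p)) = e.comp π := by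
    ext a : 1
    exact (he a).symm
  rw [h2] at h1
  exact RingHom.IsIntegral.tower_top π e h1

lemma ker_del_lt (w : Var p) (hw : (w.2 : ℕ) ≠ 0) (w' : Var p) (hw' : (w'.2 : ℕ) ≠ 0)
    (hne : w' ≠ w) : RingHom.ker (del p w) < RingHom.ker (eps p) := by
  refine lt_of_le_of_ne ?_ ?_
  · intro f hf
    rw [RingHom.mem_ker] at hf ⊢
    rw [← eps_del p w hw, hf, map_zero]
  · intro h
    have h2 : (X w' : Tp p) ∈ RingHom.ker (eps p) := by
      rw [RingHom.mem_ker, eps_X, if_neg hw']
    rw [← h, RingHom.mem_ker, del_X, if_neg hne] at h2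
    exact MvPolynomial.X_ne_zero _ h2

/-- The closed fibre is not `S_2`, abstract form. -/
theorem not_isSerreS2_of_fiber (hp : 2 < p) {B : Type} [CommRing B] [IsDomain B] (π : Ap p →+* B)
    (hπ : Function.Surjective π) (hp0 : π (p : Ap p) = 0)
    (e : B →+* Tp p) (he : ∀ a, e (π a) = red p (a : Sp p)) (hinj : Function.Injective e) :
    ¬ IsSerreS2 B := by
  have h1 : 1 < p - 1 := by omega
  have hprime : (RingHom.ker (del p (true, ⟨1, h1⟩))).IsPrime := RingHom.ker_isPrime _
  have hprime0 : (RingHom.ker (eps p)).IsPrime := RingHom.ker_isPrime _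
  have hq : ((RingHom.ker (eps p)).comap e).IsPrime := Ideal.comap_isPrime _ _
  refine not_isSerreS2_of e hinj ((RingHom.ker (eps p)).comap e)
    (red p (X (true, lastI p hp)))
    (fun q' hq' h => qB_le p π hπ e he hp hp0 q' hq' h)
    (fun s hs => not_range_of_notMem p π hπ e he hp s hs) ?_
  refine two_le_dim_of e (e_isIntegral p hp π e he) ((RingHom.ker (eps p)).comap e)
    (RingHom.ker (del p (true, ⟨1, h1⟩))) (RingHom.ker (eps p))
    (ker_del_lt p _ (by simp) (false, ⟨1, h1⟩) (by simp) (by simp)) rfl (X (true, ⟨1, h1⟩)) ?_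
    (MvPolynomial.X_ne_zero _)
  rw [RingHom.mem_ker, del_X, if_pos rfl]

/-- The closed fibre is not `S_2`. -/
theorem not_isSerreS2_Ap (hp : 2 < p) : ¬ IsSerreS2 (Ap p ⧸ Ideal.span {(p : Ap p)}) := by
  have h1 : ∀ a ∈ Ideal.span {(p : Ap p)}, ((red p).comp (algebraMap (Ap p) (Sp p))) a = 0 := by
    intro a ha
    rw [Ideal.mem_span_singleton] at ha
    obtain ⟨c, rfl⟩ := ha
    rw [map_mul, map_natCast, CharP.cast_eq_zero _ p, zero_mul]
  refine not_isSerreS2_of_fiber p hp (Ideal.Quotient.mk (Ideal.span {(p : Ap p)}))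
    Ideal.Quotient.mk_surjective ?_ (Ideal.Quotient.lift _ _ h1) (fun a => rfl) ?_
  · exact Ideal.Quotient.eq_zero_iff_mem.2 (Ideal.mem_span_singleton_self _)
  · rw [injective_iff_map_eq_zero]
    intro x hx
    obtain ⟨a, rfl⟩ := Ideal.Quotient.mk_surjective x
    have h2 : red p (a : Sp p) = 0 := hx
    rw [red_eq_zero_iff] at h2
    rw [Ideal.Quotient.eq_zero_iff_mem, Ideal.mem_span_singleton]
    exact dvd_Ap_of_dvd_Sp p h2

end Pool.Agent.Lib.MP_18dec4_ag
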