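import Pool.Agent.Lib.MP_18dec4_ag.Length

/-!
The invariant top form `dX_1 ∧ ... ∧ dX_d` comes from a basis downstairs.
-/

set_option linter.unusedSectionVars false

namespace Pool.Agent.Lib.MP_18dec4_ag

open KaehlerDifferential Algebra TensorProduct

section

lemma exists_basis_D' (O κ : Type*) [CommRing O] [Field κ] [Algebra O κ]
    [Module.Finite κ Ω[κ⁄O]] :
    ∃ (z : Fin (Module.finrank κ Ω[κ⁄O]) → κ) (b : Module.Basis (Fin (Module.finrank κ Ω[κ⁄O]))
      κ Ω[κ⁄O]), ∀ i, b i = D O κ (z i) := by
  have h0 : (⊤ : Submodule κ Ω[κ⁄O]) ≤ Submodule.span κ (Set.range (D O κ)) :=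
    (KaehlerDifferential.span_range_derivation O κ).ge
  let b₀ := Module.Basis.ofSpan h0
  have h1 := Module.Basis.ofSpan_subset h0
  have : Fintype _ := FiniteDimensional.fintypeBasisIndex b₀
  have hc := Module.finrank_eq_card_basis b₀
  let e : _ ≃ Fin (Module.finrank κ Ω[κ⁄O]) := Fintype.equivFinOfCardEq hc.symm
  have h2 : ∀ i, ∃ z : κ, D O κ z = (b₀.reindex e) i := by
    intro i
    have : (b₀.reindex e) i ∈ Set.range b₀ := by
      rw [Module.Basis.reindex_apply]; exact ⟨_, rfl⟩
    exact h1 this
  choose z hz using h2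
  exact ⟨z, b₀.reindex e, fun i => (hz i).symm⟩

variable {O K L G : Type*} [CommRing O] [Field K] [Field L] [CharZero K] [Algebra O K]
  [Algebra O L] [Algebra K L] [IsScalarTower O K L] [Group G] [Finite G] [MulSemiringAction G L]
  [IsGaloisGroup G K L]

variable (G) in
include G in
/-- A `K`-basis of `Ω_K` gives an `L`-basis of `Ω_L`. -/
lemma exists_basis_up {ι : Type*} (b : Module.Basis ι K Ω[K⁄O]) :
    ∃ b' : Module.Basis ι L Ω[L⁄O], ∀ i, KaehlerDifferential.map O O K L (b i) = b' i := by
  have hfd : FiniteDimensional K L := IsGaloisGroup.finiteDimensional G K L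
  have hsep : Algebra.IsSeparable K L := inferInstance
  have het : FormallyEtale K L := FormallyEtale.of_isSeparable K L
  have hbc : IsBaseChange L (KaehlerDifferential.map O O K L) :=
    KaehlerDifferential.isBaseChange_of_formallyEtale O K L
  refine ⟨(b.baseChange L).map hbc.equiv, fun i => ?_⟩
  rw [Module.Basis.map_apply, Module.Basis.baseChange_apply, IsBaseChange.equiv_tmul, one_smul]

variable (G) in
/-- The coordinate derivations commute with the Galois action. -/
lemma coord_comm {ι : Type*} (b : Module.Basis ι K Ω[K⁄O]) (b' : Module.Basis ι L Ω[L⁄O])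
    (hb : ∀ i, KaehlerDifferential.map O O K L (b i) = b' i) (g : G) (i : ι) (x : L) :
    b'.repr (D O L (g • x)) i = g • b'.repr (D O L x) i := by
  classical
  have hfd : FiniteDimensional K L := IsGaloisGroup.finiteDimensional G K L
  have hcomm : SMulCommClass G K L := IsGaloisGroup.commutes
  have hcommO : SMulCommClass G O L := by
    constructor
    intro g r x
    rw [Algebra.smul_def, IsScalarTower.algebraMap_apply O K L, smul_mul', smul_algebraMap,
      Algebra.smul_def, IsScalarTower.algebraMap_apply O K L]
  have hsep : Algebra.IsSeparable K L := inferInstance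
  have hunr : FormallyUnramified K L := FormallyUnramified.of_isSeparable K L
  have hsub : Subsingleton Ω[L⁄K] := inferInstance
  -- on `K`
  have hK : ∀ a : K, b'.repr (D O L (algebraMap K L a)) i =
      algebraMap K L (b.repr (D O K a) i) := by
    intro a
    have h1 : D O L (algebraMap K L a) = KaehlerDifferential.map O O K L (D O K a) :=
      (KaehlerDifferential.map_D O O K L a).symm
    have h2 : KaehlerDifferential.map O O K L (D O K a) =
        (b.repr (D O K a)).sum fun k c => algebraMap K L c • b' k := by
      conv_lhs => rw [← b.linearCombination_repr (D O K a), Finsupp.linearCombination_apply,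
        Finsupp.sum, map_sum]
      rw [Finsupp.sum]
      refine Finset.sum_congr rfl fun k _ => ?_
      rw [map_smul, hb, algebraMap_smul]
    rw [h1, h2, Finsupp.sum, map_sum, Finsupp.finsetSum_apply]
    by_cases hi : i ∈ (b.repr (D O K a)).support
    · rw [Finset.sum_eq_single i]
      · rw [map_smul, Module.Basis.repr_self, Finsupp.smul_apply, Finsupp.single_eq_same,
          smul_eq_mul, mul_one]
      · intro k _ hk
        rw [map_smul, Module.Basis.repr_self, Finsupp.smul_apply, Finsupp.single_apply,
          if_neg hk, smul_zero]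
      · intro h; exact absurd hi h
    · rw [Finset.sum_eq_zero]
      · rw [Finsupp.notMem_support_iff] at hi
        rw [hi, map_zero]
      · intro k hk
        have hne : k ≠ i := by rintro rfl; exact hi hk
        rw [map_smul, Module.Basis.repr_self, Finsupp.smul_apply, Finsupp.single_apply,
          if_neg hne, smul_zero]
  -- the difference derivation
  have hleib : ∀ x y : L, b'.repr (D O L (x * y)) i =
      x * b'.repr (D O L y) i + y * b'.repr (D O L x) i := by
    intro x y
    rw [Derivation.leibniz, map_add, map_smul, map_smul, Finsupp.add_apply, Finsupp.smul_apply,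
      Finsupp.smul_apply, smul_eq_mul, smul_eq_mul]
  have hadd : ∀ x y : L, b'.repr (D O L (x + y)) i =
      b'.repr (D O L x) i + b'.repr (D O L y) i := by
    intro x y
    rw [map_add, map_add, Finsupp.add_apply]
  let Δ : L → L := fun x => g⁻¹ • b'.repr (D O L (g • x)) i - b'.repr (D O L x) i
  have hΔmul : ∀ x y, Δ (x * y) = x * Δ y + y * Δ x := by
    intro x y
    simp only [Δ]
    rw [smul_mul', hleib, hleib, smul_add, smul_mul', smul_mul', inv_smul_smul, inv_smul_smul]
    ring
  have hΔK : ∀ a : K, Δ (algebraMap K L a) = 0 := by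
    intro a
    simp only [Δ]
    rw [smul_algebraMap, hK, smul_algebraMap, sub_self]
  let D' : Derivation K L L := Derivation.mk'
    { toFun := Δ
      map_add' := by
        intro x y
        simp only [Δ]
        rw [smul_add, hadd, hadd, smul_add]
        ring
      map_smul' := by
        intro a x
        rw [Algebra.smul_def, hΔmul, hΔK, mul_zero, add_zero, RingHom.id_apply, Algebra.smul_def] }
    (by
      intro x y
      exact hΔmul x y)
  have h0 : ∀ x, Δ x = 0 := by
    intro x
    have : D' x = 0 := by
      rw [← Derivation.liftKaehlerDifferential_comp_D D' x,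
        Subsingleton.elim (D K L x) 0, map_zero]
    exact this
  have := h0 x
  simp only [Δ] at this
  rw [sub_eq_zero, inv_smul_eq_iff] at this
  exact this

/-- The invariant top form. -/
theorem exists_invariant_basis [EssFiniteType O K] {d : ℕ} (hd : 0 < d)
    (hG : (Nat.card G).Prime) {g₀ : G} (hg₀ : g₀ ≠ 1)
    (X : Fin d → L) (B : Module.Basis (Fin d) L Ω[L⁄O]) (hB : ∀ i, B i = D O L (X i))
    (J : Matrix (Fin d) (Fin d) ℤ) (hJ : J.det = 1)
    (hX : ∀ i, g₀ • X i = ∑ j, (J i j : L) * X j) :
    ∃ (β : Module.Basis (Fin d) K Ω[K⁄O]) (β' : Module.Basis (Fin d) L Ω[L⁄O]),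
      (∀ i, KaehlerDifferential.map O O K L (β i) = β' i) ∧
      β'.det (fun i => D O L (X i)) = 1 := by
  have : Fact (Nat.card G).Prime := ⟨hG⟩
  obtain ⟨z, b₀, _⟩ := exists_basis_D' O K
  obtain ⟨b₀', hb₀'⟩ := exists_basis_up (L := L) G b₀
  have hcard : Module.finrank K Ω[K⁄O] = d := by
    have h1 := Module.finrank_eq_card_basis b₀'
    have h2 := Module.finrank_eq_card_basis B
    rw [Fintype.card_fin] at h1 h2
    rw [← h1, h2]
  let b := b₀.reindex (finCongr hcard)
  let b' := b₀'.reindex (finCongr hcard)
  have hb : ∀ i, KaehlerDifferential.map O O K L (b i) = b' i := by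
    intro i
    simp only [b, b', Module.Basis.reindex_apply]
    exact hb₀' _
  set c := b'.det (fun i => D O L (X i)) with hc
  have hc0 : c ≠ 0 := by
    have h1 : IsUnit (b'.det (fun i => D O L (X i))) := by
      rw [← Module.Basis.is_basis_iff_det]
      have h2 : (fun i => D O L (X i)) = B := by ext i; rw [hB]
      rw [h2]
      exact ⟨B.linearIndependent, B.span_eq⟩
    exact h1.ne_zero
  -- invariance
  have hinv : g₀ • c = c := by
    have hT : g₀ • c = (b'.toMatrix (fun i => D O L (g₀ • X i))).det := by
      rw [hc, Module.Basis.det_apply, ← MulSemiringAction.toRingHom_apply, RingHom.map_det]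
      congr 1
      ext i j
      rw [RingHom.mapMatrix_apply, Matrix.map_apply, Module.Basis.toMatrix_apply,
        Module.Basis.toMatrix_apply, MulSemiringAction.toRingHom_apply, coord_comm G b b' hb]
    rw [hT]
    have hD : ∀ i, D O L (g₀ • X i) = ∑ j, (J i j : L) • D O L (X j) := by
      intro i
      rw [hX, map_sum]
      refine Finset.sum_congr rfl fun j _ => ?_
      rw [Derivation.leibniz, Derivation.map_intCast, smul_zero, add_zero]
    have h1 : b'.det (fun i => D O L (g₀ • X i)) =
        (J.map (Int.castRingHom L)).det * b'.det (fun i => D O L (X i)) :=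
      det_of_comb b' (fun i => D O L (X i)) (fun i => D O L (g₀ • X i))
        (J.map (Int.castRingHom L)) (fun i => hD i)
    rw [Module.Basis.det_apply] at h1
    rw [h1]
    have h2 : (J.map (Int.castRingHom L)).det = 1 := by
      have := RingHom.map_det (Int.castRingHom L) J
      rw [hJ, map_one] at this
      rw [← RingHom.mapMatrix_apply]
      exact this.symm
    rw [h2, one_mul]
  have hinv' : ∀ g : G, g • c = c := by
    intro g
    have h1 : g ∈ Subgroup.zpowers g₀ := mem_zpowers_of_prime_card (p := Nat.card G) rfl hg₀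
    have h2 : Subgroup.zpowers g₀ ≤ MulAction.stabilizer G c := by
      rw [Subgroup.zpowers_le]
      exact MulAction.mem_stabilizer_iff.2 hinv
    exact MulAction.mem_stabilizer_iff.1 (h2 h1)
  have hisinv : Algebra.IsInvariant K L G := IsGaloisGroup.isInvariant
  obtain ⟨c₀, hc₀⟩ := hisinv.isInvariant c hinv'
  have hc₀0 : c₀ ≠ 0 := by
    rintro rfl
    rw [map_zero] at hc₀
    exact hc0 hc₀.symm
  let i₀ : Fin d := ⟨0, hd⟩
  let w : Fin d → Kˣ := fun i => if i = i₀ then Units.mk0 c₀ hc₀0 else 1
  let w' : Fin d → Lˣ := fun i => if i = i₀ then Units.mk0 c hc0 else 1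
  have hprod : ∏ i, w' i = Units.mk0 c hc0 := by
    simp only [w']
    rw [Finset.prod_ite_eq' Finset.univ i₀]
    simp
  refine ⟨b.unitsSMul w, b'.unitsSMul w', fun i => ?_, ?_⟩
  · rw [Module.Basis.unitsSMul_apply, Module.Basis.unitsSMul_apply]
    by_cases hi : i = i₀
    · simp only [w, w', hi, if_true, Units.smul_def, Units.val_mk0, map_smul, hb]
      rw [← hc₀, algebraMap_smul]
    · simp only [w, w', hi, if_false, one_smul, hb]
  · rw [Module.Basis.det_unitsSMul, hprod]
    rw [AlternatingMap.smul_apply, ← hc, smul_eq_mul]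
    simp [hc0]

end

end Pool.Agent.Lib.MP_18dec4_ag
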