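import Mathlib

/-!
Galois extensions `C/R`: unramifiedness at a prime with a separating element.
-/

set_option linter.unusedSectionVars false

namespace Pool.Agent.Lib.MP_18dec4_ag

open Polynomial KaehlerDifferential Algebra

section

variable {G R C : Type*} [Group G] [Fintype G] [CommRing R] [CommRing C] [Algebra R C]
  [MulSemiringAction G C] [Algebra.IsInvariant R C G]

/-- The product `∏_{g ≠ 1} (z - g z)`. -/
noncomputable def diffProd (G : Type*) {C : Type*} [Group G] [Fintype G] [CommRing C]
    [MulSemiringAction G C] (z : C) : C := by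
  classical exact ∏ g ∈ Finset.univ.erase (1 : G), (z - g • z)

/-- The polynomial `∏_{g ≠ 1} (X - g z)`. -/
noncomputable def quotPoly (G : Type*) {C : Type*} [Group G] [Fintype G] [CommRing C]
    [MulSemiringAction G C] (z : C) : C[X] := by
  classical exact ∏ g ∈ Finset.univ.erase (1 : G), (X - Polynomial.C (g • z))

lemma eval_quotPoly (z : C) : (quotPoly G z).eval z = diffProd G z := by
  classical
  simp only [quotPoly, diffProd, eval_prod, eval_sub, eval_X, eval_C]

lemma charpoly_eq_mul (z : C) :
    MulSemiringAction.charpoly G z = (X - Polynomial.C z) * quotPoly G z := by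
  classical
  rw [MulSemiringAction.charpoly_eq, quotPoly, ← Finset.mul_prod_erase Finset.univ _
    (Finset.mem_univ (1 : G)), one_smul]

variable (R) in
/-- the characteristic polynomial over `R` -/
lemma exists_charpoly (z : C) : ∃ h : R[X], aeval z h = 0 ∧
    aeval z (derivative h) = diffProd G z := by
  obtain ⟨h, hh⟩ := (Polynomial.mem_lifts _).1
    (Algebra.IsInvariant.charpoly_mem_lifts R C G z)
  refine ⟨h, ?_, ?_⟩
  · rw [aeval_def, ← eval_map, hh, MulSemiringAction.eval_charpoly]
  · rw [aeval_def, ← eval_map, ← derivative_map, hh, charpoly_eq_mul, derivative_mul, eval_add,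
      eval_mul, eval_mul, eval_quotPoly]
    simp

variable (R) in
/-- Lagrange interpolation: `c ∏_{g ≠ 1} (z - g z)` is a polynomial in `z` over `R`. -/
lemma exists_lagrange (z c : C) : ∃ f : R[X], aeval z f = c * diffProd G z := by
  classical
  let P : C[X] := Polynomial.C c * quotPoly G z
  let F : C[X] := ∑ g : G, g • P
  have hF : ∀ g : G, g • F = F := by
    intro g
    simp only [F]
    rw [Finset.smul_sum]
    simp only [← mul_smul]
    exact Fintype.sum_equiv (Equiv.mulLeft g) _ _ (fun _ => rfl)
  have hlift : F ∈ Polynomial.lifts (algebraMap R C) := by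
    rw [Polynomial.lifts_iff_coeff_lifts]
    intro n
    refine Algebra.IsInvariant.isInvariant (G := G) (F.coeff n) fun g => ?_
    rw [← coeff_smul, hF]
  obtain ⟨f, hf⟩ := (Polynomial.mem_lifts _).1 hlift
  refine ⟨f, ?_⟩
  rw [aeval_def, ← eval_map, hf]
  simp only [F, eval_finsetSum]
  rw [Finset.sum_eq_single (1 : G)]
  · rw [one_smul]
    simp only [P, eval_mul, eval_C, eval_quotPoly]
  · intro g _ hg
    simp only [P, quotPoly, smul_mul', Finset.smul_prod', eval_mul, eval_prod]
    refine mul_eq_zero_of_right _ (Finset.prod_eq_zero (i := g⁻¹) ?_ ?_)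
    · simp [hg]
    · simp [smul_sub, ← mul_smul]
  · intro h; exact absurd (Finset.mem_univ _) h

/-- If `z - g z ∉ 𝔮` for all `g ≠ 1` then `C_𝔮 / R` is formally unramified. -/
theorem formallyUnramified_of_separating {R' : Type*} [CommRing R'] [Algebra C R'] [Algebra R R']
    [IsScalarTower R C R'] (𝔮 : Ideal C) [𝔮.IsPrime] [IsLocalization.AtPrime R' 𝔮]
    (z : C) (hz : ∀ g : G, g ≠ 1 → z - g • z ∉ 𝔮) : FormallyUnramified R R' := by
  classical
  have hq : diffProd G z ∉ 𝔮 := by
    rw [diffProd]
    intro h
    obtain ⟨g, hg, hg'⟩ := (Ideal.IsPrime.prod_mem_iff).1 h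
    exact hz g (Finset.ne_of_mem_erase hg) hg'
  have hunit : IsUnit (algebraMap C R' (diffProd G z)) :=
    IsLocalization.map_units R' (⟨_, hq⟩ : 𝔮.primeCompl)
  -- cancel units
  have hcancel : ∀ (u : R') (w : Ω[R'⁄R]), IsUnit u → u • w = 0 → w = 0 := by
    intro u w hu h
    exact (hu.smul_eq_zero).1 h
  have hDz : D R R' (algebraMap C R' z) = 0 := by
    obtain ⟨h, h0, h1⟩ := exists_charpoly R (G := G) z
    have h2 : D R R' (aeval (algebraMap C R' z) h) =
        aeval (algebraMap C R' z) (derivative h) • D R R' (algebraMap C R' z) :=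
      Derivation.map_aeval _ _ _
    rw [aeval_algebraMap_apply, aeval_algebraMap_apply, h0, h1, map_zero, map_zero] at h2
    exact hcancel _ _ hunit h2.symm
  have hDpoly : ∀ f : R[X], D R R' (algebraMap C R' (aeval z f)) = 0 := by
    intro f
    rw [← aeval_algebraMap_apply, Derivation.map_aeval, hDz, smul_zero]
  have hDc : ∀ c : C, D R R' (algebraMap C R' c) = 0 := by
    intro c
    obtain ⟨f, hf⟩ := exists_lagrange R (G := G) z c
    obtain ⟨f₁, hf₁⟩ := exists_lagrange R (G := G) z (1 : C)
    have h1 := hDpoly f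
    have h2 := hDpoly f₁
    rw [hf, map_mul, Derivation.leibniz] at h1
    rw [hf₁, one_mul] at h2
    rw [h2, smul_zero, zero_add] at h1
    exact hcancel _ _ hunit h1
  have hD : ∀ a : R', D R R' a = 0 := by
    intro a
    obtain ⟨c, s, rfl⟩ := IsLocalization.exists_mk'_eq 𝔮.primeCompl a
    have h1 : algebraMap C R' s * IsLocalization.mk' R' c s = algebraMap C R' c :=
      IsLocalization.mk'_spec' R' c s
    have h2 := congrArg (D R R') h1
    rw [Derivation.leibniz, hDc, hDc, smul_zero, add_zero] at h2
    exact hcancel _ _ (IsLocalization.map_units R' s) h2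
  constructor
  have h2 : (⊤ : Submodule R' Ω[R'⁄R]) = ⊥ := by
    rw [← KaehlerDifferential.span_range_derivation, Submodule.span_eq_bot]
    rintro _ ⟨c, rfl⟩
    exact hD c
  exact (Submodule.subsingleton_iff _).1 (subsingleton_of_bot_eq_top h2.symm)

end

end Pool.Agent.Lib.MP_18dec4_ag
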