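import Pool.Agent.Lib.MP_18dec4_ag.Setting

/-!
Divisors with centre of height one.
-/

set_option linter.unusedSectionVars false

namespace Pool.Agent.Lib.MP_18dec4_ag

open KaehlerDifferential Algebra

section heightone

variable {A K : Type} [CommRing A] [IsDomain A] [Field K] [Algebra A K] [IsFractionRing A K]

omit [IsFractionRing A K] [IsDomain A] [Field K] [Algebra A K] in
lemma eq_of_le_height_one [IsDomain A] {P Q : Ideal A} [P.IsPrime] [Q.IsPrime] (hQ : Q.height = 1)
    (hle : P ≤ Q) (hP : P ≠ ⊥) : P = Q := by
  by_contra hne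
  have hlt : P < Q := lt_of_le_of_ne hle hne
  have h1 := Ideal.height_add_one_le_of_lt_of_isPrime hlt
  rw [hQ] at h1
  have h2 : P.height = 0 := by
    have : P.height + 1 ≤ 0 + 1 := by simpa using h1
    exact le_antisymm ((ENat.add_le_add_iff_right (by simp)).1 this) (zero_le)
  exact hP (Ideal.height_eq_zero_iff_eq_bot.1 h2)

instance (E : DivisorOver A K) : E.center.IsPrime := by
  unfold DivisorOver.center
  infer_instance

/-- For a centre of height one the divisor is the localization of `A`. -/
theorem exists_frac_of_height_one [IsNoetherianRing A] [IsIntegrallyClosed A]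
    (E : DivisorOver A K) (hE : E.center.height = 1) (r : E.ring) :
    ∃ a s : A, s ∉ E.center ∧ (r : K) * algebraMap A K s = algebraMap A K a := by
  have hle : E.center.primeCompl ≤ nonZeroDivisors A := E.center.primeCompl_le_nonZeroDivisors
  let V : Subalgebra A K := Localization.subalgebra.ofField K E.center.primeCompl hle
  have hloc : IsLocalization.AtPrime V E.center :=
    Localization.subalgebra.isLocalization_ofField K E.center.primeCompl hle
  have h1 : IsLocalRing V := IsLocalization.AtPrime.isLocalRing V E.center
  have h2 : IsNoetherianRing V := IsLocalization.isNoetherianRing E.center.primeCompl V inferInstance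
  have h3 : IsIntegrallyClosed V := isIntegrallyClosed_of_isLocalization V E.center.primeCompl hle
  have h4 : ∀ P : Ideal V, P ≠ ⊥ → P.IsPrime → P = IsLocalRing.maximalIdeal V := by
    intro P hP0 hP
    have h5 : (P.comap (algebraMap A V)).map (algebraMap A V) = P :=
      IsLocalization.map_under E.center.primeCompl V P
    have h6 : P.comap (algebraMap A V) ≤ E.center := by
      have h7 : P ≤ IsLocalRing.maximalIdeal V := IsLocalRing.le_maximalIdeal hP.ne_top
      have h8 := Ideal.comap_mono (f := algebraMap A V) h7
      have h9 : Ideal.comap (algebraMap A V) (IsLocalRing.maximalIdeal V) = E.center :=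
        IsLocalization.AtPrime.under_maximalIdeal V E.center
      rwa [h9] at h8
    have h9 : P.comap (algebraMap A V) ≠ ⊥ := by
      intro h
      rw [h, Ideal.map_bot] at h5
      exact hP0 h5.symm
    have h10 := eq_of_le_height_one hE h6 h9
    rw [← h5, h10, IsLocalization.AtPrime.map_eq_maximalIdeal E.center V]
  have h5 : ValuationRing V :=
    ((tfae_of_isNoetherianRing_of_isLocalRing_of_isDomain V).out 3 1 rfl rfl).1 ⟨h3, h4⟩
  have hVmem : ∀ x : K, x ∈ V → ∃ a s : A, s ∉ E.center ∧
      x * algebraMap A K s = algebraMap A K a := by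
    intro x hx
    obtain ⟨a, s, hs, rfl⟩ := hx
    have hs0 : algebraMap A K s ≠ 0 := by
      rw [Ne, IsFractionRing.to_map_eq_zero_iff]
      rintro rfl
      exact hs E.center.zero_mem
    refine ⟨a, s, hs, ?_⟩
    field_simp
  rcases ValuationRing.isInteger_or_isInteger V (r : K) with ⟨y, hy⟩ | ⟨y, hy⟩
  · exact hVmem r (by rw [← hy]; exact y.2)
  · -- `r⁻¹ ∈ V`
    by_cases hr0 : (r : K) = 0
    · refine ⟨0, 1, ?_, by rw [hr0]; simp⟩
      intro h
      exact (inferInstance : E.center.IsPrime).ne_top ((Ideal.eq_top_iff_one _).2 h)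
    obtain ⟨a, s, hs, has⟩ := hVmem (y : K) y.2
    have hy' : (y : K) = (r : K)⁻¹ := hy
    rw [hy'] at has
    -- `s = r a`
    have h6 : algebraMap A K s = (r : K) * algebraMap A K a := by
      rw [← has]; field_simp
    -- `a ∉ center`
    have ha : a ∉ E.center := by
      intro ha
      apply hs
      change algebraMap A E.ring s ∈ IsLocalRing.maximalIdeal E.ring
      have h7 : algebraMap A E.ring s = r * algebraMap A E.ring a := by
        apply Subtype.ext
        exact h6
      rw [h7]
      exact Ideal.mul_mem_left _ _ ha
    exact ⟨s, a, ha, h6.symm⟩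

lemma isLocalization_of_height_one [IsNoetherianRing A] [IsIntegrallyClosed A]
    (E : DivisorOver A K) (hE : E.center.height = 1) : IsLocalization.AtPrime E.ring E.center := by
  have hinj : Function.Injective (algebraMap A E.ring) := by
    intro a b hab
    exact IsFractionRing.injective A K (congrArg Subtype.val hab)
  refine ⟨⟨?_, ?_, ?_⟩⟩
  · intro s
    by_contra h
    exact s.2 h
  · intro r
    obtain ⟨a, s, hs, has⟩ := exists_frac_of_height_one E hE r
    exact ⟨⟨a, ⟨s, hs⟩⟩, Subtype.ext has⟩
  · intro a b hab
    exact ⟨1, by rw [hinj hab]⟩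

end heightone

end Pool.Agent.Lib.MP_18dec4_ag
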