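import Pool.Agent.Lib.MP_18dec4_ag.HeightOne
import Pool.Agent.Lib.MP_18dec4_ag.CanZero

/-!
The canonical order of the example is zero at divisors with centre of height one.
-/

set_option linter.unusedSectionVars false

namespace Pool.Agent.Lib.MP_18dec4_ag

open KaehlerDifferential Algebra

section

variable (p : ℕ) [Fact p.Prime]

lemma nu_X_mem (q : Ideal (Sp p)) (h : ∀ (s : Sp p) (g : Gp p), g • s - s ∈ q) (b : Bool)
    (i : Fin (p - 1)) (hi : 1 ≤ (i : ℕ)) : (MvPolynomial.X (b, i) : Sp p) ∈ q := by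
  obtain ⟨i, hi'⟩ := i
  obtain ⟨j, rfl⟩ : ∃ j, i = j + 1 := ⟨i - 1, by simp at hi; omega⟩
  have h1 := h (MvPolynomial.X (b, ⟨j, by omega⟩)) (g₀ p)
  rw [g₀_smul, sigAut_X_lt p b ⟨j, by omega⟩ hi', add_sub_cancel_left] at h1
  exact h1

/-- The group acts without inertia above primes of height one. -/
lemma exists_smul_sub_notMem (hp : 2 < p) (P : Ideal (Ap p)) [P.IsPrime] (hP : P.height = 1)
    (q : Ideal (Sp p)) (_hqp : q.IsPrime) (hq : q.comap (algebraMap (Ap p) (Sp p)) = P) :
    ∃ (s : Sp p) (g : Gp p), g • s - s ∉ q := by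
  by_contra hcon
  push Not at hcon
  have hint := isIntegral_Ap p hp
  have h1 : 1 < p - 1 := by omega
  have hX : ∀ b : Bool, (MvPolynomial.X (b, ⟨1, h1⟩) : Sp p) ∈ q := fun b =>
    nu_X_mem p q hcon b ⟨1, h1⟩ le_rfl
  set P1 : Ideal (Sp p) := Ideal.span {(MvPolynomial.X (true, ⟨1, h1⟩) : Sp p)} with hP1
  have hP1p : P1.IsPrime := by
    rw [hP1, Ideal.span_singleton_prime (MvPolynomial.X_ne_zero _)]
    exact MvPolynomial.X_prime
  have hle : P1 ≤ q := by
    rw [hP1, Ideal.span_singleton_le_iff_mem]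
    exact hX true
  have hne : P1.comap (algebraMap (Ap p) (Sp p)) ≠ ⊥ :=
    Ideal.comap_ne_bot_of_integral_mem (MvPolynomial.X_ne_zero (true, ⟨1, h1⟩))
      (Ideal.mem_span_singleton_self _) (Algebra.IsIntegral.isIntegral _)
  have hle' : P1.comap (algebraMap (Ap p) (Sp p)) ≤ P := by
    rw [← hq]; exact Ideal.comap_mono hle
  have heq : P1.comap (algebraMap (Ap p) (Sp p)) = P := eq_of_le_height_one hP hle' hne
  have hlt : P1 < q := by
    refine lt_of_le_of_ne hle ?_
    intro h
    have h2 := hX false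
    rw [← h, hP1, Ideal.mem_span_singleton, MvPolynomial.X_dvd_X] at h2
    simp at h2
  have h3 := Ideal.IsIntegral.comap_lt_comap (A := Sp p) (R := Ap p) hlt
  rw [heq, hq] at h3
  exact lt_irrefl _ h3

end

section

variable (p : ℕ) [Fact p.Prime] (K L : Type) [Field K] [Field L]
  [Algebra (Ap p) K] [IsFractionRing (Ap p) K] [Algebra (Sp p) L] [IsFractionRing (Sp p) L]
  [Algebra K L] [IsScalarTower (Ap p) K L]
  [MulSemiringAction (Gp p) L] [SMulDistribClass (Gp p) (Sp p) L]
  [Algebra ℤ_[p] K] [IsScalarTower ℤ_[p] (Ap p) K] [Algebra ℤ_[p] L]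
  [IsScalarTower ℤ_[p] K L] [IsScalarTower ℤ_[p] (Sp p) L]

theorem canOrd_zero_E (hp : 2 < p)
    (β : Module.Basis (Fin (dimP p)) K Ω[K⁄ℤ_[p]])
    (β' : Module.Basis (Fin (dimP p)) L Ω[L⁄ℤ_[p]])
    (hβ : ∀ i, KaehlerDifferential.map ℤ_[p] ℤ_[p] K L (β i) = β' i)
    (hdet : β'.det (fun i => D ℤ_[p] L (XL p L i)) = 1)
    (E : DivisorOver (Ap p) K) (hE : E.center.height = 1) :
    IsCanOrd ℤ_[p] E.ring K β 0 := by
  have h1 := charZero_K p K
  have h2 := charZero_L p L
  have h3 := finite_Gp p hp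
  have h4 := isGaloisGroup_KL p K L hp
  have h5 := finiteType_Ap p hp
  have h6 : EssFiniteType ℤ_[p] E.ring := EssFiniteType.comp ℤ_[p] (Ap p) E.ring
  have h7 := Fintype.ofFinite (Gp p)
  have h8 := isIntegral_Ap p hp
  have h9 := isNoetherianRing_Ap p hp
  have h10 := isIntegrallyClosed_Ap p
  have h11 : IsLocalization.AtPrime E.ring E.center := isLocalization_of_height_one E hE
  have h12 : IsScalarTower (Ap p) E.ring L := by
    refine IsScalarTower.of_algebraMap_eq fun a => ?_
    rw [IsScalarTower.algebraMap_apply (Ap p) K L]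
    rfl
  have h13 : (Nat.card (Gp p)).Prime := by rw [card_Gp p hp]; exact Fact.out
  have key := canOrd_zero_generic (G := Gp p) (A := Ap p) (S := Sp p) (R := E.ring) (K := K)
    (L := L) β β' h13 E.center (exists_smul_sub_notMem p hp E.center hE) hβ
  refine key (fun i => MvPolynomial.X (enumV p i)) ?_ hdet
  have h14 : (Set.range fun i => (MvPolynomial.X (enumV p i) : Sp p)) =
      Set.range (MvPolynomial.X : Var p → Sp p) := by
    ext x
    constructor
    · rintro ⟨i, rfl⟩
      exact ⟨_, rfl⟩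
    · rintro ⟨v, rfl⟩
      exact ⟨(enumV p).symm v, by simp⟩
  rw [h14]
  exact MvPolynomial.adjoin_range_X

end

/-- `p` vanishes to order at most one along divisors with centre of height one -/
theorem ord_le_one_of_prime {A K : Type} [CommRing A] [IsDomain A] [Field K] [Algebra A K]
    [IsFractionRing A K] [IsNoetherianRing A] [IsIntegrallyClosed A] (E : DivisorOver A K)
    (hE : E.center.height = 1) (x : A) (hx : Prime x) :
    ordZ E.ring (algebraMap A K x) ≤ 1 := by
  have h11 : IsLocalization.AtPrime E.ring E.center := isLocalization_of_height_one E hE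
  have hxK : algebraMap A K x = algebraMap E.ring K (algebraMap A E.ring x) := rfl
  have hx0 : algebraMap A E.ring x ≠ 0 := by
    intro h
    rw [h, map_zero, IsFractionRing.to_map_eq_zero_iff] at hxK
    exact hx.ne_zero hxK
  rw [hxK]
  by_cases hpc : x ∈ E.center
  · have h12 : E.center = Ideal.span {x} := Ideal.eq_span_singleton_of_height_eq_one hE hpc hx
    have h14 : IsLocalRing.maximalIdeal E.ring = Ideal.span {algebraMap A E.ring x} := by
      rw [← IsLocalization.AtPrime.map_eq_maximalIdeal E.center E.ring, h12, Ideal.map_span,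
        Set.image_singleton]
    have h15 : Irreducible (algebraMap A E.ring x) :=
      (IsDiscreteValuationRing.irreducible_iff_uniformizer _).2 h14
    have h16 := Ring.ord_of_irreducible h15
    rw [ordZ_algebraMap E.ring hx0 (n := 1) (by simpa using h16)]
    simp
  · have h12 : IsUnit (algebraMap A E.ring x) :=
      IsLocalization.map_units E.ring (⟨_, hpc⟩ : E.center.primeCompl)
    rw [ordZ_algebraMap E.ring hx0 (n := 0) (by simpa using Ring.ord_of_isUnit h12)]
    simp

theorem ordZ_p_le_one (p : ℕ) [Fact p.Prime] (K : Type) [Field K]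
    [Algebra (Ap p) K] [IsFractionRing (Ap p) K] (hp : 2 < p) (E : DivisorOver (Ap p) K)
    (hE : E.center.height = 1) : ordZ E.ring (p : K) ≤ 1 := by
  have h9 := isNoetherianRing_Ap p hp
  have h10 := isIntegrallyClosed_Ap p
  have h := ord_le_one_of_prime E hE (p : Ap p) (prime_p_Ap p)
  rwa [map_natCast] at h

end Pool.Agent.Lib.MP_18dec4_ag
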