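import Pool.Agent.Lib.MP_18dec4_ag.LogSurj

/-!
Hurwitz type inequality for lengths of differentials and the resulting lower bound for the
canonical order downstairs.
-/

set_option linter.unusedSectionVars false

namespace Pool.Agent.Lib.MP_18dec4_ag

open KaehlerDifferential Algebra TensorProduct

section right_exact

variable {R X Q Y : Type*} [CommRing R] [AddCommGroup X] [AddCommGroup Q] [AddCommGroup Y]
  [Module R X] [Module R Q] [Module R Y]

lemma length_le_of_exact (f : X →ₗ[R] Q) (g : Q →ₗ[R] Y)
    (h : LinearMap.ker g ≤ LinearMap.range f) :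
    Module.length R Q ≤ Module.length R X + Module.length R Y := by
  have h1 : Module.length R Q = Module.length R (LinearMap.ker g) +
      Module.length R (Q ⧸ LinearMap.ker g) :=
    Module.length_eq_add_of_exact (LinearMap.ker g).subtype (LinearMap.ker g).mkQ
      (Submodule.subtype_injective _) (Submodule.mkQ_surjective _)
      (LinearMap.exact_subtype_mkQ _)
  rw [h1]
  refine add_le_add ?_ ?_
  · calc Module.length R (LinearMap.ker g) ≤ Module.length R (LinearMap.range f) :=
        Module.length_le_of_injective (Submodule.inclusion h) (Submodule.inclusion_injective h)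
      _ ≤ Module.length R X :=
        Module.length_le_of_surjective f.rangeRestrict f.surjective_rangeRestrict
  · rw [g.quotKerEquivRange.length_eq]
    exact Module.length_le_of_injective _ (Submodule.subtype_injective _)

end right_exact

section hurwitz

variable {O R R' : Type*} [CommRing O] [CommRing R] [CommRing R'] [Algebra O R] [Algebra O R']
  [Algebra R R'] [IsScalarTower O R R']

/-- Right exactness of differentials, with lengths. -/
theorem length_diff_le {d : ℕ} (r : Fin d → R) :
    Module.length R' (Ω[R'⁄O] ⧸ Submodule.span R' (Set.range fun i => D O R' (algebraMap R R' (r i))))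
      ≤ Module.length R' (R' ⊗[R] (Ω[R⁄O] ⧸ Submodule.span R (Set.range fun i => D O R (r i)))) +
        Module.length R' Ω[R'⁄R] := by
  set N := Submodule.span R (Set.range fun i => D O R (r i)) with hN
  set N' := Submodule.span R' (Set.range fun i => D O R' (algebraMap R R' (r i))) with hN'
  have h1 : N ≤ LinearMap.ker ((N'.mkQ.restrictScalars R) ∘ₗ KaehlerDifferential.map O O R R') := by
    rw [hN, Submodule.span_le]
    rintro _ ⟨i, rfl⟩
    rw [SetLike.mem_coe, LinearMap.mem_ker, LinearMap.comp_apply, KaehlerDifferential.map_D,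
      LinearMap.restrictScalars_apply, Submodule.mkQ_apply, Submodule.Quotient.mk_eq_zero]
    exact Submodule.subset_span ⟨i, rfl⟩
  let φ : (Ω[R⁄O] ⧸ N) →ₗ[R] (Ω[R'⁄O] ⧸ N') := N.liftQ _ h1
  let f : R' ⊗[R] (Ω[R⁄O] ⧸ N) →ₗ[R'] (Ω[R'⁄O] ⧸ N') := φ.liftBaseChange R'
  have h2 : N' ≤ LinearMap.ker (KaehlerDifferential.map O R R' R') := by
    rw [hN', Submodule.span_le]
    rintro _ ⟨i, rfl⟩
    rw [SetLike.mem_coe, LinearMap.mem_ker, KaehlerDifferential.map_D, Algebra.algebraMap_self,
      RingHom.id_apply, Derivation.map_algebraMap]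
  let g : (Ω[R'⁄O] ⧸ N') →ₗ[R'] Ω[R'⁄R] := N'.liftQ _ h2
  refine length_le_of_exact f g ?_
  intro q hq
  obtain ⟨w, rfl⟩ := Submodule.mkQ_surjective _ q
  have hw : w ∈ LinearMap.range (mapBaseChange O R R') := by
    rw [range_mapBaseChange]
    exact hq
  obtain ⟨t, rfl⟩ := hw
  clear hq
  induction t with
  | zero => rw [map_zero, map_zero]; exact Submodule.zero_mem _
  | add x y hx hy => rw [map_add, map_add]; exact Submodule.add_mem _ hx hy
  | tmul a w =>
    refine ⟨a ⊗ₜ N.mkQ w, ?_⟩
    rw [LinearMap.liftBaseChange_tmul, mapBaseChange_tmul, map_smul]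
    rfl

end hurwitz

end Pool.Agent.Lib.MP_18dec4_ag
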