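import Pool.Agent.Lib.MP_18dec4_ag.Action

/-!
Basic properties of the ring of invariants.
-/

namespace Pool.Agent.Lib.MP_18dec4_ag

open MvPolynomial

variable (p : ℕ) [Fact p.Prime]

lemma isIntegral_Ap (hp : 2 < p) : Algebra.IsIntegral (Ap p) (Sp p) := by
  have := finite_Gp p hp
  have h : Algebra.IsInvariant (Ap p) (Sp p) (Gp p) := IsGaloisGroup.isInvariant
  exact h.isIntegral

lemma finite_Ap_Sp (hp : 2 < p) : Module.Finite (Ap p) (Sp p) := by
  have h1 := isIntegral_Ap p hp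
  have h2 : Algebra.FiniteType (Ap p) (Sp p) :=
    Algebra.FiniteType.of_restrictScalars_finiteType ℤ_[p] _ _
  exact Algebra.IsIntegral.finite

lemma algebraMap_Ap_injective : Function.Injective (algebraMap (Ap p) (Sp p)) :=
  Subtype.val_injective

lemma finiteType_Ap (hp : 2 < p) : Algebra.FiniteType ℤ_[p] (Ap p) := by
  have h1 := finite_Ap_Sp p hp
  exact ⟨fg_of_fg_of_fg ℤ_[p] (Ap p) (Sp p) Algebra.FiniteType.out h1.fg_top
    (algebraMap_Ap_injective p)⟩

lemma isNoetherianRing_Ap (hp : 2 < p) : IsNoetherianRing (Ap p) := by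
  have := finiteType_Ap p hp
  exact Algebra.FiniteType.isNoetherianRing ℤ_[p] _

instance flat_Ap : Module.Flat ℤ_[p] (Ap p) := by
  have : Module.IsTorsionFree ℤ_[p] (Ap p) := by
    have hinj : Function.Injective (algebraMap ℤ_[p] (Ap p)) := by
      intro a b hab
      have h1 : algebraMap (Ap p) (Sp p) (algebraMap ℤ_[p] (Ap p) a) =
          algebraMap (Ap p) (Sp p) (algebraMap ℤ_[p] (Ap p) b) := by rw [hab]
      exact MvPolynomial.C_injective _ _ h1
    have : FaithfulSMul ℤ_[p] (Ap p) := (faithfulSMul_iff_algebraMap_injective _ _).2 hinj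
    infer_instance
  infer_instance

lemma mem_Ap_of_mul {a b : Ap p} (hb : b ≠ 0) {s : Sp p} (h : (b : Sp p) * s = a) :
    s ∈ Ap p := by
  intro g
  have h1 : (b : Sp p) * (g • s) = (b : Sp p) * s := by
    have h2 := congrArg (fun x => g • x) h
    simp only [smul_mul'] at h2
    have hb' : g • (b : Sp p) = b := b.2 g
    have ha' : g • (a : Sp p) = a := a.2 g
    rw [hb', ha'] at h2
    rw [h2, h]
  have hb0 : (b : Sp p) ≠ 0 := fun h => hb (Subtype.ext h)
  exact mul_left_cancel₀ hb0 h1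

lemma isIntegrallyClosed_Ap : IsIntegrallyClosed (Ap p) := by
  rw [isIntegrallyClosed_iff (FractionRing (Ap p))]
  intro x hx
  let φ : FractionRing (Ap p) →+* FractionRing (Sp p) :=
    IsFractionRing.map (A := Ap p) (j := algebraMap (Ap p) (Sp p)) (algebraMap_Ap_injective p)
  have hφ : ∀ a : Ap p, φ (algebraMap (Ap p) _ a) = algebraMap (Sp p) _ (a : Sp p) := by
    intro a
    exact IsLocalization.map_eq _ a
  have h1 : IsIntegral (Sp p) (φ x) := by
    obtain ⟨f, hf, hfx⟩ := hx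
    refine ⟨f.map (algebraMap (Ap p) (Sp p)), hf.map _, ?_⟩
    rw [Polynomial.eval₂_map]
    have h2 : (algebraMap (Sp p) (FractionRing (Sp p))).comp (algebraMap (Ap p) (Sp p)) =
        φ.comp (algebraMap (Ap p) (FractionRing (Ap p))) := by
      ext a
      exact (hφ a).symm
    rw [h2, ← Polynomial.hom_eval₂, hfx, map_zero]
  obtain ⟨s, hs⟩ := IsIntegrallyClosed.algebraMap_eq_of_integral h1
  obtain ⟨a, b, hb, rfl⟩ := IsFractionRing.div_surjective (A := Ap p) x
  have hb0 : b ≠ 0 := nonZeroDivisors.ne_zero hb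
  have hb1 : algebraMap (Sp p) (FractionRing (Sp p)) (b : Sp p) ≠ 0 := by
    rw [Ne, IsFractionRing.to_map_eq_zero_iff]
    exact fun h => hb0 (Subtype.ext h)
  rw [map_div₀, hφ, hφ, eq_div_iff hb1, ← map_mul] at hs
  have h3 : (b : Sp p) * s = a := by
    rw [mul_comm]
    exact IsFractionRing.injective (Sp p) (FractionRing (Sp p)) hs
  have hsA := mem_Ap_of_mul p hb0 h3
  refine ⟨⟨s, hsA⟩, ?_⟩
  have hb2 : algebraMap (Ap p) (FractionRing (Ap p)) b ≠ 0 := by
    rw [Ne, IsFractionRing.to_map_eq_zero_iff]; exact hb0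
  rw [eq_div_iff hb2, ← map_mul]
  congr 1
  apply Subtype.ext
  change s * (b : Sp p) = a
  rw [mul_comm]; exact h3

/-- `p ≠ 0` in `Ap`. -/
lemma p_ne_zero_Ap : (p : Ap p) ≠ 0 := by
  intro h
  have h1 : ((p : ℕ) : Sp p) = 0 := congrArg Subtype.val h
  rw [Nat.cast_eq_zero] at h1
  exact (Fact.out : p.Prime).ne_zero h1

/-- `p` generates a prime ideal of the polynomial ring. -/
lemma prime_p_Sp : Prime ((p : ℕ) : Sp p) := by
  have h1 : Prime ((p : ℕ) : ℤ_[p]) := PadicInt.prime_p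
  have h2 := (MvPolynomial.prime_C_iff (Var p) (r := ((p : ℕ) : ℤ_[p]))).2 h1
  simpa using h2

/-- `p S ∩ A = p A`. -/
lemma dvd_Ap_of_dvd_Sp {a : Ap p} (h : ((p : ℕ) : Sp p) ∣ (a : Sp p)) : ((p : ℕ) : Ap p) ∣ a := by
  obtain ⟨s, hs⟩ := h
  have h1 : (((p : ℕ) : Ap p) : Sp p) * s = a := by
    rw [hs]; rfl
  have h2 := mem_Ap_of_mul p (p_ne_zero_Ap p) h1
  exact ⟨⟨s, h2⟩, Subtype.ext hs⟩

lemma prime_p_Ap : Prime ((p : ℕ) : Ap p) := by
  refine ⟨p_ne_zero_Ap p, ?_, ?_⟩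
  · intro h
    have : IsUnit ((p : ℕ) : Sp p) := by
      have := h.map (algebraMap (Ap p) (Sp p))
      rwa [map_natCast] at this
    exact (prime_p_Sp p).not_isUnit this
  · intro a b hab
    have h1 : ((p : ℕ) : Sp p) ∣ (a : Sp p) * b := by
      obtain ⟨c, hc⟩ := hab
      exact ⟨c, congrArg Subtype.val hc⟩
    rcases (prime_p_Sp p).dvd_or_dvd h1 with h | h
    · exact Or.inl (dvd_Ap_of_dvd_Sp p h)
    · exact Or.inr (dvd_Ap_of_dvd_Sp p h)

instance isPrime_span_p : (Ideal.span {((p : ℕ) : Ap p)}).IsPrime := by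
  rw [Ideal.span_singleton_prime (p_ne_zero_Ap p)]
  exact prime_p_Ap p

end Pool.Agent.Lib.MP_18dec4_ag
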