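import Pool.Agent.Lib.MP_18dec4_ag.Order

/-!
A lower bound for the canonical order through logarithmic differentials.
-/

set_option linter.unusedSectionVars false

namespace Pool.Agent.Lib.MP_18dec4_ag

open Module

section log

variable {R K M V : Type*} [CommRing R] [IsDomain R] [IsDiscreteValuationRing R]
  [Field K] [Algebra R K] [IsFractionRing R K]
  [AddCommGroup M] [Module R M]
  [AddCommGroup V] [Module R V] [Module K V] [IsScalarTower R K V]
  (φ : M →ₗ[R] V) {d : ℕ} (β : Basis (Fin d) K V)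

/-- The map `(m, r) ↦ φ m + (r / π) φ m₀`. -/
noncomputable def logMap (ϖ : R) (m₀ : M) : (M × R) →ₗ[R] V :=
  φ.coprod ((LinearMap.toSpanSingleton K V ((algebraMap R K ϖ)⁻¹ • φ m₀)).restrictScalars R ∘ₗ
    Algebra.linearMap R K)

lemma logMap_apply (ϖ : R) (m₀ : M) (m : M) (r : R) :
    logMap (K := K) φ ϖ m₀ (m, r) = φ m + (algebraMap R K r * (algebraMap R K ϖ)⁻¹) • φ m₀ := by
  simp [logMap, mul_smul]

/-- linear independence of `w₀ = (m₀, -π)` and the log forms `τ_i`. -/
lemma linInd_log {ϖ : R} (hϖ : ϖ ≠ 0) (m₀ : M) (a : Fin d → M) (x : Fin d → R)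
    (hx : ∀ i, x i ≠ 0) (τ : Fin d → M × R) (s : Fin d → R)
    (hτ : ∀ i, x i • τ i = (a i, 0) + s i • (m₀, -ϖ))
    (ha : β.det (fun i => φ (a i)) ≠ 0) :
    LinearIndependent R (Fin.cons (m₀, -ϖ) τ : Fin (d + 1) → M × R) := by
  have hϖK : algebraMap R K ϖ ≠ 0 := by rwa [Ne, IsFractionRing.to_map_eq_zero_iff]
  have h0 : logMap (K := K) φ ϖ m₀ (m₀, -ϖ) = 0 := by
    rw [logMap_apply, map_neg, neg_mul, mul_inv_cancel₀ hϖK, neg_smul, one_smul, add_neg_cancel]
  have h1 : ∀ i, x i • logMap (K := K) φ ϖ m₀ (τ i) = φ (a i) := by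
    intro i
    rw [← map_smul, hτ i, map_add, map_smul, h0, smul_zero, add_zero, logMap_apply]
    simp
  have h2 : LinearIndependent R (fun i => φ (a i)) := by
    have h3 : LinearIndependent K (fun i => φ (a i)) := linearIndependent_of_det_ne_zero β _ ha
    exact h3.restrict_scalars (by
      intro x y h
      simpa [Algebra.smul_def] using h)
  rw [Fintype.linearIndependent_iff]
  intro g hg
  rw [Fin.sum_univ_succ] at hg
  simp only [Fin.cons_zero, Fin.cons_succ] at hg
  have h4 : ∑ i : Fin d, g i.succ • logMap (K := K) φ ϖ m₀ (τ i) = 0 := by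
    have := congrArg (logMap (K := K) φ ϖ m₀) hg
    rw [map_add, map_smul, h0, smul_zero, zero_add, map_sum, map_zero] at this
    simpa using this
  -- multiply by the product of the `x i`
  have h5 : ∀ i : Fin d, g i.succ = 0 := by
    classical
    have h6 : ∑ i : Fin d, ((∏ j ∈ Finset.univ.erase i, x j) * g i.succ) • φ (a i) = 0 := by
      have := congrArg (fun v => (∏ j, x j) • v) h4
      simp only [smul_zero, Finset.smul_sum] at this
      rw [← this]
      refine Finset.sum_congr rfl fun i _ => ?_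
      rw [← h1 i, smul_smul, smul_smul, ← Finset.mul_prod_erase Finset.univ x
        (Finset.mem_univ i)]
      congr 1; ring
    have h7 := Fintype.linearIndependent_iff.1 h2 _ h6
    intro i
    have := h7 i
    rcases mul_eq_zero.1 this with h | h
    · exact absurd h (Finset.prod_ne_zero_iff.2 fun j _ => hx j)
    · exact h
  intro i
  refine Fin.cases ?_ h5 i
  have h8 : g 0 • ((m₀, -ϖ) : M × R) = 0 := by
    rw [← hg, Finset.sum_eq_zero (fun i _ => by rw [h5 i, zero_smul]), add_zero]
  have h9 := congrArg Prod.snd h8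
  simp only [Prod.smul_snd, smul_eq_mul, mul_neg, Prod.snd_zero, neg_eq_zero] at h9
  exact (mul_eq_zero.1 h9).resolve_right hϖ

/-- length of `P / ⟨w₀, (a,0)⟩` -/
lemma length_log_quot {ϖ : R} (hϖ : Irreducible ϖ) (m₀ : M) (a : Fin d → M) :
    Module.length R ((M × R) ⧸ Submodule.span R (Set.range
      (Fin.cons (m₀, -ϖ) (fun i => (a i, 0)) : Fin (d + 1) → M × R))) =
    Module.length R (M ⧸ Submodule.span R (Set.range a)) + 1 := by
  set W := Submodule.span R (Set.range
      (Fin.cons (m₀, -ϖ) (fun i => (a i, 0)) : Fin (d + 1) → M × R)) with hW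
  have hw0 : ((m₀, -ϖ) : M × R) ∈ W := Submodule.subset_span ⟨0, by simp⟩
  have hwa : ∀ m ∈ Submodule.span R (Set.range a), ((m, 0) : M × R) ∈ W := by
    intro m hm
    have : Submodule.span R (Set.range a) ≤ W.comap (LinearMap.inl R M R) := by
      rw [Submodule.span_le]
      rintro _ ⟨i, rfl⟩
      exact Submodule.subset_span ⟨i.succ, by simp⟩
    exact this hm
  -- elements of W
  have hWmem : ∀ z ∈ W, ∃ c : R, ∃ m ∈ Submodule.span R (Set.range a),
      z = (m, 0) + c • (m₀, -ϖ) := by
    intro z hz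
    induction hz using Submodule.span_induction with
    | mem z hz =>
      obtain ⟨i, rfl⟩ := hz
      refine Fin.cases ?_ (fun i => ?_) i
      · exact ⟨1, 0, Submodule.zero_mem _, by simp⟩
      · exact ⟨0, a i, Submodule.subset_span ⟨i, rfl⟩, by simp⟩
    | zero => exact ⟨0, 0, Submodule.zero_mem _, by ext <;> simp⟩
    | add x y _ _ hx hy =>
      obtain ⟨c, m, hm, rfl⟩ := hx
      obtain ⟨c', m', hm', rfl⟩ := hy
      refine ⟨c + c', m + m', Submodule.add_mem _ hm hm', ?_⟩
      ext
      · simp only [Prod.fst_add, Prod.smul_fst, add_smul]; abel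
      · simp only [Prod.snd_add, Prod.smul_snd, smul_eq_mul]; ring
    | smul r x _ hx =>
      obtain ⟨c, m, hm, rfl⟩ := hx
      refine ⟨r * c, r • m, Submodule.smul_mem _ _ hm, ?_⟩
      rw [smul_add, smul_smul]
      ext <;> simp
  have hle : Submodule.span R (Set.range a) ≤ W.comap (LinearMap.inl R M R) :=
    fun m hm => hwa m hm
  let f : (M ⧸ Submodule.span R (Set.range a)) →ₗ[R] ((M × R) ⧸ W) :=
    Submodule.mapQ _ _ (LinearMap.inl R M R) hle
  let g : ((M × R) ⧸ W) →ₗ[R] (R ⧸ Ideal.span {ϖ}) :=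
    Submodule.mapQ _ _ (LinearMap.snd R M R) (by
      intro z hz
      obtain ⟨c, m, _, rfl⟩ := hWmem z hz
      rw [Submodule.mem_comap]
      simp only [LinearMap.snd_apply, Prod.snd_add, Prod.smul_snd, smul_eq_mul, mul_neg, zero_add,
        neg_mem_iff]
      exact Ideal.mem_span_singleton'.2 ⟨c, rfl⟩)
  have hf : Function.Injective f := by
    rw [injective_iff_map_eq_zero]
    intro x hx
    obtain ⟨m, rfl⟩ := Submodule.Quotient.mk_surjective _ x
    have hx' : ((m, 0) : M × R) ∈ W := (Submodule.Quotient.mk_eq_zero W).1 hx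
    obtain ⟨c, m', hm', h⟩ := hWmem _ hx'
    have h2 := congrArg Prod.snd h
    simp only [Prod.snd_add, Prod.smul_snd, smul_eq_mul, mul_neg, zero_add] at h2
    have hc : c = 0 := by
      have : c * ϖ = 0 := by rw [← neg_eq_zero, ← h2]
      exact (mul_eq_zero.1 this).resolve_right hϖ.ne_zero
    have h3 := congrArg Prod.fst h
    rw [hc] at h3
    simp only [zero_smul, add_zero] at h3
    rw [Submodule.Quotient.mk_eq_zero, h3]
    exact hm'
  have hg : Function.Surjective g := by
    intro y
    obtain ⟨r, rfl⟩ := Submodule.Quotient.mk_surjective _ y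
    exact ⟨Submodule.Quotient.mk (0, r), rfl⟩
  have hfg : Function.Exact f g := by
    intro z
    obtain ⟨⟨m, r⟩, rfl⟩ := Submodule.Quotient.mk_surjective _ z
    constructor
    · intro h
      simp only [g, Submodule.mapQ_apply, LinearMap.snd_apply, Submodule.Quotient.mk_eq_zero] at h
      obtain ⟨c, hc⟩ := Ideal.mem_span_singleton'.1 h
      refine ⟨Submodule.Quotient.mk (m + c • m₀), ?_⟩
      change (Submodule.Quotient.mk ((m + c • m₀, 0) : M × R) : (M × R) ⧸ W) = _
      rw [Submodule.Quotient.eq]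
      have : ((m + c • m₀, 0) : M × R) - (m, r) = c • (m₀, -ϖ) := by
        ext <;> simp [← hc]
      rw [this]
      exact Submodule.smul_mem _ _ hw0
    · rintro ⟨y, hy⟩
      obtain ⟨m', rfl⟩ := Submodule.Quotient.mk_surjective _ y
      rw [← hy]
      rfl
  rw [Module.length_eq_add_of_exact f g hf hg hfg]
  congr 1
  exact Ring.ord_of_irreducible hϖ

/-- If `P → (R/t)^{d+1}` is onto then the quotient of `P` by `d` elements has length at least
`ord t`. -/
lemma ord_le_length {P : Type*} [AddCommGroup P] [Module R P] {t : R} (ht : t ≠ 0)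
    (Ψ : P →ₗ[R] (Fin (d + 1) → R ⧸ Ideal.span {t})) (hΨ : Function.Surjective Ψ)
    (w₀ : P) (hw₀ : Ψ w₀ = 0) (τ : Fin d → P) :
    Ring.ord R t ≤ Module.length R (P ⧸ Submodule.span R (Set.range
      (Fin.cons w₀ τ : Fin (d + 1) → P))) := by
  set W := Submodule.span R (Set.range (Fin.cons w₀ τ : Fin (d + 1) → P)) with hW
  set Q := (Fin (d + 1) → R ⧸ Ideal.span {t})
  set S : Submodule R Q := W.map Ψ with hS
  obtain ⟨n, hn⟩ := ENat.ne_top_iff_exists.1
    (Ring.ord_ne_top (mem_nonZeroDivisors_of_ne_zero ht))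
  have hn' : Module.length R (R ⧸ Ideal.span {t}) = n := hn.symm
  have hQ : Module.length R Q = ((d + 1) * n : ℕ) := by
    simp only [Q]
    rw [Module.length_pi_of_fintype, Finset.sum_const, Finset.card_univ, Fintype.card_fin, hn',
      nsmul_eq_mul]
    push_cast; rfl
  have hSle : Module.length R S ≤ (d * n : ℕ) := by
    -- surjection from (R/t)^d
    have hker : ∀ c : Fin d → R, (∀ i, c i ∈ Ideal.span {t}) → ∑ i, c i • Ψ (τ i) = 0 := by
      intro c hc
      refine Finset.sum_eq_zero fun i _ => ?_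
      obtain ⟨e, he⟩ := Ideal.mem_span_singleton'.1 (hc i)
      ext j
      obtain ⟨q, hq⟩ := Submodule.Quotient.mk_surjective _ (Ψ (τ i) j)
      rw [Pi.smul_apply, ← hq, ← Submodule.Quotient.mk_smul, Pi.zero_apply,
        Submodule.Quotient.mk_eq_zero, smul_eq_mul, ← he]
      exact Ideal.mem_span_singleton'.2 ⟨e * q, by ring⟩
    let f : (Fin d → R) →ₗ[R] Q := Fintype.linearCombination R (fun i => Ψ (τ i))
    let g : (Fin d → R ⧸ Ideal.span {t}) →ₗ[R] Q :=
      (Submodule.liftQ (Submodule.pi Set.univ fun _ => Ideal.span {t}) f (by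
        intro x hx
        rw [Submodule.mem_pi] at hx
        rw [LinearMap.mem_ker]
        exact hker x fun i => hx i trivial)) ∘ₗ
        (Submodule.quotientPi fun _ : Fin d => Ideal.span {t}).symm.toLinearMap
    have hSr : S ≤ LinearMap.range g := by
      rw [hS, hW, Submodule.map_span, Submodule.span_le]
      rintro _ ⟨_, ⟨i, rfl⟩, rfl⟩
      refine Fin.cases ?_ (fun i => ?_) i
      · rw [Fin.cons_zero, hw₀]; exact Submodule.zero_mem _
      · rw [Fin.cons_succ]
        refine ⟨Submodule.quotientPi (fun _ : Fin d => Ideal.span {t})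
          (Submodule.Quotient.mk (Pi.single i 1)), ?_⟩
        simp only [g, LinearMap.comp_apply, LinearEquiv.coe_coe, LinearEquiv.symm_apply_apply]
        rw [Submodule.liftQ_apply]
        simp [f, Fintype.linearCombination_apply, Pi.single_apply, ite_smul]
    calc Module.length R S ≤ Module.length R (LinearMap.range g) :=
          Module.length_le_of_injective (Submodule.inclusion hSr)
            (Submodule.inclusion_injective hSr)
      _ ≤ Module.length R (Fin d → R ⧸ Ideal.span {t}) :=
          Module.length_le_of_surjective g.rangeRestrict g.surjective_rangeRestrict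
      _ = (d * n : ℕ) := by
          rw [Module.length_pi_of_fintype, Finset.sum_const, Finset.card_univ, Fintype.card_fin,
            hn', nsmul_eq_mul]
          push_cast; rfl
  have hQS : Module.length R Q = Module.length R S + Module.length R (Q ⧸ S) :=
    Module.length_eq_add_of_exact S.subtype S.mkQ (Submodule.subtype_injective _)
      (Submodule.mkQ_surjective _) (LinearMap.exact_subtype_mkQ S)
  have hle : Module.length R (Q ⧸ S) ≤ Module.length R (P ⧸ W) := by
    refine Module.length_le_of_surjective (Submodule.mapQ W S Ψ (Submodule.le_comap_map Ψ W)) ?_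
    intro y
    obtain ⟨q, rfl⟩ := Submodule.Quotient.mk_surjective _ y
    obtain ⟨z, rfl⟩ := hΨ q
    exact ⟨Submodule.Quotient.mk z, rfl⟩
  refine le_trans ?_ hle
  have hfin : Module.length R (Q ⧸ S) ≠ ⊤ := by
    intro h
    rw [h, hQ, add_top] at hQS
    exact ENat.natCast_ne_top _ hQS
  obtain ⟨l, hl⟩ := ENat.ne_top_iff_exists.1 hfin
  have hfin2 : Module.length R S ≠ ⊤ := by
    intro h
    rw [h, top_le_iff] at hSle
    exact ENat.natCast_ne_top _ hSle
  obtain ⟨l', hl'⟩ := ENat.ne_top_iff_exists.1 hfin2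
  rw [← hl, hQ, ← hl'] at hQS
  rw [← hl'] at hSle
  have h1 : (d + 1) * n = l' + l := by exact_mod_cast hQS
  have h2 : l' ≤ d * n := by exact_mod_cast hSle
  rw [← hn, ← hl]
  have h3 : n ≤ l := by nlinarith
  exact_mod_cast h3

/-- The logarithmic lower bound. -/
theorem log_bound {ϖ : R} (hϖ : Irreducible ϖ) (m₀ : M) (a : Fin d → M) (x : Fin d → R)
    (hx : ∀ i, x i ≠ 0) (τ : Fin d → M × R) (s : Fin d → R)
    (hτ : ∀ i, x i • τ i = (a i, 0) + s i • (m₀, -ϖ))
    (ha : β.det (fun i => φ (a i)) ≠ 0) {t : R} (ht : t ≠ 0)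
    (Ψ : (M × R) →ₗ[R] (Fin (d + 1) → R ⧸ Ideal.span {t})) (hΨ : Function.Surjective Ψ)
    (hw₀ : Ψ (m₀, -ϖ) = 0) :
    Ring.ord R t + ∑ i, Ring.ord R (x i) ≤
      Module.length R (M ⧸ Submodule.span R (Set.range a)) + 1 := by
  have hli := linInd_log φ β hϖ.ne_zero m₀ a x hx τ s hτ ha
  rw [← length_log_quot hϖ m₀ a]
  -- the matrix
  let C : Matrix (Fin (d + 1)) (Fin (d + 1)) R :=
    Matrix.of (Fin.cons (Pi.single 0 1) (fun i => Fin.cons (- s i) (Pi.single i (x i))))
  have hC : ∀ i, (Fin.cons (m₀, -ϖ) (fun i => (a i, 0)) : Fin (d + 1) → M × R) i =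
      ∑ j, C i j • (Fin.cons (m₀, -ϖ) τ : Fin (d + 1) → M × R) j := by
    intro i
    rw [Fin.sum_univ_succ]
    refine Fin.cases ?_ (fun i => ?_) i
    · simp [C]
    · simp only [C, Fin.cons_succ, Fin.cons_zero, Matrix.of_apply]
      rw [Finset.sum_eq_single i]
      · rw [Pi.single_eq_same, hτ i]
        ext <;> simp
      · intro j _ hj
        rw [Pi.single_eq_of_ne hj, zero_smul]
      · intro h; exact absurd (Finset.mem_univ i) h
  have hdet : C.det = ∏ i, x i := by
    rw [Matrix.det_succ_row_zero, Fin.sum_univ_succ]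
    have h1 : (C.submatrix Fin.succ (Fin.succAbove 0)) = Matrix.diagonal x := by
      ext i j
      simp only [C, Matrix.submatrix_apply, Matrix.of_apply, Fin.cons_succ, Fin.succAbove_zero,
        Matrix.diagonal_apply, Pi.single_apply]
      by_cases h : i = j
      · subst h; simp
      · rw [if_neg h, if_neg (Ne.symm h)]
    rw [h1, Matrix.det_diagonal]
    have h2 : ∀ i : Fin d, C 0 i.succ = 0 := by
      intro i; simp [C]
    simp only [h2, mul_zero, zero_mul, Finset.sum_const_zero, add_zero]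
    simp [C]
  have hdet0 : C.det ≠ 0 := by
    rw [hdet]; exact Finset.prod_ne_zero_iff.2 fun i _ => hx i
  rw [length_span_comb (d := d + 1) _ _ hli C hdet0 hC, hdet, ord_prod _ _ hx]
  gcongr
  exact ord_le_length ht Ψ hΨ _ hw₀ τ

end log

end Pool.Agent.Lib.MP_18dec4_ag
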