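import Pool.Agent.Lib.MP_18dec4_ag.LogBound

/-!
Logarithmic derivations `R → R/t` for a discrete valuation ring with a coefficient field mod `t`.
-/

set_option linter.unusedSectionVars false

namespace Pool.Agent.Lib.MP_18dec4_ag

open Module Polynomial

section

variable {R : Type*} [CommRing R] [IsDomain R] [IsDiscreteValuationRing R]

/-- the reduction `R/t → κ` -/
noncomputable def redMap {t : R} (ht : t ∈ IsLocalRing.maximalIdeal R) :
    (R ⧸ Ideal.span {t}) →+* IsLocalRing.ResidueField R :=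
  Ideal.Quotient.lift (Ideal.span {t}) (IsLocalRing.residue R) (by
    intro a ha
    obtain ⟨c, rfl⟩ := Ideal.mem_span_singleton'.1 ha
    rw [IsLocalRing.residue_eq_zero_iff]
    exact Ideal.mul_mem_left _ _ ht)

lemma redMap_mk {t : R} (ht : t ∈ IsLocalRing.maximalIdeal R) (r : R) :
    redMap ht (Ideal.Quotient.mk _ r) = IsLocalRing.residue R r := rfl

variable {t : R} (ht : t ∈ IsLocalRing.maximalIdeal R) {ϖ : R} (hϖ : Irreducible ϖ) (ht0 : t ≠ 0)
  (s : IsLocalRing.ResidueField R →+* (R ⧸ Ideal.span {t}))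
  (hs : ∀ c, redMap ht (s c) = c)

include hs hϖ in
lemma aeval_surj_aux (n : ℕ) : ∀ a : R ⧸ Ideal.span {t}, ∃ f : (IsLocalRing.ResidueField R)[X],
    ∃ c, a = f.eval₂ s (Ideal.Quotient.mk _ ϖ) + (Ideal.Quotient.mk _ ϖ) ^ n * c := by
  induction n with
  | zero => intro a; exact ⟨0, a, by simp⟩
  | succ n ih =>
    intro a
    have h1 : ∃ a', a = s (redMap ht a) + (Ideal.Quotient.mk _ ϖ) * a' := by
      obtain ⟨r, hr⟩ := Ideal.Quotient.mk_surjective (a - s (redMap ht a))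
      have h2 : IsLocalRing.residue R r = 0 := by
        rw [← redMap_mk ht, hr, map_sub, hs, sub_self]
      rw [IsLocalRing.residue_eq_zero_iff, hϖ.maximalIdeal_eq, Ideal.mem_span_singleton'] at h2
      obtain ⟨q, hq⟩ := h2
      refine ⟨Ideal.Quotient.mk _ q, ?_⟩
      rw [← map_mul, mul_comm, hq, hr]
      ring
    obtain ⟨a', ha'⟩ := h1
    obtain ⟨f, c, hfc⟩ := ih a'
    refine ⟨C (redMap ht a) + X * f, c, ?_⟩
    rw [eval₂_add, eval₂_C, eval₂_mul, eval₂_X]
    conv_lhs => rw [ha', hfc]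
    ring

include hs hϖ ht0 in
lemma aeval_surj : Function.Surjective (eval₂RingHom s (Ideal.Quotient.mk (Ideal.span {t}) ϖ)) := by
  intro a
  obtain ⟨n, u, hu⟩ := IsDiscreteValuationRing.eq_unit_mul_pow_irreducible ht0 hϖ
  obtain ⟨f, c, hfc⟩ := aeval_surj_aux ht hϖ s hs n a
  refine ⟨f, ?_⟩
  have h1 : (Ideal.Quotient.mk (Ideal.span {t}) ϖ) ^ n = 0 := by
    rw [← map_pow, Ideal.Quotient.eq_zero_iff_mem, Ideal.mem_span_singleton']
    exact ⟨(u⁻¹ : Rˣ), by rw [hu]; simp⟩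
  rw [hfc, h1, zero_mul, add_zero]
  rfl

include hs hϖ ht0 in
/-- the kernel of `κ[T] → R/t` -/
lemma ker_aeval {n : ℕ} {u : Rˣ} (hu : t = u * ϖ ^ n) (f : (IsLocalRing.ResidueField R)[X])
    (hf : eval₂RingHom s (Ideal.Quotient.mk (Ideal.span {t}) ϖ) f = 0) :
    X ^ n ∣ f := by
  by_cases hf0 : f = 0
  · rw [hf0]; exact dvd_zero _
  obtain ⟨g, hg, hg0⟩ := Polynomial.exists_eq_pow_rootMultiplicity_mul_and_not_dvd f hf0 0
  rw [C_0, sub_zero] at hg hg0
  set j := rootMultiplicity 0 f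
  by_cases hj : n ≤ j
  · rw [hg]; exact (pow_dvd_pow X hj).mul_right _
  exfalso
  push Not at hj
  rw [hg, map_mul, map_pow] at hf
  simp only [coe_eval₂RingHom, eval₂_X] at hf
  -- `g(π)` is a unit
  have hg1 : g.coeff 0 ≠ 0 := fun h => hg0 (X_dvd_iff.2 h)
  obtain ⟨r, hr⟩ := Ideal.Quotient.mk_surjective (g.eval₂ s (Ideal.Quotient.mk (Ideal.span {t}) ϖ))
  have hr1 : IsLocalRing.residue R r = g.coeff 0 := by
    rw [← redMap_mk ht, hr, Polynomial.hom_eval₂]
    have h1 : redMap ht (Ideal.Quotient.mk _ ϖ) = 0 := by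
      rw [redMap_mk, IsLocalRing.residue_eq_zero_iff, hϖ.maximalIdeal_eq]
      exact Ideal.mem_span_singleton_self _
    have h2 : (redMap ht).comp s = RingHom.id _ := by
      ext c; exact hs c
    rw [h1, h2, ← eval, coeff_zero_eq_eval_zero]
  have hru : IsUnit r := by
    by_contra h
    have : r ∈ IsLocalRing.maximalIdeal R := h
    rw [← IsLocalRing.residue_eq_zero_iff, hr1] at this
    exact hg1 this
  rw [← hr, ← map_pow, ← map_mul, Ideal.Quotient.eq_zero_iff_mem, Ideal.mem_span_singleton,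
    hru.dvd_mul_right, hu] at hf
  have h3 : ϖ ^ n ∣ ϖ ^ j := dvd_trans (Dvd.intro_left _ rfl) hf
  have := (pow_dvd_pow_iff hϖ.ne_zero hϖ.not_isUnit).1 h3
  omega

/-- The ring homomorphism `κ → (R/t)[ε]` attached to a derivation. -/
noncomputable def derHom (δ : Derivation ℤ (IsLocalRing.ResidueField R) (IsLocalRing.ResidueField R)) :
    IsLocalRing.ResidueField R →+* DualNumber (R ⧸ Ideal.span {t}) where
  toFun c := TrivSqZeroExt.inl (s c) + TrivSqZeroExt.inr (s (δ c))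
  map_one' := by simp
  map_mul' := by
    intro a b
    ext
    · simp
    · simp [mul_comm]
  map_zero' := by simp
  map_add' := by
    intro a b
    ext <;> simp

/-- The ring homomorphism `κ[T] → (R/t)[ε]`, `T ↦ π + c ε`. -/
noncomputable def polyHom (δ : Derivation ℤ (IsLocalRing.ResidueField R) (IsLocalRing.ResidueField R))
    (ϖ : R) (c : R ⧸ Ideal.span {t}) :
    (IsLocalRing.ResidueField R)[X] →+* DualNumber (R ⧸ Ideal.span {t}) :=
  eval₂RingHom (derHom s δ) (TrivSqZeroExt.inl (Ideal.Quotient.mk _ ϖ) + TrivSqZeroExt.inr c)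

lemma fst_polyHom (δ : Derivation ℤ (IsLocalRing.ResidueField R) (IsLocalRing.ResidueField R))
    (c : R ⧸ Ideal.span {t}) (f : (IsLocalRing.ResidueField R)[X]) :
    (polyHom s δ ϖ c f).fst = eval₂RingHom s (Ideal.Quotient.mk (Ideal.span {t}) ϖ) f := by
  induction f using Polynomial.induction_on' with
  | add p q hp hq => rw [map_add, map_add, TrivSqZeroExt.fst_add, hp, hq]
  | monomial n a =>
    simp [polyHom, derHom, eval₂_monomial]

lemma polyHom_X_pow (δ : Derivation ℤ (IsLocalRing.ResidueField R) (IsLocalRing.ResidueField R))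
    (c : R ⧸ Ideal.span {t}) (hc : ∃ e, c = Ideal.Quotient.mk _ ϖ * e) {n : ℕ}
    (hn : (Ideal.Quotient.mk (Ideal.span {t}) ϖ) ^ n = 0) :
    polyHom s δ ϖ c (X ^ n) = 0 := by
  obtain ⟨e, rfl⟩ := hc
  rw [map_pow]
  simp only [polyHom, coe_eval₂RingHom, eval₂_X]
  have h1 : (TrivSqZeroExt.inl (Ideal.Quotient.mk _ ϖ) +
      TrivSqZeroExt.inr (Ideal.Quotient.mk (Ideal.span {t}) ϖ * e) : DualNumber _) =
      TrivSqZeroExt.inl (Ideal.Quotient.mk _ ϖ) * (1 + TrivSqZeroExt.inr e) := by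
    ext <;> simp
  have h2 : (TrivSqZeroExt.inl (Ideal.Quotient.mk (Ideal.span {t}) ϖ) : DualNumber _) ^ n =
      TrivSqZeroExt.inl ((Ideal.Quotient.mk (Ideal.span {t}) ϖ) ^ n) := by
    exact (map_pow (TrivSqZeroExt.inlHom _ _) _ _).symm
  rw [h1, mul_pow, h2, hn, TrivSqZeroExt.inl_zero, zero_mul]

include ht hϖ ht0 hs in
/-- The ring homomorphism `R/t → (R/t)[ε]`. -/
lemma exists_quotHom
    (δ : Derivation ℤ (IsLocalRing.ResidueField R) (IsLocalRing.ResidueField R))
    (c : R ⧸ Ideal.span {t}) (hc : ∃ e, c = Ideal.Quotient.mk _ ϖ * e) :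
    ∃ ψ : (R ⧸ Ideal.span {t}) →+* DualNumber (R ⧸ Ideal.span {t}),
      (∀ a, (ψ a).fst = a) ∧ (∀ a, (ψ (s a)).snd = s (δ a)) ∧
      (ψ (Ideal.Quotient.mk _ ϖ)).snd = c := by
  obtain ⟨n, u, hu⟩ := IsDiscreteValuationRing.eq_unit_mul_pow_irreducible ht0 hϖ
  have hn : (Ideal.Quotient.mk (Ideal.span {t}) ϖ) ^ n = 0 := by
    rw [← map_pow, Ideal.Quotient.eq_zero_iff_mem, Ideal.mem_span_singleton']
    exact ⟨(u⁻¹ : Rˣ), by rw [hu]; simp⟩
  have hsurj := aeval_surj ht hϖ ht0 s hs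
  have hker : RingHom.ker (eval₂RingHom s (Ideal.Quotient.mk (Ideal.span {t}) ϖ)) ≤
      RingHom.ker (polyHom s δ ϖ c) := by
    intro f hf
    rw [RingHom.mem_ker] at hf ⊢
    obtain ⟨g, rfl⟩ := ker_aeval ht hϖ ht0 s hs hu f hf
    rw [map_mul, polyHom_X_pow s δ c hc hn, zero_mul]
  let ψ := RingHom.liftOfSurjective (eval₂RingHom s (Ideal.Quotient.mk (Ideal.span {t}) ϖ)) hsurj
    ⟨polyHom s δ ϖ c, hker⟩
  have hψ : ∀ f, ψ (eval₂RingHom s (Ideal.Quotient.mk (Ideal.span {t}) ϖ) f) =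
      polyHom s δ ϖ c f := by
    intro f
    exact RingHom.liftOfRightInverse_comp_apply _ _ _ _ f
  refine ⟨ψ, ?_, ?_, ?_⟩
  · intro a
    obtain ⟨f, rfl⟩ := hsurj a
    rw [hψ, fst_polyHom]
  · intro a
    have h1 : s a = eval₂RingHom s (Ideal.Quotient.mk (Ideal.span {t}) ϖ) (C a) := by simp
    conv_lhs => rw [h1, hψ]
    simp [polyHom, derHom]
  · have h1 : Ideal.Quotient.mk (Ideal.span {t}) ϖ =
        eval₂RingHom s (Ideal.Quotient.mk (Ideal.span {t}) ϖ) X := by simp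
    conv_lhs => rw [h1, hψ]
    simp [polyHom]

/-- A retraction-type ring homomorphism to dual numbers gives a derivation. -/
noncomputable def derOfHom {Q : Type*} [CommRing Q] [Algebra R Q] (ψ : Q →+* DualNumber Q)
    (hψ : ∀ a, (ψ a).fst = a) : Derivation ℤ R Q where
  toFun r := (ψ (algebraMap R Q r)).snd
  map_add' x y := by simp
  map_smul' n x := by simp
  map_one_eq_zero' := by simp
  leibniz' x y := by
    simp [hψ, Algebra.smul_def]
    exact mul_comm _ _

end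

section pAdic

variable {p : ℕ} [Fact p.Prime] {R : Type*} [CommRing R] [IsDomain R]
  [IsDiscreteValuationRing R] [Algebra ℤ_[p] R]

/-- A derivation into a module killed by `p` is automatically `ℤ_p`-linear. -/
noncomputable def derivationZp {Q : Type*} [AddCommGroup Q] [Module R Q] [Module ℤ_[p] Q]
    [IsScalarTower ℤ_[p] R Q] (hQ : ∀ q : Q, (p : R) • q = 0) (D : Derivation ℤ R Q) :
    Derivation ℤ_[p] R Q :=
  have h0 : ∀ a : ℤ_[p], D (algebraMap ℤ_[p] R a) = 0 := by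
    intro a
    obtain ⟨b, hb⟩ : ∃ b : ℤ_[p], a = (a.appr 1 : ℤ_[p]) + p * b := by
      have := PadicInt.appr_spec 1 a
      rw [pow_one, Ideal.mem_span_singleton'] at this
      obtain ⟨b, hb⟩ := this
      exact ⟨b, by rw [mul_comm, hb]; ring⟩
    rw [hb, map_add, map_mul, map_natCast, map_natCast, map_add, Derivation.leibniz,
      Derivation.map_natCast, Derivation.map_natCast, smul_zero, add_zero, zero_add, hQ]
  Derivation.mk'
    { toFun := D
      map_add' := D.map_add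
      map_smul' := by
        intro a x
        rw [Algebra.smul_def, D.leibniz, h0, smul_zero, add_zero, algebraMap_smul]
        rfl }
    (by intro a b; exact D.leibniz a b)

lemma derivationZp_apply {Q : Type*} [AddCommGroup Q] [Module R Q] [Module ℤ_[p] Q]
    [IsScalarTower ℤ_[p] R Q] (hQ : ∀ q : Q, (p : R) • q = 0) (D : Derivation ℤ R Q) (x : R) :
    derivationZp hQ D x = D x := rfl

theorem exists_logSurj {d : ℕ} (hp : (p : R) ∈ IsLocalRing.maximalIdeal R) (hp0 : (p : R) ≠ 0)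
    {ϖ : R} (hϖ : Irreducible ϖ)
    (s : IsLocalRing.ResidueField R →+* (R ⧸ Ideal.span {(p : R)}))
    (hs : ∀ c, redMap hp (s c) = c)
    (δ : Fin d → Derivation ℤ (IsLocalRing.ResidueField R) (IsLocalRing.ResidueField R))
    (z : Fin d → IsLocalRing.ResidueField R) (hz : ∀ i j, δ i (z j) = if i = j then 1 else 0) :
    ∃ Ψ : (Ω[R⁄ℤ_[p]] × R) →ₗ[R] (Fin (d + 1) → R ⧸ Ideal.span {(p : R)}),
      Function.Surjective Ψ ∧ Ψ (KaehlerDifferential.D ℤ_[p] R ϖ, -ϖ) = 0 := by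
  set Q := R ⧸ Ideal.span {(p : R)} with hQdef
  have hQ : ∀ q : Q, (p : R) • q = 0 := by
    intro q
    obtain ⟨r, rfl⟩ := Ideal.Quotient.mk_surjective q
    rw [Algebra.smul_def, Ideal.Quotient.algebraMap_eq, ← map_mul, Ideal.Quotient.eq_zero_iff_mem]
    exact Ideal.mul_mem_right _ _ (Ideal.mem_span_singleton_self _)
  -- the ring homomorphisms
  have hψ0 := exists_quotHom hp hϖ hp0 s hs 0 (Ideal.Quotient.mk _ ϖ) ⟨1, by rw [mul_one]⟩
  obtain ⟨ψ0, h01, h02, h03⟩ := hψ0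
  have hψi := fun i => exists_quotHom hp hϖ hp0 s hs (δ i) 0 ⟨0, by rw [mul_zero]⟩
  choose ψ h1 h2 h3 using hψi
  let D0 : Derivation ℤ_[p] R Q := derivationZp hQ (derOfHom ψ0 h01)
  let Di : Fin d → Derivation ℤ_[p] R Q := fun i => derivationZp hQ (derOfHom (ψ i) (h1 i))
  let Ψ : (Ω[R⁄ℤ_[p]] × R) →ₗ[R] (Fin (d + 1) → Q) :=
    LinearMap.pi (Fin.cons
      (D0.liftKaehlerDifferential.coprod (Algebra.linearMap R Q))
      (fun i => (Di i).liftKaehlerDifferential ∘ₗ LinearMap.fst R _ R))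
  have hΨ0 : ∀ w r, Ψ (w, r) 0 = D0.liftKaehlerDifferential w + algebraMap R Q r := by
    intro w r; simp [Ψ]
  have hΨi : ∀ w r (i : Fin d), Ψ (w, r) i.succ = (Di i).liftKaehlerDifferential w := by
    intro w r i; simp [Ψ]
  -- lifts of the `z_j`
  have hZ : ∀ j, ∃ Z : R, Ideal.Quotient.mk (Ideal.span {(p : R)}) Z = s (z j) :=
    fun j => Ideal.Quotient.mk_surjective _
  choose Z hZ using hZ
  refine ⟨Ψ, ?_, ?_⟩
  · have he0 : Ψ (0, 1) = Pi.single 0 1 := by
      ext j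
      refine Fin.cases ?_ (fun i => ?_) j
      · rw [hΨ0, map_zero, zero_add, map_one, Pi.single_eq_same]
      · rw [hΨi, map_zero, Pi.single_eq_of_ne (Fin.succ_ne_zero i)]
    have hej : ∀ j : Fin d, Ψ (KaehlerDifferential.D ℤ_[p] R (Z j), 0) = Pi.single j.succ 1 := by
      intro j
      ext k
      refine Fin.cases ?_ (fun i => ?_) k
      · rw [hΨ0, map_zero, add_zero, Derivation.liftKaehlerDifferential_comp_D,
          Pi.single_eq_of_ne (Fin.succ_ne_zero j).symm]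
        change (ψ0 (Ideal.Quotient.mk _ (Z j))).snd = 0
        rw [hZ, h02]; simp
      · rw [hΨi, Derivation.liftKaehlerDifferential_comp_D]
        change (ψ i (Ideal.Quotient.mk _ (Z j))).snd = _
        rw [hZ, h2, hz]
        by_cases hij : i = j
        · subst hij; simp
        · rw [if_neg hij, map_zero, Pi.single_eq_of_ne]
          intro h; exact hij (Fin.succ_injective _ h)
    intro y
    choose Y hY using fun k => Ideal.Quotient.mk_surjective (I := Ideal.span {(p : R)}) (y k)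
    refine ⟨∑ k, Y k • (Fin.cons (0, 1) (fun j => (KaehlerDifferential.D ℤ_[p] R (Z j), 0)) :
      Fin (d + 1) → Ω[R⁄ℤ_[p]] × R) k, ?_⟩
    rw [map_sum]
    have : ∀ k : Fin (d + 1), Ψ (Y k • (Fin.cons (0, 1)
        (fun j => (KaehlerDifferential.D ℤ_[p] R (Z j), 0)) :
        Fin (d + 1) → Ω[R⁄ℤ_[p]] × R) k) = Pi.single k (y k) := by
      intro k
      rw [map_smul]
      have h : Ψ ((Fin.cons (0, 1)
        (fun j => (KaehlerDifferential.D ℤ_[p] R (Z j), 0)) :
        Fin (d + 1) → Ω[R⁄ℤ_[p]] × R) k) = Pi.single k 1 := by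
        refine Fin.cases ?_ (fun i => ?_) k
        · rw [Fin.cons_zero, he0]
        · rw [Fin.cons_succ, hej]
      rw [h, ← Pi.single_smul, ← hY k, Algebra.smul_def, mul_one]
      rfl
    simp only [this]
    exact Finset.univ_sum_single y
  · ext k
    refine Fin.cases ?_ (fun i => ?_) k
    · rw [hΨ0, Derivation.liftKaehlerDifferential_comp_D, map_neg]
      change (ψ0 (Ideal.Quotient.mk _ ϖ)).snd + _ = _
      rw [h03]
      simp [Q]
    · rw [hΨi, Derivation.liftKaehlerDifferential_comp_D]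
      change (ψ i (Ideal.Quotient.mk _ ϖ)).snd = _
      rw [h3]; rfl

end pAdic

end Pool.Agent.Lib.MP_18dec4_ag
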