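import Mathlib

/-!
For a discrete valuation ring `R`, essentially of finite type over `O`, with a nonunit `t ∈ O`,
`t ≠ 0` in `R`, and fraction field `K` of characteristic zero:
`dim_K Ω_{K/O} ≤ dim_κ Ω_{κ/O}`.
-/

set_option linter.unusedSectionVars false

namespace Pool.Agent.Lib.MP_18dec4_ag

open KaehlerDifferential Algebra

/-- finite length modules over a local ring with residue field finite over `S` are finite
over `S` -/
lemma finite_of_isFiniteLength {S R : Type*} [CommRing S] [CommRing R] [IsLocalRing R]
    [Algebra S R] (hfin : Module.Finite S (R ⧸ IsLocalRing.maximalIdeal R)) {M : Type*}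
    [AddCommGroup M] [Module R M] (h : IsFiniteLength R M) :
    ∀ [Module S M] [IsScalarTower S R M], Module.Finite S M := by
  induction h with
  | of_subsingleton => intro _ _; infer_instance
  | @of_simple_quotient M _ _ N hs _ ih =>
    intro _ _
    have h1 : Module.Finite S N := ih
    have h2 : Module.Finite S (M ⧸ N) := by
      obtain ⟨I, hI, ⟨e⟩⟩ := isSimpleModule_iff_quot_maximal.1 hs
      obtain rfl := IsLocalRing.eq_maximalIdeal hI
      exact Module.Finite.equiv (e.symm.restrictScalars S)
    have h3 : Module.Finite S (N.restrictScalars S) := h1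
    have h4 : Module.Finite S (M ⧸ N.restrictScalars S) := h2
    exact Module.Finite.of_submodule_quotient (N.restrictScalars S)

section

variable {O R K : Type*} [CommRing O] [CommRing R] [IsDomain R] [IsDiscreteValuationRing R]
  [Field K] [Algebra O R] [Algebra R K] [Algebra O K] [IsScalarTower O R K] [IsFractionRing R K]

/-- the subfield of `x` with `D x ∈ W` -/
noncomputable def derSubfield (W : Submodule K Ω[K⁄O]) : Subfield K where
  carrier := {x | D O K x ∈ W}
  mul_mem' {a b} ha hb := by
    simp only [Set.mem_ofPred_eq, Derivation.leibniz] at *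
    exact W.add_mem (W.smul_mem _ hb) (W.smul_mem _ ha)
  one_mem' := by simp
  add_mem' {a b} ha hb := by
    simp only [Set.mem_ofPred_eq, map_add] at *
    exact W.add_mem ha hb
  zero_mem' := by simp
  neg_mem' {a} ha := by
    simp only [Set.mem_ofPred_eq, map_neg] at *
    exact W.neg_mem ha
  inv_mem' a ha := by
    simp only [Set.mem_ofPred_eq, Derivation.leibniz_inv] at *
    exact W.smul_mem _ ha

variable (R) in
/-- the subalgebra of `R` of the `x` with `D x ∈ W` -/
noncomputable def derSubalg (W : Submodule K Ω[K⁄O]) : Subalgebra O R where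
  carrier := {x | D O K (algebraMap R K x) ∈ W}
  mul_mem' {a b} ha hb := by
    simp only [Set.mem_ofPred_eq, Derivation.leibniz, map_mul] at *
    exact W.add_mem (W.smul_mem _ hb) (W.smul_mem _ ha)
  add_mem' {a b} ha hb := by
    simp only [Set.mem_ofPred_eq, map_add] at *
    exact W.add_mem ha hb
  algebraMap_mem' r := by
    simp [← IsScalarTower.algebraMap_apply]

lemma mem_derSubalg {W : Submodule K Ω[K⁄O]} {x : R} :
    x ∈ derSubalg R W ↔ D O K (algebraMap R K x) ∈ W := Iff.rfl

lemma mem_derSubfield {W : Submodule K Ω[K⁄O]} {x : K} :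
    x ∈ derSubfield W ↔ D O K x ∈ W := Iff.rfl

instance isLocalHom_derSubalg (W : Submodule K Ω[K⁄O]) :
    IsLocalHom (algebraMap (derSubalg R W) R) := by
  constructor
  intro a ha
  obtain ⟨b, hb⟩ := ha.exists_right_inv
  have h1 : (algebraMap R K a)⁻¹ = algebraMap R K b := by
    refine inv_eq_of_mul_eq_one_right ?_
    rw [← map_mul, ← map_one (algebraMap R K)]
    congr 1
  have h2 : b ∈ derSubalg R W := by
    rw [mem_derSubalg, ← h1]
    exact (derSubfield W).inv_mem (x := algebraMap R K a) a.2
  exact IsUnit.of_mul_eq_one ⟨b, h2⟩ (Subtype.ext hb)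

instance isLocalRing_derSubalg (W : Submodule K Ω[K⁄O]) : IsLocalRing (derSubalg R W) :=
  RingHom.domain_isLocalRing (algebraMap (derSubalg R W) R)

/-- `κ` is finite over the subring `R₀` of `x` with `D x ∈ W` if `R₀` contains lifts of generators
of the differentials of the residue field. -/
lemma finite_residue (W : Submodule K Ω[K⁄O]) [EssFiniteType O R]
    (hW : ∀ c : IsLocalRing.ResidueField R, D O (IsLocalRing.ResidueField R) c ∈
      Submodule.span (IsLocalRing.ResidueField R)
        (D O (IsLocalRing.ResidueField R) '' (IsLocalRing.residue R '' (derSubalg R W)))) :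
    Module.Finite (derSubalg R W) (IsLocalRing.ResidueField R) := by
  have h1 : FormallyUnramified (derSubalg R W) (IsLocalRing.ResidueField R) := by
    constructor
    have h0 : ∀ c : IsLocalRing.ResidueField R,
        D (derSubalg R W) (IsLocalRing.ResidueField R) c = 0 := by
      intro c
      have hle : Submodule.span (IsLocalRing.ResidueField R)
          (D O (IsLocalRing.ResidueField R) '' (IsLocalRing.residue R '' (derSubalg R W))) ≤
          LinearMap.ker (KaehlerDifferential.map O (derSubalg R W) (IsLocalRing.ResidueField R)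
            (IsLocalRing.ResidueField R)) := by
        rw [Submodule.span_le]
        rintro _ ⟨_, ⟨r, hr, rfl⟩, rfl⟩
        simp only [SetLike.mem_coe, LinearMap.mem_ker, KaehlerDifferential.map_D,
          Algebra.algebraMap_self, RingHom.id_apply]
        exact (D (derSubalg R W) (IsLocalRing.ResidueField R)).map_algebraMap ⟨r, hr⟩
      have := hle (hW c)
      simpa [LinearMap.mem_ker, KaehlerDifferential.map_D] using this
    have h2 : (⊤ : Submodule (IsLocalRing.ResidueField R)
        Ω[IsLocalRing.ResidueField R⁄(derSubalg R W)]) = ⊥ := by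
      rw [← KaehlerDifferential.span_range_derivation, Submodule.span_eq_bot]
      rintro _ ⟨c, rfl⟩
      exact h0 c
    exact (Submodule.subsingleton_iff _).1 (subsingleton_of_bot_eq_top h2.symm)
  have h2 : EssFiniteType O (IsLocalRing.ResidueField R) :=
    inferInstanceAs (EssFiniteType O (R ⧸ IsLocalRing.maximalIdeal R))
  have h3 : EssFiniteType (derSubalg R W) (IsLocalRing.ResidueField R) :=
    EssFiniteType.of_comp O _ _
  have tower : IsScalarTower (derSubalg R W) (IsLocalRing.ResidueField (derSubalg R W))
      (IsLocalRing.ResidueField R) := IsScalarTower.of_algebraMap_eq fun x => rfl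
  have h4 : EssFiniteType (IsLocalRing.ResidueField (derSubalg R W))
      (IsLocalRing.ResidueField R) :=
    EssFiniteType.of_comp (derSubalg R W) _ _
  have h5 : FormallyUnramified (IsLocalRing.ResidueField (derSubalg R W))
      (IsLocalRing.ResidueField R) :=
    FormallyUnramified.of_restrictScalars (derSubalg R W) _ _
  have h6 : Module.Finite (IsLocalRing.ResidueField (derSubalg R W))
      (IsLocalRing.ResidueField R) :=
    FormallyUnramified.finite_of_free _ _
  have h7 : Module.Finite (derSubalg R W) (IsLocalRing.ResidueField (derSubalg R W)) :=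
    Module.Finite.of_surjective (Algebra.linearMap _ _) IsLocalRing.residue_surjective
  exact Module.Finite.trans (IsLocalRing.ResidueField (derSubalg R W)) _

lemma finite_quotient (R₀ : Subalgebra O R)
    (hfin : Module.Finite R₀ (R ⧸ IsLocalRing.maximalIdeal R))
    {t : R} (ht : t ≠ 0) : Module.Finite R₀ (R ⧸ Ideal.span {t}) := by
  have h1 : IsFiniteLength R (R ⧸ Ideal.span {t}) := by
    rw [← Module.length_ne_top_iff]
    exact Ring.ord_ne_top (mem_nonZeroDivisors_of_ne_zero ht)
  exact finite_of_isFiniteLength hfin h1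

omit [IsDomain R] [IsDiscreteValuationRing R] in
lemma weaklyQF {R₀ B : Type*} [CommRing R₀] [CommRing B] [Algebra R₀ B] [Algebra B R]
    [Algebra R₀ R] [IsScalarTower R₀ B R] (q : Ideal B) [q.IsPrime] [IsLocalization.AtPrime R q]
    {t : R₀} (ht : algebraMap R₀ B t ∈ q)
    (hfin : Module.Finite R₀ (R ⧸ Ideal.span {algebraMap R₀ R t})) :
    WeaklyQuasiFiniteAt R₀ q := by
  rw [weaklyQuasiFiniteAt_iff]
  let e : R ≃ₐ[B] Localization.AtPrime q :=
    IsLocalization.algEquiv q.primeCompl R (Localization.AtPrime q)
  let e₀ : R →ₐ[R₀] Localization.AtPrime q := (e.restrictScalars R₀).toAlgHom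
  set J := (q.under R₀).map (algebraMap R₀ (Localization.AtPrime q)) with hJ
  have ht1 : t ∈ q.under R₀ := ht
  have ht2 : e₀ (algebraMap R₀ R t) ∈ J := by
    have : e₀ (algebraMap R₀ R t) =
        algebraMap R₀ (Localization.AtPrime q) t := e₀.commutes _
    rw [this]
    exact Ideal.mem_map_of_mem _ ht1
  have hker : ∀ a ∈ Ideal.span {algebraMap R₀ R t},
      ((Ideal.Quotient.mkₐ R₀ J).comp e₀) a = 0 := by
    intro a ha
    obtain ⟨c, rfl⟩ := Ideal.mem_span_singleton'.1 ha
    rw [AlgHom.comp_apply, map_mul]
    exact Ideal.Quotient.eq_zero_iff_mem.2 (J.mul_mem_left _ ht2)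
  let f := Ideal.Quotient.liftₐ (Ideal.span {algebraMap R₀ R t})
      ((Ideal.Quotient.mkₐ R₀ J).comp e₀) hker
  refine QuasiFinite.of_surjective_algHom f ?_
  intro y
  obtain ⟨y, rfl⟩ := Ideal.Quotient.mk_surjective y
  refine ⟨Ideal.Quotient.mk _ (e.symm y), ?_⟩
  change Ideal.Quotient.mk J (e (e.symm y)) = _
  rw [AlgEquiv.apply_symm_apply]

/-- Zariski's main theorem: every element of `R` is a quotient of elements integral over `R₀`. -/
lemma exists_integral (R₀ : Subalgebra O R) [IsLocalRing R₀] [IsLocalHom (algebraMap R₀ R)]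
    [EssFiniteType O R]
    (hfin : Module.Finite R₀ (R ⧸ IsLocalRing.maximalIdeal R)) {t : O} (ht : algebraMap O R t ≠ 0)
    (htm : algebraMap O R t ∈ IsLocalRing.maximalIdeal R) (x : R) :
    ∃ r s : R, r ≠ 0 ∧ IsIntegral R₀ r ∧ IsIntegral R₀ s ∧ r * x = s := by
  have hess : EssFiniteType R₀ R := EssFiniteType.of_comp O _ _
  let B := EssFiniteType.subalgebra R₀ R
  let q : Ideal B := (IsLocalRing.maximalIdeal R).comap (algebraMap B R)
  have hq : q.IsPrime := inferInstance
  have hloc : IsLocalization.AtPrime R q := by
    have h : EssFiniteType.submonoid R₀ R = q.primeCompl := by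
      ext b
      change IsUnit (algebraMap B R b) ↔ ¬ (algebraMap B R b ∈ IsLocalRing.maximalIdeal R)
      rw [IsLocalRing.mem_maximalIdeal, mem_nonunits_iff, not_not]
    have h2 := EssFiniteType.isLocalization R₀ R
    rw [h] at h2
    exact h2
  have hfin2 : Module.Finite R₀ (R ⧸ Ideal.span {algebraMap O R t}) := finite_quotient R₀ hfin ht
  have hw : WeaklyQuasiFiniteAt R₀ q :=
    weaklyQF q (R := R) (t := algebraMap O R₀ t) htm hfin2
  have hz := ZariskisMainProperty.of_finiteType_of_weaklyQuasiFiniteAt (R := R₀) q
  obtain ⟨r, hr, hri, H⟩ := zariskisMainProperty_iff.1 hz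
  obtain ⟨b, c, rfl⟩ := IsLocalization.exists_mk'_eq q.primeCompl x
  obtain ⟨m, hm⟩ := H c
  obtain ⟨m', hm'⟩ := H b
  have hr0 : algebraMap B R r ≠ 0 := by
    intro h
    apply hr
    change algebraMap B R r ∈ IsLocalRing.maximalIdeal R
    rw [h]; exact Ideal.zero_mem _
  have hc0 : algebraMap B R c ≠ 0 := by
    intro h
    apply c.2
    change algebraMap B R c ∈ IsLocalRing.maximalIdeal R
    rw [h]; exact Ideal.zero_mem _
  refine ⟨algebraMap B R ((r ^ m * c) * r ^ m'), algebraMap B R ((r ^ m' * b) * r ^ m),
    ?_, ?_, ?_, ?_⟩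
  · simp only [map_mul, map_pow]
    exact mul_ne_zero (mul_ne_zero (pow_ne_zero _ hr0) hc0) (pow_ne_zero _ hr0)
  · exact (hm.mul (hri.pow _)).algebraMap
  · exact (hm'.mul (hri.pow _)).algebraMap
  · rw [map_mul, map_mul, mul_assoc, mul_comm (algebraMap B R (r ^ m')), ← mul_assoc,
      mul_assoc (algebraMap B R (r ^ m)), IsLocalization.mk'_spec'_mk]
    simp only [map_mul]
    ring

/-- A finite-dimensional space of differentials has a basis of exact differentials. -/
lemma exists_basis_D (O κ : Type*) [CommRing O] [Field κ] [Algebra O κ]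
    [Module.Finite κ Ω[κ⁄O]] :
    ∃ (z : Fin (Module.finrank κ Ω[κ⁄O]) → κ) (b : Module.Basis (Fin (Module.finrank κ Ω[κ⁄O]))
      κ Ω[κ⁄O]), ∀ i, b i = D O κ (z i) := by
  have h0 : (⊤ : Submodule κ Ω[κ⁄O]) ≤ Submodule.span κ (Set.range (D O κ)) :=
    (KaehlerDifferential.span_range_derivation O κ).ge
  let b₀ := Module.Basis.ofSpan h0
  have h1 := Module.Basis.ofSpan_subset h0
  have : Fintype _ := FiniteDimensional.fintypeBasisIndex b₀
  have hc := Module.finrank_eq_card_basis b₀
  let e : _ ≃ Fin (Module.finrank κ Ω[κ⁄O]) := Fintype.equivFinOfCardEq hc.symm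
  have h2 : ∀ i, ∃ z : κ, D O κ z = (b₀.reindex e) i := by
    intro i
    have : (b₀.reindex e) i ∈ Set.range b₀ := by
      rw [Module.Basis.reindex_apply]; exact ⟨_, rfl⟩
    exact h1 this
  choose z hz using h2
  exact ⟨z, b₀.reindex e, fun i => (hz i).symm⟩

/-- if `K` is algebraic over the field of `x` with `D x ∈ W` and has characteristic zero, then
`W` is everything. -/
lemma eq_top_of_algebraic [CharZero K] (W : Submodule K Ω[K⁄O])
    (h : Algebra.IsAlgebraic (derSubfield W) K) : W = ⊤ := by
  have : CharZero (derSubfield W) := by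
    constructor
    intro a b hab
    have := congrArg (fun x : derSubfield W => (x : K)) hab
    simpa using this
  have h1 : FormallyUnramified (derSubfield W) K := FormallyUnramified.of_isSeparable _ _
  let D' : Derivation (derSubfield W) K (Ω[K⁄O] ⧸ W) :=
    Derivation.mk'
      { toFun := fun x => W.mkQ (D O K x)
        map_add' := by intro a b; simp
        map_smul' := by
          intro a x
          have ha : W.mkQ (D O K (a : K)) = 0 := by
            rw [Submodule.mkQ_apply, Submodule.Quotient.mk_eq_zero]
            exact a.2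
          have : a • x = (a : K) * x := rfl
          rw [this, Derivation.leibniz, map_add, map_smul, map_smul, ha, smul_zero, add_zero]
          rfl }
      (by intro a b; simp [Derivation.leibniz])
  have h2 : ∀ x, D' x = 0 := by
    intro x
    rw [← Derivation.liftKaehlerDifferential_comp_D D' x]
    rw [Subsingleton.elim (D (derSubfield W) K x) 0, map_zero]
  rw [_root_.eq_top_iff, ← KaehlerDifferential.span_range_derivation, Submodule.span_le]
  rintro _ ⟨x, rfl⟩
  have := h2 x
  change W.mkQ (D O K x) = 0 at this
  rwa [Submodule.mkQ_apply, Submodule.Quotient.mk_eq_zero] at this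

theorem finrank_omega_le [CharZero K] [EssFiniteType O R] {t : O} (ht : algebraMap O R t ≠ 0)
    (htm : algebraMap O R t ∈ IsLocalRing.maximalIdeal R) :
    Module.finrank K Ω[K⁄O] ≤
      Module.finrank (IsLocalRing.ResidueField R) Ω[IsLocalRing.ResidueField R⁄O] := by
  have hκ : EssFiniteType O (IsLocalRing.ResidueField R) :=
    inferInstanceAs (EssFiniteType O (R ⧸ IsLocalRing.maximalIdeal R))
  obtain ⟨z, b, hb⟩ := exists_basis_D O (IsLocalRing.ResidueField R)
  have hZ := fun i => IsLocalRing.residue_surjective (z i)
  choose Z hZ using hZ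
  let W : Submodule K Ω[K⁄O] := Submodule.span K (Set.range fun i => D O K (algebraMap R K (Z i)))
  have hZW : ∀ i, Z i ∈ derSubalg R W := fun i => Submodule.subset_span ⟨i, rfl⟩
  have hW : ∀ c : IsLocalRing.ResidueField R, D O (IsLocalRing.ResidueField R) c ∈
      Submodule.span (IsLocalRing.ResidueField R)
        (D O (IsLocalRing.ResidueField R) '' (IsLocalRing.residue R '' (derSubalg R W))) := by
    intro c
    have h1 : Submodule.span (IsLocalRing.ResidueField R) (Set.range b) ≤
      Submodule.span (IsLocalRing.ResidueField R)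
        (D O (IsLocalRing.ResidueField R) '' (IsLocalRing.residue R '' (derSubalg R W))) := by
      apply Submodule.span_mono
      rintro _ ⟨i, rfl⟩
      rw [hb, ← hZ]
      exact ⟨_, ⟨_, hZW i, rfl⟩, rfl⟩
    rw [b.span_eq] at h1
    exact h1 trivial
  have hfin := finite_residue W hW
  have hint := exists_integral (derSubalg R W) hfin ht htm
  have halg : Algebra.IsAlgebraic (derSubfield W) K := by
    constructor
    have hI : ∀ x : R, IsIntegral (derSubalg R W) x → IsAlgebraic (derSubfield W) (algebraMap R K x) := by
      intro x hx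
      let φ : derSubalg R W →+* derSubfield W :=
        { toFun := fun y => ⟨algebraMap R K y, y.2⟩
          map_one' := by ext; simp
          map_mul' := by intro a b; ext; simp
          map_zero' := by ext; simp
          map_add' := by intro a b; ext; simp }
      have h2 : IsIntegral (derSubfield W) (algebraMap R K x) := by
        obtain ⟨f, hf, hfx⟩ := hx
        refine ⟨f.map φ, hf.map _, ?_⟩
        rw [Polynomial.eval₂_map]
        have : (algebraMap (derSubfield W) K).comp φ =
            (algebraMap R K).comp (algebraMap (derSubalg R W) R) := by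
          ext y; rfl
        rw [this, ← Polynomial.hom_eval₂, hfx, map_zero]
      exact h2.isAlgebraic
    have hR : ∀ x : R, IsAlgebraic (derSubfield W) (algebraMap R K x) := by
      intro x
      obtain ⟨r, s, hr, hri, hsi, hrs⟩ := hint x
      have hr' : algebraMap R K r ≠ 0 := by
        rwa [Ne, FaithfulSMul.algebraMap_eq_zero_iff]
      have : algebraMap R K x = algebraMap R K s * (algebraMap R K r)⁻¹ := by
        rw [← hrs, map_mul]
        field_simp
      rw [this]
      exact (hI s hsi).mul (hI r hri).inv
    intro x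
    obtain ⟨a, c, hc, rfl⟩ := IsFractionRing.div_surjective (A := R) x
    rw [div_eq_mul_inv]
    exact (hR a).mul (hR c).inv
  have htop := eq_top_of_algebraic W halg
  rw [← finrank_top, ← htop]
  exact (finrank_range_le_card _).trans (by simp)

end

end Pool.Agent.Lib.MP_18dec4_ag
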