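import Pool.Agent.Lib.MP_18dec4_ag.LogDer
import Pool.Agent.Lib.MP_18dec4_ag.ResDim

/-!
The surjection from logarithmic differentials onto `(R/p)^{d+1}`.
-/

set_option linter.unusedSectionVars false

namespace Pool.Agent.Lib.MP_18dec4_ag

open KaehlerDifferential Algebra

section

variable {p : ℕ} [Fact p.Prime] {R : Type*} [CommRing R] [IsDomain R]
  [IsDiscreteValuationRing R] [Algebra ℤ_[p] R]

lemma algebraMap_eq_of_charP {κ : Type*} [CommRing κ] [Algebra ℤ_[p] κ] [CharP κ p]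
    (f : ZMod p →+* κ) (x : ℤ_[p]) : algebraMap ℤ_[p] κ x = f (PadicInt.toZMod x) := by
  obtain ⟨b, hb⟩ : ∃ b : ℤ_[p], x = (x.appr 1 : ℤ_[p]) + p * b := by
    have := PadicInt.appr_spec 1 x
    rw [pow_one, Ideal.mem_span_singleton'] at this
    obtain ⟨b, hb⟩ := this
    exact ⟨b, by rw [mul_comm, hb]; ring⟩
  rw [hb]
  simp [CharP.cast_eq_zero]

/-- the residue field of a DVR essentially of finite type over `ℤ_p` lifts to `R/p`. -/
lemma exists_section [EssFiniteType ℤ_[p] R] (hp : (p : R) ∈ IsLocalRing.maximalIdeal R)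
    (hp0 : (p : R) ≠ 0) :
    ∃ s : IsLocalRing.ResidueField R →+* (R ⧸ Ideal.span {(p : R)}), ∀ c, redMap hp (s c) = c := by
  have hpr : p.Prime := Fact.out
  have h1 : CharP (IsLocalRing.ResidueField R) p := by
    rw [CharP.charP_iff_prime_eq_zero hpr]
    rw [← map_natCast (IsLocalRing.residue R), IsLocalRing.residue_eq_zero_iff]
    exact hp
  have hnt : Nontrivial (R ⧸ Ideal.span {(p : R)}) := by
    rw [Ideal.Quotient.nontrivial_iff, Ne, Ideal.span_singleton_eq_top]
    exact hp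
  have h2 : CharP (R ⧸ Ideal.span {(p : R)}) p := by
    rw [CharP.charP_iff_prime_eq_zero hpr]
    rw [← map_natCast (Ideal.Quotient.mk (Ideal.span {(p : R)})), Ideal.Quotient.eq_zero_iff_mem]
    exact Ideal.mem_span_singleton_self _
  let : Algebra (ZMod p) (IsLocalRing.ResidueField R) := ZMod.algebra _ p
  let : Algebra (ZMod p) (R ⧸ Ideal.span {(p : R)}) := ZMod.algebra _ p
  let : Algebra ℤ_[p] (ZMod p) := (PadicInt.toZMod).toAlgebra
  have hκ : EssFiniteType ℤ_[p] (IsLocalRing.ResidueField R) :=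
    inferInstanceAs (EssFiniteType ℤ_[p] (R ⧸ IsLocalRing.maximalIdeal R))
  have tower : IsScalarTower ℤ_[p] (ZMod p) (IsLocalRing.ResidueField R) :=
    IsScalarTower.of_algebraMap_eq fun x => algebraMap_eq_of_charP _ x
  have hκ2 : EssFiniteType (ZMod p) (IsLocalRing.ResidueField R) :=
    EssFiniteType.of_comp ℤ_[p] _ _
  have hsm : FormallySmooth (ZMod p) (IsLocalRing.ResidueField R) := inferInstance
  let g : (R ⧸ Ideal.span {(p : R)}) →ₐ[ZMod p] IsLocalRing.ResidueField R :=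
    { redMap hp with
      commutes' := fun x => by
        change ((redMap hp).comp (algebraMap (ZMod p) _)) x = algebraMap (ZMod p) _ x
        congr 1
        exact Subsingleton.elim _ _ }
  have hg : Function.Surjective g := by
    intro c
    obtain ⟨r, rfl⟩ := IsLocalRing.residue_surjective c
    exact ⟨Ideal.Quotient.mk _ r, rfl⟩
  obtain ⟨ϖ, hϖ⟩ := IsDiscreteValuationRing.exists_irreducible R
  obtain ⟨n, u, hu⟩ := IsDiscreteValuationRing.eq_unit_mul_pow_irreducible hp0 hϖ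
  have hker : RingHom.ker (g : (R ⧸ Ideal.span {(p : R)}) →+* IsLocalRing.ResidueField R) =
      Ideal.span {Ideal.Quotient.mk _ ϖ} := by
    ext y
    obtain ⟨r, rfl⟩ := Ideal.Quotient.mk_surjective y
    rw [RingHom.mem_ker]
    change IsLocalRing.residue R r = 0 ↔ _
    rw [IsLocalRing.residue_eq_zero_iff, hϖ.maximalIdeal_eq, Ideal.mem_span_singleton,
      Ideal.mem_span_singleton]
    constructor
    · exact fun h => map_dvd _ h
    · rintro ⟨c, hc⟩
      obtain ⟨c, rfl⟩ := Ideal.Quotient.mk_surjective c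
      rw [← map_mul, Ideal.Quotient.eq, Ideal.mem_span_singleton] at hc
      have h3 : ϖ ∣ (p : R) := by
        have := hp
        rw [hϖ.maximalIdeal_eq, Ideal.mem_span_singleton] at this
        exact this
      have h4 := h3.trans hc
      have := dvd_add h4 (Dvd.intro c rfl : ϖ ∣ ϖ * c)
      simpa using this
  have hnil : IsNilpotent (RingHom.ker
      (g : (R ⧸ Ideal.span {(p : R)}) →+* IsLocalRing.ResidueField R)) := by
    rw [hker]
    refine ⟨n, ?_⟩
    rw [Ideal.span_singleton_pow, ← map_pow]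
    have : Ideal.Quotient.mk (Ideal.span {(p : R)}) (ϖ ^ n) = 0 := by
      rw [Ideal.Quotient.eq_zero_iff_mem, Ideal.mem_span_singleton']
      exact ⟨(u⁻¹ : Rˣ), by rw [hu]; simp⟩
    rw [this]; simp
  refine ⟨(FormallySmooth.liftOfSurjective (AlgHom.id (ZMod p) _) g hg hnil).toRingHom, ?_⟩
  intro c
  exact FormallySmooth.liftOfSurjective_apply (AlgHom.id (ZMod p) _) g hg hnil c

theorem logSurj_of_dvr [EssFiniteType ℤ_[p] R] (K : Type*) [Field K] [CharZero K] [Algebra R K]
    [Algebra ℤ_[p] K] [IsScalarTower ℤ_[p] R K] [IsFractionRing R K]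
    (hp : (p : R) ∈ IsLocalRing.maximalIdeal R)
    (hp0 : (p : R) ≠ 0) {ϖ : R} (hϖ : Irreducible ϖ) {d : ℕ}
    (hd : d ≤ Module.finrank K Ω[K⁄ℤ_[p]]) :
    ∃ Ψ : (Ω[R⁄ℤ_[p]] × R) →ₗ[R] (Fin (d + 1) → R ⧸ Ideal.span {(p : R)}),
      Function.Surjective Ψ ∧ Ψ (KaehlerDifferential.D ℤ_[p] R ϖ, -ϖ) = 0 := by
  obtain ⟨s, hs⟩ := exists_section hp hp0
  have hle := finrank_omega_le (O := ℤ_[p]) (R := R) (K := K) (t := (p : ℤ_[p]))
    (by rwa [map_natCast]) (by rwa [map_natCast])
  have hκ : EssFiniteType ℤ_[p] (IsLocalRing.ResidueField R) :=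
    inferInstanceAs (EssFiniteType ℤ_[p] (R ⧸ IsLocalRing.maximalIdeal R))
  obtain ⟨z, b, hb⟩ := exists_basis_D ℤ_[p] (IsLocalRing.ResidueField R)
  let e : Fin d → Fin (Module.finrank (IsLocalRing.ResidueField R)
    Ω[IsLocalRing.ResidueField R⁄ℤ_[p]]) := Fin.castLE (hd.trans hle)
  refine exists_logSurj hp hp0 hϖ s hs
    (fun i => (LinearMap.compDer (b.coord (e i)) (D ℤ_[p] (IsLocalRing.ResidueField R))).restrictScalars ℤ)
    (fun i => z (e i)) ?_
  intro i j
  change b.coord (e i) (D ℤ_[p] (IsLocalRing.ResidueField R) (z (e j))) = _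
  rw [← hb, Module.Basis.coord_apply, Module.Basis.repr_self, Finsupp.single_apply]
  simp only [e, Fin.castLE_inj, eq_comm]

end

end Pool.Agent.Lib.MP_18dec4_ag
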