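import Pool.Agent.Lib.MP_18dec4_ag.Bound
import Pool.Agent.Lib.MP_18dec4_ag.GaloisNU

/-!
The lower bound `n + 1 ≥ v(p)` for the canonical order of a discrete valuation ring downstairs.
-/

set_option linter.unusedSectionVars false
set_option linter.overlappingInstances false

namespace Pool.Agent.Lib.MP_18dec4_ag

open Polynomial KaehlerDifferential Algebra

section

variable {p : ℕ} [Fact p.Prime] {G R C K L : Type*} [Group G] [Fintype G]
  [CommRing R] [IsDomain R] [IsDiscreteValuationRing R] [CommRing C] [IsDomain C] [Algebra R C]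
  [Module.Finite R C] [FaithfulSMul R C]
  [Field K] [CharZero K] [Field L] [CharZero L] [Algebra R K] [IsFractionRing R K]
  [Algebra C L] [IsFractionRing C L] [Algebra K L] [Algebra R L] [IsScalarTower R K L]
  [IsScalarTower R C L]
  [Algebra ℤ_[p] R] [EssFiniteType ℤ_[p] R] [Algebra ℤ_[p] C] [IsScalarTower ℤ_[p] R C]
  [Algebra ℤ_[p] K] [IsScalarTower ℤ_[p] R K] [Algebra ℤ_[p] L] [IsScalarTower ℤ_[p] C L]
  [IsScalarTower ℤ_[p] K L]
  [MulSemiringAction G C] [IsGaloisGroup G R C]
  {d : ℕ} (β : Module.Basis (Fin d) K (Ω[K⁄ℤ_[p]])) (β' : Module.Basis (Fin d) L (Ω[L⁄ℤ_[p]]))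

/-- lower bound, case of full inertia -/
theorem lower_bound_nu [IsDiscreteValuationRing C] [IsLocalHom (algebraMap R C)]
    (hG : Nat.card G = p) {g₀ : G} (hg₀ : g₀ ≠ 1)
    (hinert : ∀ z : C, g₀ • z - z ∈ IsLocalRing.maximalIdeal C)
    (hβ : ∀ i, KaehlerDifferential.map ℤ_[p] ℤ_[p] K L (β i) = β' i)
    (w : Fin d → C) (k : Fin d → ℕ) (hx : ∀ i, (nu g₀)^[k i] (w i) ≠ 0)
    (hdet : β'.det (fun i => D ℤ_[p] L (algebraMap C L ((nu g₀)^[k i] (w i)))) = 1)
    (hks : p - 1 ≤ ∑ i, k i) (n : ℤ) (hn : IsCanOrd ℤ_[p] R K β n) :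
    ordZ R (p : K) ≤ n + 1 := by
  have hp : (Nat.card G).Prime := by rw [hG]; exact Fact.out
  obtain ⟨δ, e, he, hΩ, hord⟩ := nu_main (R := R) hp hg₀ hinert
  have hess : EssFiniteType ℤ_[p] C := EssFiniteType.comp ℤ_[p] R C
  rw [hG] at hΩ
  exact canonical_lower_bound β β' hβ (fun i => (nu g₀)^[k i] (w i)) hx hdet δ e k
    (fun i => hord (w i) (k i)) he hΩ hks n hn

/-- lower bound, separating case -/
theorem lower_bound_u {R' : Type*} [CommRing R'] [IsDomain R'] [IsDiscreteValuationRing R']
    [Algebra C R'] [Algebra R R'] [IsScalarTower R C R'] [Algebra R' L] [IsScalarTower C R' L]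
    [IsFractionRing R' L] [IsScalarTower R R' L]
    [Algebra ℤ_[p] R'] [IsScalarTower ℤ_[p] R R'] [IsScalarTower ℤ_[p] R' L]
    [IsLocalHom (algebraMap R R')] [FaithfulSMul R R']
    (Q : Ideal C) [Q.IsPrime] [IsLocalization.AtPrime R' Q]
    (z : C) (hz : ∀ g : G, g ≠ 1 → z - g • z ∉ Q)
    (hβ : ∀ i, KaehlerDifferential.map ℤ_[p] ℤ_[p] K L (β i) = β' i)
    (x : Fin d → C) (hx : ∀ i, x i ≠ 0)
    (hdet : β'.det (fun i => D ℤ_[p] L (algebraMap C L (x i))) = 1)
    (k : Fin d → ℕ) (hks : p - 1 ≤ ∑ i, k i) (n : ℤ) (hn : IsCanOrd ℤ_[p] R K β n) :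
    ordZ R (p : K) ≤ n + 1 := by
  have hess : EssFiniteType R R' := by
    have : EssFiniteType C R' := EssFiniteType.of_isLocalization R' Q.primeCompl
    exact EssFiniteType.comp R C R'
  have hess' : EssFiniteType ℤ_[p] R' := EssFiniteType.comp ℤ_[p] R R'
  have hunr : FormallyUnramified R R' :=
    formallyUnramified_of_separating (G := G) (R := R) Q z hz
  have hm : (IsLocalRing.maximalIdeal R).map (algebraMap R R') = IsLocalRing.maximalIdeal R' :=
    FormallyUnramified.map_maximalIdeal
  have he : Module.length R' (R' ⧸ (IsLocalRing.maximalIdeal R).map (algebraMap R R')) =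
      ((1 : ℕ) : ℕ∞) := by
    rw [hm, Nat.cast_one, Module.length_eq_one_iff, isSimpleModule_iff_isCoatom,
      ← Ideal.isMaximal_def]
    infer_instance
  have hΩ : Module.length R' Ω[R'⁄R] + 1 ≤ (((p - 1) * 0 + 1 : ℕ) : ℕ∞) := by
    have : Subsingleton Ω[R'⁄R] := inferInstance
    rw [Module.length_eq_zero]
    simp
  refine canonical_lower_bound β β' hβ (fun i => algebraMap C R' (x i)) ?_ ?_ 0 1 k ?_ he hΩ hks n hn
  · intro i h
    apply hx i
    have h1 : algebraMap C L (x i) = 0 := by
      rw [IsScalarTower.algebraMap_apply C R' L, h, map_zero]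
    rwa [IsFractionRing.to_map_eq_zero_iff] at h1
  · rw [← hdet]
    congr 1
    ext i
    rw [← IsScalarTower.algebraMap_apply C R' L]
  · intro i
    simp

/-- The lower bound, for `C` a finite Galois extension of `R` with group of order `p`. -/
theorem lower_bound_C [IsDedekindDomain C]
    (hG : Nat.card G = p) {g₀ : G} (hg₀ : g₀ ≠ 1)
    (hβ : ∀ i, KaehlerDifferential.map ℤ_[p] ℤ_[p] K L (β i) = β' i)
    (w : Fin d → C) (k : Fin d → ℕ) (hx : ∀ i, (nu g₀)^[k i] (w i) ≠ 0)
    (hdet : β'.det (fun i => D ℤ_[p] L (algebraMap C L ((nu g₀)^[k i] (w i)))) = 1)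
    (hks : p - 1 ≤ ∑ i, k i) (n : ℤ) (hn : IsCanOrd ℤ_[p] R K β n) :
    ordZ R (p : K) ≤ n + 1 := by
  classical
  have hp : (Nat.card G).Prime := by rw [hG]; exact Fact.out
  have hint : Algebra.IsIntegral R C := inferInstance
  obtain ⟨Q, hQ⟩ := Ideal.exists_maximal C
  have hQm : (Q.under R).IsMaximal := Ideal.isMaximal_comap_of_isIntegral_of_isMaximal Q
  have hQm' : Q.under R = IsLocalRing.maximalIdeal R := IsLocalRing.eq_maximalIdeal hQm
  by_cases hU : ∃ z : C, ∀ g : G, g ≠ 1 → z - g • z ∉ Q
  · obtain ⟨z, hz⟩ := hU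
    -- the localization inside `L`
    have hle : Q.primeCompl ≤ nonZeroDivisors C := Q.primeCompl_le_nonZeroDivisors
    let R' : Subalgebra C L := Localization.subalgebra.ofField L Q.primeCompl hle
    have hloc : IsLocalization.AtPrime R' Q :=
      Localization.subalgebra.isLocalization_ofField L Q.primeCompl hle
    have hQ0 : Q ≠ ⊥ := by
      intro h
      have h1 : Q.under R = ⊥ := by
        rw [h, _root_.eq_bot_iff]
        intro r hr
        have h2 : algebraMap R C r ∈ (⊥ : Ideal C) := hr
        rw [Ideal.mem_bot, FaithfulSMul.algebraMap_eq_zero_iff] at h2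
        exact h2
      rw [hQm'] at h1
      exact IsDiscreteValuationRing.not_a_field R h1
    have hDVR : IsDiscreteValuationRing R' :=
      IsLocalization.AtPrime.isDiscreteValuationRing_of_dedekind_domain C hQ0 R'
    have htower1 : IsScalarTower R C R' := inferInstance
    have htower2 : IsScalarTower R R' L := inferInstance
    have htower3 : IsScalarTower ℤ_[p] R' L := inferInstance
    have htower4 : IsScalarTower ℤ_[p] R R' := by
      refine IsScalarTower.of_algebraMap_eq fun a => ?_
      apply Subtype.ext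
      change algebraMap ℤ_[p] L a = algebraMap R L (algebraMap ℤ_[p] R a)
      rw [IsScalarTower.algebraMap_apply R C L, ← IsScalarTower.algebraMap_apply ℤ_[p] R C,
        ← IsScalarTower.algebraMap_apply ℤ_[p] C L]
    have hfaith : FaithfulSMul R R' := by
      rw [faithfulSMul_iff_algebraMap_injective]
      intro a b hab
      have h1 : algebraMap R L a = algebraMap R L b := by
        rw [IsScalarTower.algebraMap_apply R R' L, hab, ← IsScalarTower.algebraMap_apply R R' L]
      rw [IsScalarTower.algebraMap_apply R K L, IsScalarTower.algebraMap_apply R K L] at h1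
      exact IsFractionRing.injective R K ((algebraMap K L).injective h1)
    have hlh : IsLocalHom (algebraMap R R') := by
      constructor
      intro r hr
      by_contra hcon
      have h1 : r ∈ Q.under R := by
        rw [hQm']; exact hcon
      have h2 : algebraMap R C r ∈ Q := h1
      have h3 : algebraMap R R' r ∈ IsLocalRing.maximalIdeal R' := by
        rw [IsScalarTower.algebraMap_apply R C R']
        rw [← IsLocalization.AtPrime.map_eq_maximalIdeal Q R']
        exact Ideal.mem_map_of_mem _ h2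
      exact h3 hr
    exact lower_bound_u β β' (R' := R') Q z hz hβ (fun i => (nu g₀)^[k i] (w i)) hx hdet k hks n hn
  · push Not at hU
    obtain ⟨hloc, hmax⟩ := isLocalRing_of_nonseparating R hp Q hU
    have hDVR : IsDiscreteValuationRing C := isDVR_of_nonseparating R
    refine lower_bound_nu β β' hG hg₀ ?_ hβ w k hx hdet hks n hn
    intro z
    rw [hmax]
    exact inert_of_nonseparating hp Q hU g₀ z

end

section final

variable {p : ℕ} [Fact p.Prime] {G R K L : Type*} [Group G] [Fintype G]
  [CommRing R] [IsDomain R] [IsDiscreteValuationRing R]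
  [Field K] [CharZero K] [Field L] [CharZero L] [Algebra R K] [IsFractionRing R K]
  [Algebra K L] [Algebra R L] [IsScalarTower R K L]
  [Algebra ℤ_[p] R] [EssFiniteType ℤ_[p] R]
  [Algebra ℤ_[p] K] [IsScalarTower ℤ_[p] R K] [Algebra ℤ_[p] L]
  [IsScalarTower ℤ_[p] K L]
  [MulSemiringAction G L] [IsGaloisGroup G K L]
  {d : ℕ} (β : Module.Basis (Fin d) K (Ω[K⁄ℤ_[p]])) (β' : Module.Basis (Fin d) L (Ω[L⁄ℤ_[p]]))

/-- The lower bound for the canonical order at every divisorial valuation of `K`. -/
theorem lower_bound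
    (hG : Nat.card G = p) {g₀ : G} (hg₀ : g₀ ≠ 1)
    (hβ : ∀ i, KaehlerDifferential.map ℤ_[p] ℤ_[p] K L (β i) = β' i)
    (w : Fin d → L) (hw : ∀ i, IsIntegral R (w i))
    (k : Fin d → ℕ) (hx : ∀ i, (nu g₀)^[k i] (w i) ≠ 0)
    (hdet : β'.det (fun i => D ℤ_[p] L ((nu g₀)^[k i] (w i))) = 1)
    (hks : p - 1 ≤ ∑ i, k i) (n : ℤ) (hn : IsCanOrd ℤ_[p] R K β n) :
    ordZ R (p : K) ≤ n + 1 := by
  have hfd : FiniteDimensional K L := IsGaloisGroup.finiteDimensional G K L
  have hcomm : SMulCommClass G K L := IsGaloisGroup.commutes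
  have hcomm' : SMulCommClass G R L := by
    constructor
    intro g r x
    rw [Algebra.smul_def, IsScalarTower.algebraMap_apply R K L, smul_mul', smul_algebraMap,
      Algebra.smul_def, IsScalarTower.algebraMap_apply R K L]
  let C := integralClosure R L
  have hfrac : IsFractionRing C L := integralClosure.isFractionRing_of_finite_extension K L
  have hded : IsDedekindDomain C := integralClosure.isDedekindDomain R K L
  have hfin : Module.Finite R C := IsIntegralClosure.finite R K L C
  have htower0 : IsScalarTower ℤ_[p] R L := by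
    refine IsScalarTower.of_algebraMap_eq fun a => ?_
    rw [IsScalarTower.algebraMap_apply ℤ_[p] K L, IsScalarTower.algebraMap_apply ℤ_[p] R K,
      ← IsScalarTower.algebraMap_apply R K L]
  have hfaith : FaithfulSMul R C := by
    rw [faithfulSMul_iff_algebraMap_injective]
    intro a b hab
    have h1 : algebraMap R L a = algebraMap R L b := congrArg (algebraMap C L) hab
    rw [IsScalarTower.algebraMap_apply R K L, IsScalarTower.algebraMap_apply R K L] at h1
    exact IsFractionRing.injective R K ((algebraMap K L).injective h1)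
  have hgal : IsGaloisGroup G R C := IsGaloisGroup.of_isFractionRing G R C K L
  let w' : Fin d → C := fun i => ⟨w i, hw i⟩
  have hnu : ∀ (m : ℕ) (c : C), algebraMap C L ((nu g₀)^[m] c) = (nu g₀)^[m] (algebraMap C L c) := by
    intro m
    induction m with
    | zero => intro c; rfl
    | succ m ih =>
      intro c
      rw [Function.iterate_succ_apply, Function.iterate_succ_apply, ih]
      rfl
  refine lower_bound_C (C := C) β β' hG hg₀ hβ w' k ?_ ?_ hks n hn
  · intro i h
    apply hx i
    have := hnu (k i) (w' i)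
    rw [h, map_zero] at this
    exact this.symm
  · rw [← hdet]
    congr 1
    ext i
    rw [hnu]
    rfl

end final

end Pool.Agent.Lib.MP_18dec4_ag
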