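import Pool.Agent.Lib.MP_18dec4_ag.FiberS2

/-!
Assembly of the example.
-/

set_option linter.unusedSectionVars false

namespace Pool.Agent.Lib.MP_18dec4_ag

open KaehlerDifferential Algebra

section

variable (p : ℕ) [Fact p.Prime] (K L : Type) [Field K] [Field L]
  [Algebra (Ap p) K] [IsFractionRing (Ap p) K] [Algebra (Sp p) L] [IsFractionRing (Sp p) L]
  [Algebra K L] [IsScalarTower (Ap p) K L]
  [MulSemiringAction (Gp p) L] [SMulDistribClass (Gp p) (Sp p) L]
  [Algebra ℤ_[p] K] [IsScalarTower ℤ_[p] (Ap p) K] [Algebra ℤ_[p] L]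
  [IsScalarTower ℤ_[p] K L] [IsScalarTower ℤ_[p] (Sp p) L]

lemma isCanonicalOrder_of {d : ℕ} (β : Module.Basis (Fin d) K Ω[K⁄ℤ_[p]])
    (E : DivisorOver (Ap p) K) (n : ℤ) (h : IsCanOrd ℤ_[p] E.ring K β n) :
    IsCanonicalOrder ℤ_[p] E β n := h

include L in
theorem isLogCanonicalPair_Ap_aux (hp : 2 < p) :
    IsLogCanonicalPair ℤ_[p] (Ap p) K (p : Ap p) := by
  have h1 := charZero_K p K
  have h5 := finiteType_Ap p hp
  obtain ⟨β, β', hβ, hdet⟩ := exists_beta p K L hp
  have hpK : algebraMap (Ap p) K (p : Ap p) = (p : K) := map_natCast _ _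
  refine ⟨dimP p, β, fun E hE => ?_, fun x => ⟨1, (p : K), one_pos, ?_, fun E hE _ => ?_,
    fun E _ _ => ?_⟩⟩
  · rw [hpK]
    exact ordZ_p_le_one p K hp E hE
  · exact_mod_cast (Fact.out : p.Prime).ne_zero
  · refine ⟨0, isCanonicalOrder_of p K β E 0 (canOrd_zero_E p K L hp β β' hβ hdet E hE), ?_⟩
    rw [hpK]
    push_cast
    ring
  · have h6 : EssFiniteType ℤ_[p] E.ring := EssFiniteType.comp ℤ_[p] (Ap p) E.ring
    obtain ⟨n, hn⟩ := exists_isCanOrd (O := ℤ_[p]) (R := E.ring) β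
    refine ⟨n, isCanonicalOrder_of p K β E n hn, ?_⟩
    have h7 := lower_bound_E p K L hp β β' hβ hdet E n hn
    have h8 : E.ord (p : K) ≤ n + 1 := h7
    push_cast
    linarith

end

theorem isLogCanonicalPair_Ap (p : ℕ) [Fact p.Prime] (hp : 2 < p) :
    IsLogCanonicalPair ℤ_[p] (Ap p) (FractionRing (Ap p)) (p : Ap p) := by
  let _ : MulSemiringAction (Gp p) (FractionRing (Sp p)) :=
    IsFractionRing.mulSemiringAction (Gp p) (Sp p) (FractionRing (Sp p))
  have h1 : SMulDistribClass (Gp p) (Sp p) (FractionRing (Sp p)) :=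
    IsFractionRing.smulDistribClass (Gp p) (Sp p) (FractionRing (Sp p))
  have h2 : FaithfulSMul (Ap p) (FractionRing (Sp p)) := by
    rw [faithfulSMul_iff_algebraMap_injective]
    exact (IsFractionRing.injective (Sp p) (FractionRing (Sp p))).comp (algebraMap_Ap_injective p)
  let _ : Algebra (FractionRing (Ap p)) (FractionRing (Sp p)) :=
    FractionRing.liftAlgebra (Ap p) (FractionRing (Sp p))
  have h3 : IsScalarTower (Ap p) (FractionRing (Ap p)) (FractionRing (Sp p)) :=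
    FractionRing.isScalarTower_liftAlgebra (Ap p) (FractionRing (Sp p))
  have h4 : IsScalarTower ℤ_[p] (FractionRing (Ap p)) (FractionRing (Sp p)) :=
    IsScalarTower.to₁₃₄ ℤ_[p] (Ap p) _ _
  exact isLogCanonicalPair_Ap_aux p (FractionRing (Ap p)) (FractionRing (Sp p)) hp

end Pool.Agent.Lib.MP_18dec4_ag
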