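import Pool.Agent.Lib.MP_18dec4_ag.Length

/-!
Integer valued orders on the fraction field of a discrete valuation ring, and the independence of
the canonical order of the chosen differentials.
-/

set_option linter.unusedSectionVars false

namespace Pool.Agent.Lib.MP_18dec4_ag

open Module

section ord

variable (R : Type*) {K : Type*} [CommRing R] [IsDomain R] [IsDiscreteValuationRing R]
  [Field K] [Algebra R K] [IsFractionRing R K]

/-- integer valued order -/
noncomputable def ordZ (x : K) : ℤ := WithZero.log (Ring.ordFrac R x)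

lemma ordZ_mul {x y : K} (hx : x ≠ 0) (hy : y ≠ 0) : ordZ R (x * y) = ordZ R x + ordZ R y := by
  unfold ordZ
  rw [map_mul, WithZero.log_mul]
  · simpa using hx
  · simpa using hy

lemma ordZ_one : ordZ R (1 : K) = 0 := by
  unfold ordZ
  rw [map_one, WithZero.log_one]

lemma ordZ_inv (x : K) : ordZ R x⁻¹ = - ordZ R x := by
  unfold ordZ
  rw [map_inv₀, WithZero.log_inv]

lemma ordZ_div {x y : K} (hx : x ≠ 0) (hy : y ≠ 0) : ordZ R (x / y) = ordZ R x - ordZ R y := by
  rw [div_eq_mul_inv, ordZ_mul R hx (inv_ne_zero hy), ordZ_inv, sub_eq_add_neg]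

lemma ordZ_pow {x : K} (hx : x ≠ 0) (n : ℕ) : ordZ R (x ^ n) = n * ordZ R x := by
  induction n with
  | zero => simp [ordZ_one]
  | succ n ih => rw [pow_succ, ordZ_mul R (pow_ne_zero n hx) hx, ih]; push_cast; ring

lemma ordZ_algebraMap {r : R} {n : ℕ} (hr : r ≠ 0) (h : Ring.ord R r = n) :
    ordZ R (algebraMap R K r) = n := by
  unfold ordZ
  rw [Ring.ordFrac_eq_ord R hr,
    Ring.ordMonoidWithZeroHom_eq_coe R (mem_nonZeroDivisors_of_ne_zero hr) h]
  rfl

lemma exists_ord_eq {r : R} (hr : r ≠ 0) : ∃ n : ℕ, Ring.ord R r = n ∧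
    ∀ (K : Type*) [Field K] [Algebra R K] [IsFractionRing R K],
      ordZ R (algebraMap R K r) = n := by
  have h := Ring.ord_ne_top (mem_nonZeroDivisors_of_ne_zero hr)
  obtain ⟨n, hn⟩ := ENat.ne_top_iff_exists.1 h
  exact ⟨n, hn.symm, fun K _ _ _ => ordZ_algebraMap R hr hn.symm⟩

end ord

section tower

variable {R M : Type*} [CommRing R] [IsDomain R] [IsPrincipalIdealRing R]
  [AddCommGroup M] [Module R M] {d : ℕ}

/-- Length is additive for `N ≤ P ≤ M`. -/
lemma length_tower {R M : Type*} [CommRing R] [AddCommGroup M] [Module R M]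
    (N P : Submodule R M) (h : N ≤ P) :
    Module.length R (M ⧸ N) = Module.length R (P ⧸ N.comap P.subtype) +
      Module.length R (M ⧸ P) := by
  refine Module.length_eq_add_of_exact (Submodule.mapQ (N.comap P.subtype) N P.subtype le_rfl)
    (Submodule.mapQ N P LinearMap.id h) ?_ ?_ ?_
  · rw [← LinearMap.ker_eq_bot, Submodule.ker_mapQ]
    exact Submodule.mkQ_map_self _
  · intro x
    obtain ⟨m, rfl⟩ := Submodule.Quotient.mk_surjective _ x
    exact ⟨Submodule.Quotient.mk m, rfl⟩
  · intro x
    obtain ⟨m, rfl⟩ := Submodule.Quotient.mk_surjective _ x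
    rw [Submodule.mapQ_apply, LinearMap.id_apply, Submodule.Quotient.mk_eq_zero]
    constructor
    · intro hm
      exact ⟨Submodule.Quotient.mk ⟨m, hm⟩, rfl⟩
    · rintro ⟨y, hy⟩
      obtain ⟨z, rfl⟩ := Submodule.Quotient.mk_surjective _ y
      rw [Submodule.mapQ_apply, Submodule.Quotient.eq] at hy
      have := Submodule.sub_mem _ z.2 (h hy)
      simpa using this

lemma length_span_comb (a b : Fin d → M) (hli : LinearIndependent R a)
    (c : Matrix (Fin d) (Fin d) R) (hc : c.det ≠ 0) (h : ∀ i, b i = ∑ j, c i j • a j) :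
    Module.length R (M ⧸ Submodule.span R (Set.range b)) =
      Module.length R (M ⧸ Submodule.span R (Set.range a)) + Ring.ord R c.det := by
  have hle : Submodule.span R (Set.range b) ≤ Submodule.span R (Set.range a) := by
    rw [Submodule.span_le]
    rintro _ ⟨i, rfl⟩
    rw [SetLike.mem_coe, h i]
    exact Submodule.sum_mem _ fun j _ => Submodule.smul_mem _ _ (Submodule.subset_span ⟨j, rfl⟩)
  rw [length_tower _ _ hle, add_comm]
  congr 1
  let e : Basis (Fin d) R (Submodule.span R (Set.range a)) := Basis.span hli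
  have he : ∀ i, (e i : M) = a i := fun i => Basis.coe_span_apply hli i
  let v : Fin d → Submodule.span R (Set.range a) := fun i =>
    ⟨b i, hle (Submodule.subset_span ⟨i, rfl⟩)⟩
  have hv : ∀ i, v i = ∑ j, c i j • e j := by
    intro i
    apply Subtype.ext
    rw [Submodule.coe_sum]
    simp only [v, Submodule.coe_smul, he]
    exact h i
  have hdet : e.det v = c.det := by
    rw [det_of_comb e e v c hv, Basis.det_self, mul_one]
  have hspan : (Submodule.span R (Set.range b)).comap (Submodule.span R (Set.range a)).subtype =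
      Submodule.span R (Set.range v) := by
    apply Submodule.map_injective_of_injective (Submodule.subtype_injective
      (Submodule.span R (Set.range a)))
    rw [Submodule.map_comap_subtype, inf_eq_right.2 hle, Submodule.map_span, ← Set.range_comp]
    rfl
  rw [hspan, length_quotient_span e v (by rw [hdet]; exact hc), hdet]

end tower

section canonical

variable {R K M V : Type*} [CommRing R] [IsDomain R] [IsDiscreteValuationRing R]
  [Field K] [Algebra R K] [IsFractionRing R K]
  [AddCommGroup M] [Module R M] [Module.Finite R M]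
  [AddCommGroup V] [Module R V] [Module K V] [IsScalarTower R K V]
  (φ : M →ₗ[R] V) [IsLocalizedModule (nonZeroDivisors R) φ]
  {d : ℕ} (β : Basis (Fin d) K V)

lemma linInd_of_det (a : Fin d → M) (ha : β.det (fun i => φ (a i)) ≠ 0) :
    LinearIndependent R a := by
  have h1 : LinearIndependent K (fun i => φ (a i)) := linearIndependent_of_det_ne_zero β _ ha
  have h2 : LinearIndependent R (fun i => φ (a i)) :=
    h1.restrict_scalars (by
      intro x y h
      simpa [Algebra.smul_def] using h)
  exact LinearIndependent.of_comp φ h2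

lemma span_top_of_det (a : Fin d → M) (ha : β.det (fun i => φ (a i)) ≠ 0) :
    Submodule.span K (Set.range fun i => φ (a i)) = ⊤ :=
  ((β.is_basis_iff_det (v := fun i => φ (a i))).2 (isUnit_iff_ne_zero.2 ha)).2

/-- every element of `M` has a nonzero multiple in the span of `a` -/
lemma exists_smul_mem (a : Fin d → M) (ha : β.det (fun i => φ (a i)) ≠ 0) (m : M) :
    ∃ s : R, s ≠ 0 ∧ s • m ∈ Submodule.span R (Set.range a) := by
  classical
  have h1 : φ m ∈ Submodule.span K (Set.range fun i => φ (a i)) := by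
    rw [span_top_of_det φ β a ha]; trivial
  obtain ⟨c, hc⟩ := (Submodule.mem_span_range_iff_exists_fun K).1 h1
  obtain ⟨s, hs⟩ := IsLocalization.exist_integer_multiples_of_finset (nonZeroDivisors R)
    (Finset.univ.image c)
  have h2 : ∀ i, ∃ r : R, algebraMap R K r = (s : R) • c i := fun i =>
    hs (c i) (Finset.mem_image_of_mem c (Finset.mem_univ i))
  choose r hr using h2
  have h3 : φ ((s : R) • m) = φ (∑ i, r i • a i) := by
    rw [map_smul, ← hc, map_sum, Finset.smul_sum]
    refine Finset.sum_congr rfl fun i _ => ?_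
    rw [map_smul, ← smul_assoc, ← hr i, algebraMap_smul]
  obtain ⟨t, ht⟩ := (IsLocalizedModule.eq_iff_exists (nonZeroDivisors R) φ).1 h3
  refine ⟨(t : R) * s, mul_ne_zero (nonZeroDivisors.ne_zero t.2) (nonZeroDivisors.ne_zero s.2), ?_⟩
  have h4 : ((t : R) * s) • m = (t : R) • ∑ i, r i • a i := by
    rw [mul_smul]; exact ht
  rw [h4]
  refine Submodule.smul_mem _ _ (Submodule.sum_mem _ fun i _ => Submodule.smul_mem _ _ ?_)
  exact Submodule.subset_span ⟨i, rfl⟩

/-- `M / ⟨a⟩` is killed by a nonzero element of `R`. -/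
lemma exists_smul_le (a : Fin d → M) (ha : β.det (fun i => φ (a i)) ≠ 0) :
    ∃ s : R, s ≠ 0 ∧ ∀ m : M, s • m ∈ Submodule.span R (Set.range a) := by
  classical
  obtain ⟨S, hS⟩ := (Module.Finite.fg_top : (⊤ : Submodule R M).FG)
  choose s hs0 hs using fun m : M => exists_smul_mem φ β a ha m
  refine ⟨∏ m ∈ S, s m, Finset.prod_ne_zero_iff.2 fun m _ => hs0 m, fun m => ?_⟩
  have hm : m ∈ Submodule.span R (S : Set M) := by rw [hS]; trivial
  induction hm using Submodule.span_induction with
  | mem x hx =>
    rw [← Finset.mul_prod_erase S s hx, mul_comm, mul_smul]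
    exact Submodule.smul_mem _ _ (hs x)
  | zero => simp
  | add x y _ _ hx hy => rw [smul_add]; exact Submodule.add_mem _ hx hy
  | smul r x _ hx => rw [smul_comm]; exact Submodule.smul_mem _ _ hx

lemma length_ne_top (a : Fin d → M) (ha : β.det (fun i => φ (a i)) ≠ 0) :
    Module.length R (M ⧸ Submodule.span R (Set.range a)) ≠ ⊤ := by
  obtain ⟨s, hs0, hs⟩ := exists_smul_le φ β a ha
  rw [Module.length_ne_top_iff]
  obtain ⟨n, f, hf⟩ := Module.Finite.exists_fin' R (M ⧸ Submodule.span R (Set.range a))
  -- the quotient is a quotient of `(R/s)^n`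
  have h1 : IsFiniteLength R (Fin n → R ⧸ Ideal.span {s}) := by
    rw [← Module.length_ne_top_iff, Module.length_pi_of_fintype]
    have : Module.length R (R ⧸ Ideal.span {s}) ≠ ⊤ :=
      Ring.ord_ne_top (mem_nonZeroDivisors_of_ne_zero hs0)
    rw [Finset.sum_const, Finset.card_univ, Fintype.card_fin]
    obtain ⟨k, hk⟩ := ENat.ne_top_iff_exists.1 this
    rw [← hk, nsmul_eq_mul, ← Nat.cast_mul]
    exact ENat.natCast_ne_top _
  let g : (Fin n → R ⧸ Ideal.span {s}) →ₗ[R] (M ⧸ Submodule.span R (Set.range a)) :=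
    (Submodule.liftQ (Submodule.pi Set.univ fun _ => Ideal.span {s}) f (by
      intro x hx
      rw [Submodule.mem_pi] at hx
      have h2 : ∀ i, ∃ c, x i = c * s := fun i => by
        obtain ⟨c, hc⟩ := Ideal.mem_span_singleton'.1 (hx i trivial)
        exact ⟨c, hc.symm⟩
      choose c hc using h2
      have h3 : x = s • c := by
        ext i; rw [hc i, Pi.smul_apply, smul_eq_mul, mul_comm]
      rw [LinearMap.mem_ker, h3, map_smul]
      obtain ⟨m, hm⟩ := Submodule.Quotient.mk_surjective _ (f c)
      rw [← hm, ← Submodule.Quotient.mk_smul, Submodule.Quotient.mk_eq_zero]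
      exact hs m)) ∘ₗ (Submodule.quotientPi fun _ : Fin n => Ideal.span {s}).symm.toLinearMap
  have hg : Function.Surjective g := by
    intro y
    obtain ⟨x, rfl⟩ := hf y
    refine ⟨Submodule.quotientPi (fun _ : Fin n => Ideal.span {s}) (Submodule.Quotient.mk x), ?_⟩
    simp only [g, LinearMap.comp_apply, LinearEquiv.coe_coe, LinearEquiv.symm_apply_apply]
    exact Submodule.liftQ_apply _ _ _
  exact h1.of_surjective hg

/-- Independence of the canonical order. -/
theorem canonical_indep (a b : Fin d → M) (ha : β.det (fun i => φ (a i)) ≠ 0)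
    (hb : β.det (fun i => φ (b i)) ≠ 0) :
    ∃ la lb : ℕ, Module.length R (M ⧸ Submodule.span R (Set.range a)) = la ∧
      Module.length R (M ⧸ Submodule.span R (Set.range b)) = lb ∧
      (la : ℤ) - ordZ R (β.det (fun i => φ (a i))) =
        lb - ordZ R (β.det (fun i => φ (b i))) := by
  obtain ⟨la, hla⟩ := ENat.ne_top_iff_exists.1 (length_ne_top φ β a ha)
  obtain ⟨lb, hlb⟩ := ENat.ne_top_iff_exists.1 (length_ne_top φ β b hb)
  refine ⟨la, lb, hla.symm, hlb.symm, ?_⟩
  obtain ⟨t, ht0, ht⟩ := exists_smul_le φ β a ha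
  have h1 : ∀ i, ∃ c : Fin d → R, ∑ j, c j • a j = t • b i := fun i =>
    (Submodule.mem_span_range_iff_exists_fun R).1 (ht (b i))
  choose c hc using h1
  let C : Matrix (Fin d) (Fin d) R := Matrix.of c
  have hC : ∀ i, (t • b i) = ∑ j, C i j • a j := fun i => (hc i).symm
  -- determinants
  have hd1 : β.det (fun i => φ (t • b i)) = algebraMap R K C.det * β.det (fun i => φ (a i)) := by
    rw [det_of_comb β (fun i => φ (a i)) (fun i => φ (t • b i)) (C.map (algebraMap R K))]
    · rw [RingHom.map_det]; rfl
    · intro i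
      rw [hC i, map_sum]
      refine Finset.sum_congr rfl fun j _ => ?_
      rw [map_smul, Matrix.map_apply, algebraMap_smul]
  have hd2 : β.det (fun i => φ (t • b i)) = algebraMap R K (t ^ d) * β.det (fun i => φ (b i)) := by
    rw [det_of_comb β (fun i => φ (b i)) (fun i => φ (t • b i))
      (Matrix.scalar (Fin d) (algebraMap R K t))]
    · rw [Matrix.scalar_apply, Matrix.det_diagonal, Finset.prod_const, Finset.card_univ,
        Fintype.card_fin, map_pow]
    · intro i
      rw [map_smul, Matrix.scalar_apply]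
      simp [Matrix.diagonal_apply, ite_smul]
  have htd : t ^ d ≠ 0 := pow_ne_zero _ ht0
  have htdK : algebraMap R K (t ^ d) ≠ 0 := by
    rwa [Ne, IsFractionRing.to_map_eq_zero_iff]
  have hdne : β.det (fun i => φ (t • b i)) ≠ 0 := by
    rw [hd2]; exact mul_ne_zero htdK hb
  have hCne : C.det ≠ 0 := by
    intro h
    rw [hd1, h, map_zero, zero_mul] at hdne
    exact hdne rfl
  have hCneK : algebraMap R K C.det ≠ 0 := by
    rwa [Ne, IsFractionRing.to_map_eq_zero_iff]
  have hl1 := length_span_comb a (fun i => t • b i) (linInd_of_det φ β a ha) C hCne hC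
  have hl2 := length_span_comb b (fun i => t • b i) (linInd_of_det φ β b hb)
    (Matrix.scalar (Fin d) t) (by
      rw [Matrix.scalar_apply, Matrix.det_diagonal, Finset.prod_const, Finset.card_univ,
        Fintype.card_fin]; exact htd) (by
      intro i
      rw [Matrix.scalar_apply]
      simp [Matrix.diagonal_apply, ite_smul])
  rw [Matrix.scalar_apply, Matrix.det_diagonal, Finset.prod_const, Finset.card_univ,
    Fintype.card_fin] at hl2
  obtain ⟨n1, hn1, hn1'⟩ := exists_ord_eq R hCne
  obtain ⟨n2, hn2, hn2'⟩ := exists_ord_eq R htd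
  rw [hl1, ← hla, ← hlb, hn1, hn2] at hl2
  have h3 : la + n1 = lb + n2 := by exact_mod_cast hl2
  have h4 : ordZ R (algebraMap R K C.det * β.det (fun i => φ (a i))) =
      ordZ R (algebraMap R K (t ^ d) * β.det (fun i => φ (b i))) := by rw [← hd1, ← hd2]
  rw [ordZ_mul R hCneK ha, ordZ_mul R htdK hb, hn1' K, hn2' K] at h4
  omega

end canonical

end Pool.Agent.Lib.MP_18dec4_ag
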