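import Mathlib

/-!
The integral representation of the cyclic group of order `p` used in the construction, and the
resulting automorphism of a polynomial ring.
-/

namespace Pool.Agent.Lib.MP_18dec4_ag

open MvPolynomial

/-- index set of the variables `x_0, ..., x_{p-2}, y_0, ..., y_{p-2}` -/
abbrev Var (p : ℕ) := Bool × Fin (p - 1)

/-- The matrix of `ν = σ - 1`: `x_i ↦ x_{i+1}` for `i < p - 2` and
`x_{p-2} ↦ - ∑ C(p, k+1) x_k`. -/
def nuMat (p : ℕ) : Matrix (Var p) (Var p) ℤ := fun v w =>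
  if v.1 = w.1 then
    (if (v.2 : ℕ) + 1 < p - 1 then (if (w.2 : ℕ) = v.2 + 1 then 1 else 0)
      else -(p.choose (w.2 + 1) : ℤ))
  else 0

/-- the matrix of `σ` -/
def sigMat (p : ℕ) : Matrix (Var p) (Var p) ℤ := 1 + nuMat p

/-- row `v` of a product with `nuMat` on the left, easy case -/
lemma nuMat_mul_of_lt {p : ℕ} (b : Bool) (i : Fin (p - 1)) (h : (i : ℕ) + 1 < p - 1)
    (P : Matrix (Var p) (Var p) ℤ) (w : Var p) :
    (nuMat p * P) (b, i) w = P (b, ⟨i + 1, h⟩) w := by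
  rw [Matrix.mul_apply, Finset.sum_eq_single (b, ⟨(i : ℕ) + 1, h⟩)]
  · simp [nuMat, h]
  · rintro ⟨b', j⟩ _ hne
    simp only [nuMat]
    by_cases hb : b = b'
    · subst hb
      have hj : (j : ℕ) ≠ i + 1 := by
        intro hj
        apply hne
        rw [Prod.mk.injEq]
        exact ⟨rfl, Fin.ext hj⟩
      rw [if_pos rfl, if_pos h, if_neg hj, zero_mul]
    · rw [if_neg hb, zero_mul]
  · intro h'; exact absurd (Finset.mem_univ _) h'

lemma nuMat_mul_last {p : ℕ} (b : Bool) (i : Fin (p - 1)) (h : ¬ (i : ℕ) + 1 < p - 1)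
    (P : Matrix (Var p) (Var p) ℤ) (w : Var p) :
    (nuMat p * P) (b, i) w = - ∑ k : Fin (p - 1), (p.choose (k + 1) : ℤ) * P (b, k) w := by
  rw [Matrix.mul_apply, Fintype.sum_prod_type, Finset.sum_eq_single b]
  · rw [← Finset.sum_neg_distrib]
    refine Finset.sum_congr rfl fun k _ => ?_
    simp only [nuMat]
    rw [if_pos trivial, if_neg h, neg_mul]
  · intro b' _ hne
    refine Finset.sum_eq_zero fun k _ => ?_
    simp only [nuMat]
    rw [if_neg (Ne.symm hne), zero_mul]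
  · intro h'; exact absurd (Finset.mem_univ _) h'

/-- rows of powers of `nuMat` starting from the row of `x_0` -/
lemma nuMat_pow_row {p : ℕ} (hp : 0 < p - 1) (b : Bool) (k : ℕ) (hk : k < p - 1)
    (P : Matrix (Var p) (Var p) ℤ) (w : Var p) :
    (nuMat p ^ k * P) (b, ⟨0, hp⟩) w = P (b, ⟨k, hk⟩) w := by
  induction k generalizing P with
  | zero => rw [pow_zero, one_mul]
  | succ k ih =>
    rw [pow_succ, mul_assoc, ih (by omega), nuMat_mul_of_lt b ⟨k, by omega⟩ hk]

/-- `∑_{k < p} C(p, k+1) ν^k = 0` -/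
lemma poly_nuMat {p : ℕ} (hp : 2 ≤ p) :
    ∑ k ∈ Finset.range p, (p.choose (k + 1) : ℤ) • nuMat p ^ k = 0 := by
  have hp1 : 0 < p - 1 := by omega
  set P := ∑ k ∈ Finset.range p, (p.choose (k + 1) : ℤ) • nuMat p ^ k with hP
  have hcomm : ∀ j : ℕ, nuMat p ^ j * P = P * nuMat p ^ j := by
    intro j
    rw [hP, Finset.mul_sum, Finset.sum_mul]
    refine Finset.sum_congr rfl fun k _ => ?_
    rw [mul_smul_comm, smul_mul_assoc, ← pow_add, ← pow_add, add_comm j k]
  have hrow0 : ∀ b w, P (b, ⟨0, hp1⟩) w = 0 := by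
    intro b w
    rw [hP, Matrix.sum_apply]
    obtain ⟨q, rfl⟩ : ∃ q, p = q + 1 := ⟨p - 1, by omega⟩
    rw [Finset.sum_range_succ]
    have h1 : ∀ k ∈ Finset.range q, (((q + 1).choose (k + 1) : ℤ) • nuMat (q + 1) ^ k)
        (b, ⟨0, hp1⟩) w = if hk : k < q + 1 - 1 then
          ((q + 1).choose (k + 1) : ℤ) * (1 : Matrix (Var (q + 1)) (Var (q + 1)) ℤ) (b, ⟨k, hk⟩) w
          else 0 := by
      intro k hk
      rw [Finset.mem_range] at hk
      have hk' : k < q + 1 - 1 := by omega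
      rw [dif_pos hk', Matrix.smul_apply, smul_eq_mul, ← nuMat_pow_row hp1 b k hk' 1 w, mul_one]
    rw [Finset.sum_congr rfl h1]
    have h2 : (((q + 1).choose (q + 1) : ℤ) • nuMat (q + 1) ^ q) (b, ⟨0, hp1⟩) w =
        - ∑ k : Fin (q + 1 - 1), ((q + 1).choose (k + 1) : ℤ) *
          (1 : Matrix (Var (q + 1)) (Var (q + 1)) ℤ) (b, k) w := by
      rw [Nat.choose_self, Nat.cast_one, one_smul]
      have hq : q - 1 < q + 1 - 1 := by omega
      have h3 : nuMat (q + 1) ^ q = nuMat (q + 1) ^ (q - 1) * (nuMat (q + 1) * 1) := by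
        rw [mul_one, ← pow_succ]; congr 1; omega
      rw [h3, nuMat_pow_row hp1 b (q - 1) hq, nuMat_mul_last]
      simp only
      omega
    rw [h2]
    have h4 : ∑ x ∈ Finset.range q, (if hk : x < q + 1 - 1 then
          ((q + 1).choose (x + 1) : ℤ) * (1 : Matrix (Var (q + 1)) (Var (q + 1)) ℤ) (b, ⟨x, hk⟩) w
          else 0) = ∑ k : Fin (q + 1 - 1), ((q + 1).choose (k + 1) : ℤ) *
          (1 : Matrix (Var (q + 1)) (Var (q + 1)) ℤ) (b, k) w := by
      rw [Finset.sum_fin_eq_sum_range]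
      rfl
    rw [h4, add_neg_cancel]
  ext ⟨b, i⟩ w
  have h5 := hcomm i
  have h6 : (nuMat p ^ (i : ℕ) * P) (b, ⟨0, hp1⟩) w = P (b, i) w :=
    nuMat_pow_row hp1 b i i.2 P w
  rw [← h6, h5, Matrix.mul_apply]
  refine Finset.sum_eq_zero fun u _ => ?_
  rw [hrow0, zero_mul]

lemma sigMat_pow {p : ℕ} (hp : 2 ≤ p) : sigMat p ^ p = 1 := by
  have h1 : sigMat p ^ p = ∑ m ∈ Finset.range (p + 1), nuMat p ^ m * (p.choose m : Matrix (Var p) (Var p) ℤ) := by
    rw [sigMat, add_comm, (Commute.one_right (nuMat p)).add_pow]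
    refine Finset.sum_congr rfl fun m _ => ?_
    rw [one_pow, mul_one]
  rw [h1, Finset.sum_range_succ']
  have h2 : ∑ k ∈ Finset.range p, nuMat p ^ (k + 1) * ((p.choose (k + 1) : ℕ) : Matrix (Var p) (Var p) ℤ) =
      nuMat p * ∑ k ∈ Finset.range p, (p.choose (k + 1) : ℤ) • nuMat p ^ k := by
    rw [Finset.mul_sum]
    refine Finset.sum_congr rfl fun k _ => ?_
    rw [mul_smul_comm, ← pow_succ', zsmul_eq_mul, Int.cast_natCast]
    exact (Nat.cast_commute _ _).eq.symm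
  rw [h2, poly_nuMat hp, mul_zero, pow_zero, one_mul, zero_add, Nat.choose_zero_right, Nat.cast_one]

lemma sigMat_det {p : ℕ} (hp : 2 ≤ p) (hodd : Odd p) : (sigMat p).det = 1 := by
  have h1 : (sigMat p).det ^ p = 1 := by
    rw [← Matrix.det_pow, sigMat_pow hp, Matrix.det_one]
  have hu : IsUnit (sigMat p).det := by
    refine IsUnit.of_mul_eq_one ((sigMat p).det ^ (p - 1)) ?_
    rw [← pow_succ', Nat.sub_add_cancel (by omega)]
    exact h1
  rcases Int.isUnit_iff.1 hu with h | h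
  · exact h
  · exfalso
    rw [h, hodd.neg_one_pow] at h1
    norm_num at h1

end Pool.Agent.Lib.MP_18dec4_ag
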