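import Pool.Agent.Lib.MP_18dec4_ag.Defs
import Pool.Agent.Lib.MP_18dec4_ag.Lower
import Pool.Agent.Lib.MP_18dec4_ag.Invariants
import Pool.Agent.Lib.MP_18dec4_ag.FormBasis

/-!
The bases of differentials and the lower bound for the discrepancies of the example.
-/

set_option linter.unusedSectionVars false

namespace Pool.Agent.Lib.MP_18dec4_ag

open KaehlerDifferential Algebra

section

variable (p : ℕ) [Fact p.Prime] (K L : Type) [Field K] [Field L]
  [Algebra (Ap p) K] [IsFractionRing (Ap p) K] [Algebra (Sp p) L] [IsFractionRing (Sp p) L]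
  [Algebra K L] [IsScalarTower (Ap p) K L]
  [MulSemiringAction (Gp p) L] [SMulDistribClass (Gp p) (Sp p) L]
  [Algebra ℤ_[p] K] [IsScalarTower ℤ_[p] (Ap p) K] [Algebra ℤ_[p] L]
  [IsScalarTower ℤ_[p] K L] [IsScalarTower ℤ_[p] (Sp p) L]

include p in
lemma charZero_K : CharZero K := by
  have h1 : CharZero (Ap p) := by
    constructor
    intro a b hab
    have h2 : ((a : ℕ) : Sp p) = b := congrArg Subtype.val hab
    exact_mod_cast h2
  constructor
  intro a b hab
  have h3 : algebraMap (Ap p) K a = algebraMap (Ap p) K b := by simpa using hab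
  have h4 := IsFractionRing.injective (Ap p) K h3
  exact_mod_cast h4

include p in
lemma charZero_L : CharZero L := by
  constructor
  intro a b hab
  have h3 : algebraMap (Sp p) L a = algebraMap (Sp p) L b := by simpa using hab
  have h4 := IsFractionRing.injective (Sp p) L h3
  exact_mod_cast h4

lemma isGaloisGroup_KL (hp : 2 < p) : IsGaloisGroup (Gp p) K L := by
  have := finite_Gp p hp
  exact IsGaloisGroup.to_isFractionRing (Gp p) (Ap p) (Sp p) K L

/-- the number of variables -/
abbrev dimP : ℕ := Fintype.card (Var p)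

/-- enumeration of the variables -/
noncomputable def enumV : Fin (dimP p) ≃ Var p := (Fintype.equivFin (Var p)).symm

/-- the variables as elements of `L` -/
noncomputable def XL (i : Fin (dimP p)) : L := algebraMap (Sp p) L (MvPolynomial.X (enumV p i))

lemma exists_basis_L : ∃ B : Module.Basis (Fin (dimP p)) L Ω[L⁄ℤ_[p]],
    ∀ i, B i = D ℤ_[p] L (XL p L i) := by
  let B₀ := (KaehlerDifferential.mvPolynomialBasis ℤ_[p] (Var p)).ofIsLocalizedModule L
    (nonZeroDivisors (Sp p)) (KaehlerDifferential.map ℤ_[p] ℤ_[p] (Sp p) L)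
  refine ⟨B₀.reindex (enumV p).symm, fun i => ?_⟩
  rw [Module.Basis.reindex_apply]
  simp only [B₀, Module.Basis.ofIsLocalizedModule_apply, KaehlerDifferential.mvPolynomialBasis_apply,
    KaehlerDifferential.map_D, XL, Equiv.symm_symm]

lemma dimP_pos (hp : 2 < p) : 0 < dimP p := by
  rw [dimP, Fintype.card_prod, Fintype.card_bool, Fintype.card_fin]
  omega

lemma g₀_smul_XL (i : Fin (dimP p)) :
    g₀ p • XL p L i = ∑ j, (((sigMat p).submatrix (enumV p) (enumV p)) i j : L) * XL p L j := by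
  have h0 : g₀ p • XL p L i = algebraMap (Sp p) L (g₀ p • (MvPolynomial.X (enumV p i) : Sp p)) :=
    (algebraMap.coe_smul' _ _ L).symm
  rw [h0, g₀_smul, sigAut_apply, substHom_X, map_sum]
  rw [← Equiv.sum_comp (enumV p)]
  refine Finset.sum_congr rfl fun j _ => ?_
  rw [map_mul, map_intCast]
  rfl

theorem exists_beta (hp : 2 < p) :
    ∃ (β : Module.Basis (Fin (dimP p)) K Ω[K⁄ℤ_[p]])
      (β' : Module.Basis (Fin (dimP p)) L Ω[L⁄ℤ_[p]]),
      (∀ i, KaehlerDifferential.map ℤ_[p] ℤ_[p] K L (β i) = β' i) ∧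
      β'.det (fun i => D ℤ_[p] L (XL p L i)) = 1 := by
  have h1 := charZero_K p K
  have h2 := charZero_L p L
  have h3 := finite_Gp p hp
  have h4 := isGaloisGroup_KL p K L hp
  have h5 := finiteType_Ap p hp
  have h6 : EssFiniteType ℤ_[p] K := by
    have : EssFiniteType (Ap p) K := EssFiniteType.of_isLocalization K (nonZeroDivisors (Ap p))
    exact EssFiniteType.comp ℤ_[p] (Ap p) K
  obtain ⟨B, hB⟩ := exists_basis_L p L
  refine exists_invariant_basis (G := Gp p) (dimP_pos p hp) ?_ (g₀_ne_one p hp) (XL p L) B hB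
    ((sigMat p).submatrix (enumV p) (enumV p)) ?_ (g₀_smul_XL p L)
  · rw [card_Gp p hp]; exact Fact.out
  · rw [Matrix.det_submatrix_equiv_self]
    refine sigMat_det (two_le_p p) ((Fact.out : p.Prime).odd_of_ne_two (by omega))

lemma nu_algebraMap (m : ℕ) (f : Sp p) :
    (nu (g₀ p))^[m] (algebraMap (Sp p) L f) = algebraMap (Sp p) L ((nu (g₀ p))^[m] f) := by
  induction m generalizing f with
  | zero => rfl
  | succ m ih =>
    rw [Function.iterate_succ_apply, Function.iterate_succ_apply, ← ih]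
    congr 1
    rw [nu, nu, map_sub]
    congr 1
    exact (algebraMap.coe_smul' _ _ L).symm

lemma sum_index (hp : 2 < p) : p - 1 ≤ ∑ i : Fin (dimP p), (((enumV p i).2 : ℕ)) := by
  rw [Equiv.sum_comp (enumV p) (fun v => (v.2 : ℕ)), Fintype.sum_prod_type]
  simp only [Fintype.sum_bool]
  have h1 : (∑ j : Fin (p - 1), (j : ℕ)) = ∑ j ∈ Finset.range (p - 1), j :=
    Fin.sum_univ_eq_sum_range (fun j => j) (p - 1)
  have h2 := Finset.sum_range_id_mul_two (p - 1)
  rw [h1]
  have h3 : (p - 1) * 1 ≤ (p - 1) * (p - 1 - 1) := Nat.mul_le_mul_left _ (by omega)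
  omega


/-- The lower bound for the canonical order along every divisor over the quotient. -/
theorem lower_bound_E (hp : 2 < p)
    (β : Module.Basis (Fin (dimP p)) K Ω[K⁄ℤ_[p]])
    (β' : Module.Basis (Fin (dimP p)) L Ω[L⁄ℤ_[p]])
    (hβ : ∀ i, KaehlerDifferential.map ℤ_[p] ℤ_[p] K L (β i) = β' i)
    (hdet : β'.det (fun i => D ℤ_[p] L (XL p L i)) = 1)
    (E : DivisorOver (Ap p) K) (n : ℤ) (hn : IsCanOrd ℤ_[p] E.ring K β n) :
    ordZ E.ring (p : K) ≤ n + 1 := by
  have h1 := charZero_K p K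
  have h2 := charZero_L p L
  have h3 := finite_Gp p hp
  have h4 := isGaloisGroup_KL p K L hp
  have h5 := finiteType_Ap p hp
  have h6 : EssFiniteType ℤ_[p] E.ring := EssFiniteType.comp ℤ_[p] (Ap p) E.ring
  have h7 := Fintype.ofFinite (Gp p)
  have h8 := isIntegral_Ap p hp
  have h0 : 0 < p - 1 := by omega
  have hnu : ∀ i : Fin (dimP p), (nu (g₀ p))^[((enumV p i).2 : ℕ)]
      (algebraMap (Sp p) L (MvPolynomial.X ((enumV p i).1, ⟨0, h0⟩))) = XL p L i := by
    intro i
    rw [nu_algebraMap, nu_iterate_X]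
    rfl
  have key := lower_bound (G := Gp p) (R := E.ring) (K := K) (L := L) β β' (card_Gp p hp) (g₀_ne_one p hp) hβ
  have hw : ∀ i : Fin (dimP p), IsIntegral E.ring (algebraMap (Sp p) L (MvPolynomial.X ((enumV p i).1, ⟨0, h0⟩))) := by
    intro i
    have h9 : IsIntegral (Ap p) (algebraMap (Sp p) L
        (MvPolynomial.X ((enumV p i).1, ⟨0, h0⟩))) :=
      (Algebra.IsIntegral.isIntegral (R := Ap p) (A := Sp p) _).algebraMap
    have h10 : IsScalarTower (Ap p) E.ring L := by
      refine IsScalarTower.of_algebraMap_eq fun a => ?_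
      rw [IsScalarTower.algebraMap_apply (Ap p) K L]
      rfl
    exact IsIntegral.tower_top (R := Ap p) (A := E.ring) h9
  have key2 := key (fun i => algebraMap (Sp p) L (MvPolynomial.X ((enumV p i).1, ⟨0, h0⟩))) hw
    (fun i => ((enumV p i).2 : ℕ)) 
  have hx : ∀ i : Fin (dimP p), (nu (g₀ p))^[((enumV p i).2 : ℕ)]
      (algebraMap (Sp p) L (MvPolynomial.X ((enumV p i).1, ⟨0, h0⟩))) ≠ 0 := by
    intro i
    rw [hnu]
    rw [XL, Ne, IsFractionRing.to_map_eq_zero_iff]
    exact MvPolynomial.X_ne_zero _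
  have key3 := key2 hx
  have hdet' : β'.det (fun i => D ℤ_[p] L ((nu (g₀ p))^[((enumV p i).2 : ℕ)]
      (algebraMap (Sp p) L (MvPolynomial.X ((enumV p i).1, ⟨0, h0⟩))))) = 1 := by
    rw [← hdet]
    congr 1
    ext i
    rw [hnu]
  exact key3 hdet' (sum_index p hp) n hn

end
end Pool.Agent.Lib.MP_18dec4_ag
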